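import Pool.Agent.Lib.MP_e6972d_co.Spec

/-!
# MP_e6972d_co: basic facts on bipartite maps
-/

namespace PanD

open Equiv Finset

namespace BasicAux

variable {E B W : Type} (M : BMap E B W)

theorem bl_β (e : E) : M.bl (M.β e) = M.bl e :=
  ((M.hb e (M.β e)).2 (Perm.sameCycle_apply_right.2 (Perm.SameCycle.refl _ _))).symm

theorem wh_ω (e : E) : M.wh (M.ω e) = M.wh e :=
  ((M.hw e (M.ω e)).2 (Perm.sameCycle_apply_right.2 (Perm.SameCycle.refl _ _))).symm

theorem h_ω {V : Type} {h : E → V} (hh : ∀ e, h (M.fc e) = h e) (e : E) :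
    h (M.ω e) = h (M.β.symm e) := by
  have h1 := hh (M.β.symm e)
  unfold BMap.fc at h1
  rw [Equiv.apply_symm_apply] at h1
  exact h1

theorem two_sum [Fintype E] {V : Type} [DecidableEq V] (f : E → V) (h k : E → ZMod 2) (σ : Perm E)
    (hf : ∀ e, f (σ e) = f e) (hk : ∀ e, k (σ e) = h e) (v : V) :
    ∑ e, (if f e = v then h e + k e else 0) = 0 := by
  have h1 : ∑ e, (if f e = v then h e + k e else 0) =
      ∑ e, (if f e = v then h e else 0) + ∑ e, (if f e = v then k e else 0) := by
    rw [← Finset.sum_add_distrib]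
    apply Finset.sum_congr rfl
    intro e _
    split_ifs <;> simp
  have h2 : ∑ e, (if f e = v then k e else 0) = ∑ e, (if f e = v then h e else 0) := by
    rw [← Equiv.sum_comp σ]
    apply Finset.sum_congr rfl
    intro e _
    rw [hf, hk]
  rw [h1, h2]
  exact CharTwo.add_self_eq_zero _

end BasicAux

open BasicAux in
theorem Basic : S_Basic := by
  intro E B W _ _ _ _ M
  refine ⟨?_, ?_, ?_, ?_⟩
  · intro h hh
    constructor
    · intro b
      exact two_sum M.bl h (fun e => h (M.β.symm e)) M.β (bl_β M) (fun e => by simp) b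
    · intro w
      have e1 : ∀ e, h (M.β.symm e) = h (M.ω e) := fun e => (h_ω M hh e).symm
      have h2 := two_sum M.wh h (fun e => h (M.ω.symm e)) M.ω (wh_ω M) (fun e => by simp) w
      have h3 : ∑ e, (if M.wh e = w then h e + h (M.ω e) else 0) =
          ∑ e, (if M.wh e = w then h e + h (M.ω.symm e) else 0) := by
        rw [← Equiv.sum_comp M.ω (fun e => if M.wh e = w then h e + h (M.ω.symm e) else 0)]
        apply Finset.sum_congr rfl
        intro e _
        rw [wh_ω, Equiv.symm_apply_apply, add_comm]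
      change ∑ e, (if M.wh e = w then h e + h (M.β.symm e) else 0) = 0
      simp only [e1]
      rw [h3]
      exact h2
  · intro hP z hz
    obtain ⟨h, hh, hz2⟩ := hP z ⟨hz.2, hz.1⟩
    refine ⟨h, fun e => ?_, fun e => ?_⟩
    · have h1 : h (M.fc (M.β⁻¹ (M.ω⁻¹ e))) = h (M.β⁻¹ (M.ω⁻¹ e)) := hh _
      have h2 : M.fc (M.β⁻¹ (M.ω⁻¹ e)) = e := by
        unfold BMap.fc
        simp
      rw [h2] at h1
      exact h1.symm
    · rw [hz2 e]
      have h1 : M.dual.β.symm e = M.ω e := by
        change (M.ω⁻¹).symm e = M.ω e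
        rw [Equiv.symm_apply_eq]
        simp
      rw [h1, h_ω M hh e]
  · intro hS e f h1 h2
    exact hS e f h2 h1
  · intro hC S hne hS
    exact hC S hne (fun x hx y hxy => hS x hx y hxy.symm)

end PanD
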