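import Pool.Agent.Lib.MP_e6972d_co.Spec

/-!
# Adding a chord inside a face of a bipartite map
-/

set_option linter.unusedSectionVars false

namespace PanD

open Equiv Finset

namespace ChordPlanarAux

/-- Multiplying by a swap of two points of the same cycle separates them. -/
lemma split {α : Type*} [DecidableEq α] [Finite α] (σ : Perm α) (a b : α) (hab : a ≠ b)
    (h : σ.SameCycle b a) :
    ∃ S : Set α, (∀ z ∈ S, (σ * Equiv.swap a b) z ∈ S) ∧ a ∈ S ∧ b ∉ S := by
  classical
  have hex : ∃ n : ℕ, 1 ≤ n ∧ (σ ^ n) b = a := by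
    obtain ⟨n, hn⟩ := h.exists_nat_pow_eq
    refine ⟨n, ?_, hn⟩
    rcases Nat.eq_zero_or_pos n with h0 | h0
    · subst h0
      exact absurd hn.symm (by simpa using hab)
    · exact h0
  set j := Nat.find hex with hj
  obtain ⟨hj1, hj2⟩ := Nat.find_spec hex
  have hmin : ∀ i, 1 ≤ i → i < j → (σ ^ i) b ≠ a := fun i hi hij hia =>
    Nat.find_min hex hij ⟨hi, hia⟩
  have hminb : ∀ i, 1 ≤ i → i < j → (σ ^ i) b ≠ b := by
    intro i hi hij hib
    have h1 : (σ ^ (j - i)) b = a := by
      have h2 : (σ ^ (j - i)) ((σ ^ i) b) = a := by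
        rw [← Perm.mul_apply, ← pow_add, Nat.sub_add_cancel hij.le]
        exact hj2
      rwa [hib] at h2
    exact hmin (j - i) (by omega) (by omega) h1
  refine ⟨{z | ∃ i, 1 ≤ i ∧ i ≤ j ∧ (σ ^ i) b = z}, ?_, ⟨j, hj1, le_refl _, hj2⟩, ?_⟩
  · rintro z ⟨i, hi, hij, rfl⟩
    rcases lt_or_eq_of_le hij with h1 | h1
    · refine ⟨i + 1, by omega, by omega, ?_⟩
      rw [Perm.mul_apply, Equiv.swap_apply_of_ne_of_ne (hmin i hi h1) (hminb i hi h1), pow_succ',
        Perm.mul_apply]
    · refine ⟨1, le_refl _, hj1, ?_⟩
      rw [h1, hj2, Perm.mul_apply, Equiv.swap_apply_left, pow_one]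
  · rintro ⟨i, hi, hij, hib⟩
    rcases lt_or_eq_of_le hij with h1 | h1
    · exact hminb i hi h1 hib
    · rw [h1, hj2] at hib
      exact hab hib

variable {E B W : Type} [Fintype E] [DecidableEq E] [DecidableEq B] [DecidableEq W]
  (M : BMap E B W) (e g : E)

lemma fcE : (M.chord e g).fc (some e) = some (M.fc g) := by
  show insP M.ω (M.β g) (insP M.β e (some e)) = some (M.ω (M.β g))
  rw [insP_self, insP_none]

lemma fcN (h : e ≠ g) : (M.chord e g).fc none = some (M.fc e) := by
  show insP M.ω (M.β g) (insP M.β e none) = some (M.ω (M.β e))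
  rw [insP_none, insP_of_ne]
  exact fun h1 => h (M.β.injective h1)

lemma fcN' (h : e = g) : (M.chord e g).fc none = none := by
  show insP M.ω (M.β g) (insP M.β e none) = none
  rw [insP_none, h, insP_self]

lemma fcG (h : e ≠ g) : (M.chord e g).fc (some g) = none := by
  show insP M.ω (M.β g) (insP M.β e (some g)) = none
  rw [insP_of_ne _ _ (Ne.symm h), insP_self]

lemma fcO {y : E} (h : y ≠ e) (h' : y ≠ g) : (M.chord e g).fc (some y) = some (M.fc y) := by
  show insP M.ω (M.β g) (insP M.β e (some y)) = some (M.ω (M.β y))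
  rw [insP_of_ne _ _ h, insP_of_ne]
  exact fun h1 => h' (M.β.injective h1)

lemma fp_eq : (M.chord e g).fp = insP M.fp g * Equiv.swap (some e) none := by
  ext1 x
  rw [BMap.fp_apply, Perm.mul_apply]
  rcases x with _ | x
  · rw [Equiv.swap_apply_right]
    by_cases h : e = g
    · rw [fcN' M e g h, h, insP_self]
    · rw [fcN M e g h, insP_of_ne _ _ h, BMap.fp_apply]
  · by_cases hx : x = e
    · rw [hx, Equiv.swap_apply_left, fcE, insP_none, BMap.fp_apply]
    · rw [Equiv.swap_apply_of_ne_of_ne (by simpa using hx) (by simp)]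
      by_cases hg : x = g
      · rw [hg, fcG M e g (fun h => hx (hg.trans h.symm)), insP_self]
      · rw [fcO M e g hx hg, insP_of_ne _ _ hg, BMap.fp_apply]

lemma zmod_add_self (x : ZMod 2) : x + x = 0 := CharTwo.add_self_eq_zero x

/-- the case where the cycle does not contain the chord -/
lemma case0 (hfp : M.fp.SameCycle e g) (hM : M.Planar) (z : Option E → ZMod 2)
    (hz : (M.chord e g).Cyc z) (h0 : z none = 0) :
    ∃ h : Option E → ZMod 2, (∀ x, h ((M.chord e g).fc x) = h x) ∧
      ∀ x, z x = h x + h ((M.chord e g).β.symm x) := by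
  have hcyc : M.Cyc (fun y => z (some y)) := by
    constructor
    · intro b
      have h1 := hz.1 b
      rw [Fintype.sum_option] at h1
      rw [h0, ite_self, zero_add] at h1
      exact h1
    · intro w
      have h1 := hz.2 w
      rw [Fintype.sum_option] at h1
      rw [h0, ite_self, zero_add] at h1
      exact h1
  obtain ⟨h, hh, hzh⟩ := hM _ hcyc
  have heg : h e = h g := eq_of_sameCycle (σ := M.fp) (f := h) (fun x => hh x) hfp
  refine ⟨fun x => x.elim (h e) h, ?_, ?_⟩
  · intro x
    rcases x with _ | x
    · by_cases hc : e = g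
      · rw [fcN' M e g hc]
      · rw [fcN M e g hc]
        exact hh e
    · by_cases hx : x = e
      · rw [hx, fcE]
        show h (M.fc g) = h e
        rw [hh, heg]
      · by_cases hg : x = g
        · rw [hg, fcG M e g (fun h => hx (hg.trans h.symm))]
          exact heg
        · rw [fcO M e g hx hg]
          exact hh x
  · intro x
    show z x = x.elim (h e) h + ((insP M.β e).symm x).elim (h e) h
    rcases x with _ | x
    · rw [insP_symm_none, h0]
      exact (zmod_add_self (h e)).symm
    · by_cases hx : x = M.β e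
      · rw [hx, insP_symm_next]
        have := hzh (M.β e)
        rw [Equiv.symm_apply_apply] at this
        exact this
      · rw [insP_symm_of_ne _ _ hx]
        exact hzh x

lemma planar (hBasic : S_Basic) (hfp : M.fp.SameCycle e g) (hM : M.Planar) :
    (M.chord e g).Planar := by
  classical
  intro z hz
  by_cases h0 : z none = 0
  · exact case0 M e g hfp hM z hz h0
  · have h1 : z none = 1 := by
      have : ∀ a : ZMod 2, a ≠ 0 → a = 1 := by decide
      exact this _ h0
    obtain ⟨S, hS, heS, hnS⟩ := split (insP M.fp g) (some e) none (by simp)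
      ((insP_sameCycle_none M.fp g e).2 hfp.symm)
    have hSfc : ∀ x, (M.chord e g).fc x ∈ S ↔ x ∈ S := by
      intro x
      constructor
      · intro hx
        refine SameCycle.mem_closed (σ := (M.chord e g).fp) (x := (M.chord e g).fp x) (S := S)
          ?_ ?_ hx
        · exact Perm.sameCycle_apply_left.2 (Perm.SameCycle.refl _ _)
        · intro y hy
          rw [fp_eq]
          exact hS y hy
      · intro hx
        have := hS x hx
        rw [← fp_eq] at this
        exact this
    let h₀ : Option E → ZMod 2 := fun x => if x ∈ S then 1 else 0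
    have hh₀ : ∀ x, h₀ ((M.chord e g).fc x) = h₀ x := by
      intro x
      simp only [h₀, hSfc]
    have hz₀ := (hBasic (Option E) B W (M.chord e g)).1 h₀ hh₀
    have hsum : (M.chord e g).Cyc
        (fun x => z x + (h₀ x + h₀ ((M.chord e g).β.symm x))) := by
      constructor
      · intro b
        have h2 := hz.1 b
        have h3 := hz₀.1 b
        have h4 := congrArg₂ (· + ·) h2 h3
        simp only [← Finset.sum_add_distrib, add_zero] at h4
        refine Eq.trans (Finset.sum_congr rfl ?_) h4
        intro x _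
        by_cases hx : (M.chord e g).bl x = b
        · rw [if_pos hx, if_pos hx, if_pos hx]
        · rw [if_neg hx, if_neg hx, if_neg hx, add_zero]
      · intro w
        have h2 := hz.2 w
        have h3 := hz₀.2 w
        have h4 := congrArg₂ (· + ·) h2 h3
        simp only [← Finset.sum_add_distrib, add_zero] at h4
        refine Eq.trans (Finset.sum_congr rfl ?_) h4
        intro x _
        by_cases hx : (M.chord e g).wh x = w
        · rw [if_pos hx, if_pos hx, if_pos hx]
        · rw [if_neg hx, if_neg hx, if_neg hx, add_zero]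
    obtain ⟨h, hh, hzh⟩ := case0 M e g hfp hM _ hsum (by
      show z none + (h₀ none + h₀ ((insP M.β e).symm none)) = 0
      rw [insP_symm_none, h1]
      simp only [h₀, if_neg hnS, if_pos heS]
      decide)
    refine ⟨fun x => h x + h₀ x, ?_, ?_⟩
    · intro x
      show h _ + h₀ _ = h x + h₀ x
      rw [hh, hh₀]
    · intro x
      have h5 := hzh x
      show z x = (h x + h₀ x) + (h _ + h₀ _)
      have h6 : ∀ a b c d f : ZMod 2, a + (b + c) = d + f → a = (d + b) + (f + c) := by decide
      exact h6 _ _ _ _ _ h5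

end ChordPlanarAux

open ChordPlanarAux in
theorem ChordPlanar (hBasic : S_Basic) : S_ChordPlanar := by
  intro E B W _ _ _ _ M e g hfp
  refine ⟨planar M e g hBasic hfp, ?_, ?_, ?_⟩
  · intro hS hne x y hxy hxy'
    rcases x with _ | x <;> rcases y with _ | y
    · rfl
    · exact absurd ⟨hxy.symm, hxy'.symm⟩ (hne y)
    · exact absurd ⟨hxy, hxy'⟩ (hne x)
    · rw [hS x y hxy hxy']
  · intro hC S hSn hS
    have hen : some e ∈ S ↔ none ∈ S :=
      ⟨fun h => hS _ h none (Or.inl rfl), fun h => hS _ h (some e) (Or.inl rfl)⟩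
    have h1 : {y : E | some y ∈ S}.Nonempty := by
      obtain ⟨x, hx⟩ := hSn
      rcases x with _ | x
      · exact ⟨e, hen.2 hx⟩
      · exact ⟨x, hx⟩
    have h2 := hC {y : E | some y ∈ S} h1 (fun x hx y hxy => hS (some x) hx (some y) hxy)
    have h3 : ∀ y : E, some y ∈ S := fun y => by
      have : y ∈ {y : E | some y ∈ S} := by rw [h2]; trivial
      exact this
    apply Set.eq_univ_of_forall
    rintro (_ | x)
    · exact hen.1 (h3 e)
    · exact h3 x
  · unfold BMap.nv
    congr 2
    · ext b
      simp only [Finset.mem_image, Finset.mem_univ, true_and]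
      constructor
      · rintro ⟨x, hx⟩
        rcases x with _ | x
        · exact ⟨e, hx⟩
        · exact ⟨x, hx⟩
      · rintro ⟨x, hx⟩
        exact ⟨some x, hx⟩
    · ext b
      simp only [Finset.mem_image, Finset.mem_univ, true_and]
      constructor
      · rintro ⟨x, hx⟩
        rcases x with _ | x
        · exact ⟨M.β g, hx⟩
        · exact ⟨x, hx⟩
      · rintro ⟨x, hx⟩
        exact ⟨some x, hx⟩

end PanD
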