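import Pool.Agent.Lib.MP_e6972d_co.Spec

/-!
# Good positions for the map with a chord are good for the map
-/

set_option autoImplicit false

namespace PanD

open Equiv Finset

namespace ChordTAux

theorem pot {E B W : Type} [DecidableEq E] [Finite E] (M : BMap E B W) (e g : E)
    (P : B → W → Prop)
    (h : (M.chord e g).Pot (fun x => P ((M.chord e g).bl x) ((M.chord e g).wh x))) :
    M.Pot (fun x => P (M.bl x) (M.wh x)) := by
  intro c
  obtain ⟨tb, tw, ht⟩ := h (fun x => x.elim 0 c)
  exact ⟨tb, tw, fun x hx => ht (some x) hx⟩

end ChordTAux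

open ChordTAux in
theorem ChordT : S_ChordT := by
  intro E B W _ _ _ _ M e g r ⟨pb, pw, hG⟩
  refine ⟨pb, pw, ?_⟩
  refine
    { injb := hG.injb
      injw := hG.injw
      ne := hG.ne
      pot1 := pot M e g (fun b w => pb b < pw w) hG.pot1
      pot2 := pot M e g (fun b w => pw w < pb b) hG.pot2
      firstb := hG.firstb
      firstw := hG.firstw
      rot := ?_ }
  intro x hx hxr
  by_cases hxe : x = e
  · subst hxe
    have h1 : (M.chord x g).β (some x) = none := insP_self M.β x
    have h2 : (M.chord x g).β none = some (M.β x) := insP_none M.β x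
    have h3 := hG.rot (some x) hx (by rw [h1]; exact (Option.some_ne_none r).symm)
    have h4 := hG.rot none hx (by
      rw [h2]
      intro h
      exact hxr (Option.some.inj h))
    rw [h1] at h3
    rw [h2] at h4
    exact h3.trans h4
  · have h1 : (M.chord e g).β (some x) = some (M.β x) := insP_of_ne M.β e hxe
    have h2 := hG.rot (some x) hx (by
      rw [h1]
      intro h
      exact hxr (Option.some.inj h))
    rw [h1] at h2
    exact h2

end PanD
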