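import Mathlib

/-!
# Permutation lemmas for combinatorial maps
-/

namespace PanD

open Equiv

variable {α : Type*}

/-- Deleting the point `d`: the permutation `σ` short-cut past `d`. -/
def delP [DecidableEq α] (σ : Perm α) (d : α) : Perm {x : α // x ≠ d} :=
  (Equiv.swap d (σ d) * σ).subtypePerm (by
    intro x
    have h1 : (Equiv.swap d (σ d) * σ) d = d := by simp
    constructor
    · intro h hx
      apply h
      rw [hx, h1]
    · intro h hx
      apply h
      exact (Equiv.swap d (σ d) * σ).injective (hx.trans h1.symm))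

theorem delP_val [DecidableEq α] (σ : Perm α) (d : α) (x : {x : α // x ≠ d}) :
    ((delP σ d x : {x : α // x ≠ d}) : α) = if σ x = d then σ d else σ x := by
  have h0 : ((delP σ d x : {x : α // x ≠ d}) : α) = Equiv.swap d (σ d) (σ x) := rfl
  rw [h0]
  split_ifs with h
  · rw [h]; simp
  · apply Equiv.swap_apply_of_ne_of_ne h
    intro h2
    exact x.2 (σ.injective h2)

theorem delP_of_ne [DecidableEq α] (σ : Perm α) (d : α) (x : {x : α // x ≠ d}) (h : σ x ≠ d) :
    ((delP σ d x : {x : α // x ≠ d}) : α) = σ x := by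
  rw [delP_val, if_neg h]

theorem delP_of_eq [DecidableEq α] (σ : Perm α) (d : α) (x : {x : α // x ≠ d}) (h : σ x = d) :
    ((delP σ d x : {x : α // x ≠ d}) : α) = σ d := by
  rw [delP_val, if_pos h]

/-- Inserting a new point `none` right after `e`. -/
def insP [DecidableEq α] (σ : Perm α) (e : α) : Perm (Option α) :=
  (Equiv.optionCongr σ) * Equiv.swap (some e) none

theorem insP_self [DecidableEq α] (σ : Perm α) (e : α) : insP σ e (some e) = none := by
  simp [insP]

theorem insP_none [DecidableEq α] (σ : Perm α) (e : α) : insP σ e none = some (σ e) := by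
  simp [insP]

theorem insP_of_ne [DecidableEq α] (σ : Perm α) (e : α) {x : α} (h : x ≠ e) :
    insP σ e (some x) = some (σ x) := by
  have h1 : Equiv.swap (some e) none (some x) = some x :=
    Equiv.swap_apply_of_ne_of_ne (by simpa using h) (by simp)
  simp [insP, Perm.mul_apply, h1]

theorem insP_symm_none [DecidableEq α] (σ : Perm α) (e : α) : (insP σ e).symm none = some e := by
  rw [Equiv.symm_apply_eq, insP_self]

theorem insP_symm_next [DecidableEq α] (σ : Perm α) (e : α) :
    (insP σ e).symm (some (σ e)) = none := by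
  rw [Equiv.symm_apply_eq, insP_none]

theorem insP_symm_of_ne [DecidableEq α] (σ : Perm α) (e : α) {x : α} (h : x ≠ σ e) :
    (insP σ e).symm (some x) = some (σ.symm x) := by
  rw [Equiv.symm_apply_eq, insP_of_ne]
  · simp
  · intro h2
    apply h
    rw [← h2]; simp

/-- On a finite type the cycle of `x` is the least `σ`-closed set containing `x`. -/
theorem sameCycle_of_closed [Finite α] {σ : Perm α} {x y : α}
    (h : ∀ S : Set α, (∀ z ∈ S, σ z ∈ S) → x ∈ S → y ∈ S) : σ.SameCycle x y := by
  have := h {z | σ.SameCycle x z} (fun z hz => by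
    exact (Perm.sameCycle_apply_right).2 hz) (Perm.SameCycle.refl σ x)
  exact this

theorem SameCycle.mem_closed [Finite α] {σ : Perm α} {x y : α} (h : σ.SameCycle x y)
    {S : Set α} (hS : ∀ z ∈ S, σ z ∈ S) (hx : x ∈ S) : y ∈ S := by
  obtain ⟨n, hn⟩ := h.exists_nat_pow_eq
  have key : ∀ n : ℕ, (σ ^ n) x ∈ S := by
    intro n
    induction n with
    | zero => simpa using hx
    | succ n ih =>
      rw [pow_succ', Perm.mul_apply]
      exact hS _ ih
  rw [← hn]; exact key n

theorem sameCycle_iff_closed [Finite α] {σ : Perm α} {x y : α} :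
    σ.SameCycle x y ↔ ∀ S : Set α, (∀ z ∈ S, σ z ∈ S) → x ∈ S → y ∈ S :=
  ⟨fun h _ hS hx => SameCycle.mem_closed h hS hx, sameCycle_of_closed⟩

/-- A function constant along `σ` is constant on cycles. -/
theorem eq_of_sameCycle {β : Type*} {σ : Perm α} {f : α → β} (hf : ∀ x, f (σ x) = f x) {x y : α}
    (h : σ.SameCycle x y) : f x = f y := by
  obtain ⟨n, hn⟩ := h
  have hp : ∀ (n : ℕ) x, f ((σ ^ n) x) = f x := by
    intro n
    induction n with
    | zero => intro x; simp
    | succ n ih =>
      intro x
      rw [pow_succ', Perm.mul_apply, hf, ih]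
  rcases Int.natAbs_eq n with h | h
  · rw [h] at hn
    rw [← hn, zpow_natCast, hp]
  · rw [h] at hn
    rw [← hn, zpow_neg, zpow_natCast]
    have := hp n.natAbs ((σ ^ n.natAbs)⁻¹ x)
    have h3 : (σ ^ n.natAbs) ((σ ^ n.natAbs)⁻¹ x) = x := by
      rw [← Perm.mul_apply, mul_inv_cancel, Perm.one_apply]
    rw [h3] at this
    exact this

theorem delP_sameCycle [DecidableEq α] [Finite α] (σ : Perm α) (d : α) (x y : {x : α // x ≠ d}) :
    (delP σ d).SameCycle x y ↔ σ.SameCycle (x : α) (y : α) := by
  constructor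
  · intro h
    refine SameCycle.mem_closed (S := {z : {x : α // x ≠ d} | σ.SameCycle (x : α) (z : α)}) h ?_
      (Perm.SameCycle.refl _ _)
    intro z hz
    change σ.SameCycle (x : α) ((delP σ d z : {x : α // x ≠ d}) : α)
    have hz' : σ.SameCycle (x : α) (z : α) := hz
    rw [delP_val]
    split_ifs with h1
    · have h2 : σ.SameCycle (x : α) (σ z) := Perm.sameCycle_apply_right.2 hz'
      rw [h1] at h2
      exact Perm.sameCycle_apply_right.2 h2
    · exact Perm.sameCycle_apply_right.2 hz'
  · intro h
    have key := SameCycle.mem_closed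
      (S := {z : α | (∃ hz : z ≠ d, (delP σ d).SameCycle x ⟨z, hz⟩) ∨
        (z = d ∧ ∃ hz : σ d ≠ d, (delP σ d).SameCycle x ⟨σ d, hz⟩)}) h ?_ ?_
    · rcases key with ⟨_, h1⟩ | ⟨h1, _⟩
      · exact h1
      · exact absurd h1 y.2
    · rintro z (⟨hz, h1⟩ | ⟨hz, hd, h1⟩)
      · by_cases h2 : σ z = d
        · right
          refine ⟨h2, ?_, ?_⟩
          · intro h3
            exact hz (σ.injective (h2.trans h3.symm))
          · have h3 : (delP σ d ⟨z, hz⟩ : {x : α // x ≠ d}) = ⟨σ d, by
                intro h3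
                exact hz (σ.injective (h2.trans h3.symm))⟩ := by
              apply Subtype.ext
              rw [delP_of_eq _ _ _ h2]
            rw [← h3]
            exact Perm.sameCycle_apply_right.2 h1
        · left
          refine ⟨h2, ?_⟩
          have h3 : (delP σ d ⟨z, hz⟩ : {x : α // x ≠ d}) = ⟨σ z, h2⟩ := by
            apply Subtype.ext
            rw [delP_of_ne _ _ _ h2]
          rw [← h3]
          exact Perm.sameCycle_apply_right.2 h1
      · left
        subst hz
        exact ⟨hd, h1⟩
    · left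
      exact ⟨x.2, Perm.SameCycle.refl _ _⟩

theorem insP_sameCycle_some [DecidableEq α] [Finite α] (σ : Perm α) (e : α) (x y : α) :
    (insP σ e).SameCycle (some x) (some y) ↔ σ.SameCycle x y := by
  constructor
  · intro h
    have key := SameCycle.mem_closed
      (S := {z : Option α | (∃ a, z = some a ∧ σ.SameCycle x a) ∨ (z = none ∧ σ.SameCycle x e)})
      h ?_ ?_
    · rcases key with ⟨a, h1, h2⟩ | ⟨h1, _⟩
      · cases h1; exact h2
      · cases h1
    · rintro z (⟨a, rfl, h1⟩ | ⟨rfl, h1⟩)
      · by_cases h2 : a = e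
        · subst h2
          rw [insP_self]
          exact Or.inr ⟨rfl, h1⟩
        · rw [insP_of_ne _ _ h2]
          exact Or.inl ⟨_, rfl, Perm.sameCycle_apply_right.2 h1⟩
      · rw [insP_none]
        exact Or.inl ⟨_, rfl, Perm.sameCycle_apply_right.2 h1⟩
    · exact Or.inl ⟨x, rfl, Perm.SameCycle.refl _ _⟩
  · intro h
    refine SameCycle.mem_closed (S := {z : α | (insP σ e).SameCycle (some x) (some z)}) h ?_
      (Perm.SameCycle.refl _ _)
    intro z hz
    change (insP σ e).SameCycle (some x) (some (σ z))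
    have hz' : (insP σ e).SameCycle (some x) (some z) := hz
    by_cases h2 : z = e
    · subst h2
      have h3 : (insP σ z).SameCycle (some x) none := by
        rw [← insP_self σ z]
        exact Perm.sameCycle_apply_right.2 hz'
      rw [← insP_none σ z]
      exact Perm.sameCycle_apply_right.2 h3
    · rw [← insP_of_ne σ e h2]
      exact Perm.sameCycle_apply_right.2 hz'

theorem insP_sameCycle_none [DecidableEq α] [Finite α] (σ : Perm α) (e : α) (x : α) :
    (insP σ e).SameCycle none (some x) ↔ σ.SameCycle e x := by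
  rw [← insP_sameCycle_some σ e e x, ← insP_self σ e]
  exact Perm.sameCycle_apply_left

/-- Multiplying by a swap of two points in different cycles merges the two cycles. -/
theorem merge_sameCycle [DecidableEq α] [Finite α] (σ : Perm α) (a b : α) (hab : ¬ σ.SameCycle a b)
    (x y : α) :
    (σ * Equiv.swap a b).SameCycle x y ↔
      (σ.SameCycle x y ∨ (σ.SameCycle x a ∧ σ.SameCycle y b) ∨
        (σ.SameCycle x b ∧ σ.SameCycle y a)) := by
  set τ : Perm α := σ * Equiv.swap a b with hτ
  have hne : a ≠ b := fun h => hab (h ▸ Perm.SameCycle.refl _ _)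
  have τa : τ a = σ b := by simp [hτ]
  have τb : τ b = σ a := by simp [hτ]
  have τo : ∀ z, z ≠ a → z ≠ b → τ z = σ z := by
    intro z h1 h2
    simp [hτ, Perm.mul_apply, Equiv.swap_apply_of_ne_of_ne h1 h2]
  -- a and b are in the same cycle of τ
  have hmain : ∀ c d : α, (c = a ∧ d = b) ∨ (c = b ∧ d = a) → ∀ z, σ.SameCycle d z →
      τ.SameCycle c z := by
    intro c d hcd z hz
    have hcd1 : τ c = σ d := by rcases hcd with ⟨rfl, rfl⟩ | ⟨rfl, rfl⟩ <;> assumption
    have hcd2 : ¬ σ.SameCycle d c := by
      rcases hcd with ⟨rfl, rfl⟩ | ⟨rfl, rfl⟩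
      · exact fun h => hab h.symm
      · exact hab
    have hcd3 : τ d = σ c := by rcases hcd with ⟨rfl, rfl⟩ | ⟨rfl, rfl⟩ <;> assumption
    -- walk from σ d
    have key := SameCycle.mem_closed
      (S := {z : α | σ.SameCycle d z ∧ (τ.SameCycle c z)} ∪ {z | ∀ w, σ.SameCycle d w → τ.SameCycle c w})
      (x := σ d) (y := z) (σ := σ) (Perm.sameCycle_apply_left.2 hz) ?_ ?_
    · rcases key with h | h
      · exact h.2
      · exact h z hz
    · rintro w (⟨h1, h2⟩ | h1)
      · by_cases hw : w = d
        · -- all points of the cycle reached?  handled below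
          subst hw
          left
          refine ⟨Perm.sameCycle_apply_right.2 h1, ?_⟩
          rw [← hcd1]
          exact Perm.sameCycle_apply_right.2 (Perm.SameCycle.refl _ _)
        · left
          refine ⟨Perm.sameCycle_apply_right.2 h1, ?_⟩
          have hwc : w ≠ c := fun h => hcd2 (h ▸ h1)
          have : τ w = σ w := by
            rcases hcd with ⟨rfl, rfl⟩ | ⟨rfl, rfl⟩
            · exact τo w hwc hw
            · exact τo w hw hwc
          rw [← this]
          exact Perm.sameCycle_apply_right.2 h2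
      · right; exact h1
    · left
      refine ⟨Perm.sameCycle_apply_right.2 (Perm.SameCycle.refl _ _), ?_⟩
      rw [← hcd1]
      exact Perm.sameCycle_apply_right.2 (Perm.SameCycle.refl _ _)
  have hab' : τ.SameCycle a b := hmain a b (Or.inl ⟨rfl, rfl⟩) b (Perm.SameCycle.refl _ _)
  have hA : ∀ z, σ.SameCycle a z → τ.SameCycle a z := fun z hz =>
    hab'.trans (hmain b a (Or.inr ⟨rfl, rfl⟩) z hz)
  have hB : ∀ z, σ.SameCycle b z → τ.SameCycle a z := fun z hz =>
    hmain a b (Or.inl ⟨rfl, rfl⟩) z hz
  constructor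
  · intro h
    refine SameCycle.mem_closed (S := {z | σ.SameCycle x z ∨ (σ.SameCycle x a ∧ σ.SameCycle z b) ∨
        (σ.SameCycle x b ∧ σ.SameCycle z a)}) h ?_ (Or.inl (Perm.SameCycle.refl _ _))
    intro z hz
    by_cases h1 : z = a
    · subst h1
      rw [τa]
      change σ.SameCycle x (σ b) ∨ (σ.SameCycle x z ∧ σ.SameCycle (σ b) b) ∨
        (σ.SameCycle x b ∧ σ.SameCycle (σ b) z)
      rcases hz with h2 | ⟨_, h3⟩ | ⟨h2, _⟩
      · right; left
        exact ⟨h2, Perm.sameCycle_apply_left.2 (Perm.SameCycle.refl _ _)⟩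
      · exact absurd h3 hab
      · left
        exact Perm.sameCycle_apply_right.2 h2
    · by_cases h1b : z = b
      · subst h1b
        rw [τb]
        change σ.SameCycle x (σ a) ∨ (σ.SameCycle x a ∧ σ.SameCycle (σ a) z) ∨
          (σ.SameCycle x z ∧ σ.SameCycle (σ a) a)
        rcases hz with h2 | ⟨h2, _⟩ | ⟨_, h3⟩
        · right; right
          exact ⟨h2, Perm.sameCycle_apply_left.2 (Perm.SameCycle.refl _ _)⟩
        · left
          exact Perm.sameCycle_apply_right.2 h2
        · exact absurd h3.symm hab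
      · rw [τo z h1 h1b]
        rcases hz with h2 | ⟨h2, h3⟩ | ⟨h2, h3⟩
        · left; exact Perm.sameCycle_apply_right.2 h2
        · right; left; exact ⟨h2, Perm.sameCycle_apply_left.2 h3⟩
        · right; right; exact ⟨h2, Perm.sameCycle_apply_left.2 h3⟩
  · rintro (h | ⟨h1, h2⟩ | ⟨h1, h2⟩)
    · by_cases h1 : σ.SameCycle a x
      · exact (hA x h1).symm.trans (hA y (h1.trans h))
      · by_cases h2 : σ.SameCycle b x
        · exact (hB x h2).symm.trans (hB y (h2.trans h))
        · refine (SameCycle.mem_closed (S := {z | σ.SameCycle x z ∧ τ.SameCycle x z}) h ?_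
            ⟨Perm.SameCycle.refl _ _, Perm.SameCycle.refl _ _⟩).2
          rintro z ⟨h3, h4⟩
          refine ⟨Perm.sameCycle_apply_right.2 h3, ?_⟩
          have : τ z = σ z := τo z (fun h => h1 (h ▸ h3.symm)) (fun h => h2 (h ▸ h3.symm))
          rw [← this]
          exact Perm.sameCycle_apply_right.2 h4
    · exact (hA x h1.symm).symm.trans (hB y h2.symm)
    · exact (hB x h1.symm).symm.trans (hA y h2.symm)

end PanD
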