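import Pool.Agent.Lib.MP_e6972d_co.Spec

/-!
# The crossing lemma for faces of a planar bipartite map
-/

namespace PanD

open Equiv Finset

namespace CrossAux

variable {E B W : Type}

theorem bl_beta (M : BMap E B W) (x : E) : M.bl (M.β x) = M.bl x :=
  (M.hb _ _).2 (Perm.sameCycle_apply_left.2 (Perm.SameCycle.refl _ _))

theorem wh_omega (M : BMap E B W) (x : E) : M.wh (M.ω x) = M.wh x :=
  (M.hw _ _).2 (Perm.sameCycle_apply_left.2 (Perm.SameCycle.refl _ _))

/-- the sum of an indicator of one edge over the edges with a given end -/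
theorem sum_single [Fintype E] [DecidableEq E] {V : Type} [DecidableEq V] (f : E → V) (a : E)
    (b : V) : ∑ x, (if f x = b then (if x = a then (1 : ZMod 2) else 0) else 0) =
      if f a = b then 1 else 0 := by
  rw [Finset.sum_eq_single a]
  · simp
  · intro x _ hx
    simp [hx]
  · intro h
    exact absurd (Finset.mem_univ _) h

theorem sum_four [Fintype E] [DecidableEq E] {V : Type} [DecidableEq V] (f : E → V)
    (a₁ a₂ a₃ a₄ : E) (b : V) :
    ∑ x, (if f x = b then ((if x = a₁ then (1 : ZMod 2) else 0) + (if x = a₂ then 1 else 0) +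
      (if x = a₃ then 1 else 0) + (if x = a₄ then 1 else 0)) else 0) =
      (if f a₁ = b then 1 else 0) + (if f a₂ = b then 1 else 0) + (if f a₃ = b then 1 else 0) +
        (if f a₄ = b then 1 else 0) := by
  rw [← sum_single f a₁ b, ← sum_single f a₂ b, ← sum_single f a₃ b, ← sum_single f a₄ b,
    ← Finset.sum_add_distrib, ← Finset.sum_add_distrib, ← Finset.sum_add_distrib]
  apply Finset.sum_congr rfl
  intro x _
  by_cases h : f x = b
  · simp only [if_pos h]
  · simp only [if_neg h, add_zero]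

theorem two (a : ZMod 2) : a + a = 0 := CharTwo.add_self_eq_zero a

theorem solve {a b c : ZMod 2} (h : c = a + b) : b = c + a := by
  rw [h, add_comm a b, add_assoc, two, add_zero]

end CrossAux

open CrossAux in
theorem Cross : S_Cross := by
  intro E B W _ _ _ _ M hS hP e x₁ x₂ h01 ha h12 hx1b hx1w hx2b hx2w
  by_contra hne
  have hw1 : M.wh (M.fc e) = M.wh (M.β e) := wh_omega M (M.β e)
  have hw2 : M.wh (M.fc (M.fc e)) = M.wh (M.β (M.fc e)) := wh_omega M (M.β (M.fc e))
  have hb0 : M.bl (M.β e) = M.bl e := bl_beta M e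
  have hb1 : M.bl (M.β (M.fc e)) = M.bl (M.fc e) := bl_beta M (M.fc e)
  -- the cycle
  let z : E → ZMod 2 := fun x => (if x = M.β e then (1 : ZMod 2) else 0) +
    (if x = M.fc e then 1 else 0) + (if x = M.β (M.fc e) then 1 else 0) +
      (if x = x₁ then 1 else 0)
  have hz : M.Cyc z := by
    constructor
    · intro b
      have h1 := sum_four M.bl (M.β e) (M.fc e) (M.β (M.fc e)) x₁ b
      refine h1.trans ?_
      rw [hb0, hb1, hx1b]
      generalize (if M.bl e = b then (1 : ZMod 2) else 0) = p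
      generalize (if M.bl (M.fc e) = b then (1 : ZMod 2) else 0) = q
      have h2 : p + q + q + p = (p + p) + (q + q) := by ring
      rw [h2, two, two, add_zero]
    · intro w
      have h1 := sum_four M.wh (M.β e) (M.fc e) (M.β (M.fc e)) x₁ w
      refine h1.trans ?_
      rw [hw1, hx1w]
      generalize (if M.wh (M.β e) = w then (1 : ZMod 2) else 0) = p
      generalize (if M.wh (M.β (M.fc e)) = w then (1 : ZMod 2) else 0) = q
      have h2 : p + p + q + q = (p + p) + (q + q) := by ring
      rw [h2, two, two, add_zero]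
  obtain ⟨h, hfc, hh⟩ := hP z hz
  have hω : ∀ x, h (M.ω x) = z x + h x := by
    intro x
    have h1 : M.fc (M.β.symm x) = M.ω x := by
      show M.ω (M.β (M.β.symm x)) = M.ω x
      rw [Equiv.apply_symm_apply]
    have h2 : h (M.ω x) = h (M.β.symm x) := by rw [← h1, hfc]
    rw [h2]
    exact solve (hh x)
  -- distinctness
  have d1 : M.β e ≠ M.fc e := fun h1 => h01 (by rw [← hb0, h1])
  have d2 : M.β e ≠ M.β (M.fc e) := fun h1 => ha (by rw [h1])
  have d3 : M.β e ≠ x₁ := fun h1 => ha (by rw [← hx1w, h1])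
  have d4 : M.fc e ≠ M.β (M.fc e) := fun h1 => ha (by rw [← hw1, ← h1])
  have d5 : M.fc e ≠ x₁ := fun h1 => h01 (by rw [h1, hx1b])
  have z1 : z (M.fc e) = 1 := by
    simp only [z, if_neg d1.symm, if_neg d4, if_neg d5, zero_add, add_zero]
    rfl
  have z0 : ∀ y, M.wh y = M.wh (M.β e) → y ≠ M.fc e → y ≠ M.β e → z y = 0 := by
    intro y hy h1 h2
    have h3 : y ≠ M.β (M.fc e) := fun h4 => ha (by rw [← hy, h4])
    have h4 : y ≠ x₁ := fun h5 => ha (by rw [← hy, h5, hx1w])
    simp only [z, if_neg h1, if_neg h2, if_neg h3, if_neg h4, add_zero]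
  have zv : ∀ y, M.bl y = M.bl (M.fc (M.fc e)) → z y = 0 := by
    intro y hy
    have h1 : y ≠ M.β e := fun h5 => hne (by rw [← hy, h5, hb0])
    have h2 : y ≠ M.fc e := fun h5 => h12 (by rw [← hy, h5])
    have h3 : y ≠ M.β (M.fc e) := fun h5 => h12 (by rw [← hy, h5, hb1])
    have h4 : y ≠ x₁ := fun h5 => hne (by rw [← hy, h5, hx1b])
    simp only [z, if_neg h1, if_neg h2, if_neg h3, if_neg h4, add_zero]
  -- around a₀
  have hx2 : x₂ = M.fc e ∨ h x₂ = h e + 1 := by
    have hc : M.ω.SameCycle (M.fc e) x₂ := (M.hw _ _).1 (by rw [hw1, hx2w])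
    have key := SameCycle.mem_closed
      (S := {y | M.wh y = M.wh (M.β e) ∧ (y = M.fc e ∨ h y = h e + 1)}) hc ?_ ?_
    · exact key.2
    · rintro y ⟨hy, h1⟩
      refine ⟨by rw [wh_omega, hy], ?_⟩
      by_cases h2 : y = M.fc e
      · right
        rw [h2, hω, z1, hfc, add_comm]
      · have h3 : h y = h e + 1 := h1.resolve_left h2
        by_cases h4 : y = M.β e
        · left
          rw [h4]
          rfl
        · right
          rw [hω, z0 y hy h2 h4, zero_add, h3]
    · exact ⟨hw1, Or.inl rfl⟩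
  have hx2' : h x₂ = h e + 1 := by
    apply hx2.resolve_left
    intro h1
    apply h12
    rw [← hx2b, h1]
  -- around v₂
  have hx2'' : h x₂ = h e := by
    have hc : M.β.SameCycle (M.fc (M.fc e)) x₂ := (M.hb _ _).1 hx2b.symm
    have key := SameCycle.mem_closed
      (S := {y | M.bl y = M.bl (M.fc (M.fc e)) ∧ h y = h e}) hc ?_ ?_
    · exact key.2
    · rintro y ⟨hy, h1⟩
      have hy' : M.bl (M.β y) = M.bl (M.fc (M.fc e)) := by rw [bl_beta, hy]
      refine ⟨hy', ?_⟩
      have h2 := hh (M.β y)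
      rw [zv _ hy', Equiv.symm_apply_apply] at h2
      have h3 : h (M.β y) = 0 + h y := by
        apply solve
        rw [h2, add_comm]
      rw [h3, zero_add, h1]
    · exact ⟨rfl, by rw [hfc, hfc]⟩
  rw [hx2'] at hx2''
  have h3 : (1 : ZMod 2) = 0 := by
    have := congrArg (fun t => h e + t) hx2''
    simp only [← add_assoc, two, zero_add] at this
    exact this
  exact one_ne_zero h3

end PanD
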