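import Pool.Agent.Lib.MP_e6972d_co.Core

/-!
# Bipartite combinatorial maps, short/long realizations

`BMap E B W`: a bipartite graph with edge set `E`, black vertices in `B`, white vertices in `W`
(isolated vertices are allowed: elements of `B`, `W` without edges), together with a rotation
system: `β` turns the edges around their black end, `ω` around their white end.
The faces are the cycles of `π = ω * β`.
-/

namespace PanD

open Equiv Finset

structure BMap (E B W : Type) where
  β : Perm E
  ω : Perm E
  bl : E → B
  wh : E → W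
  hb : ∀ e f, bl e = bl f ↔ β.SameCycle e f
  hw : ∀ e f, wh e = wh f ↔ ω.SameCycle e f

namespace BMap

variable {E B W : Type}

/-- no parallel edges -/
def Simple (M : BMap E B W) : Prop := ∀ e f, M.bl e = M.bl f → M.wh e = M.wh f → e = f

/-- the face permutation -/
def fc (M : BMap E B W) (e : E) : E := M.ω (M.β e)

/-- the face permutation as a permutation -/
def fp (M : BMap E B W) : Perm E := M.ω * M.β

theorem fp_apply (M : BMap E B W) (e : E) : M.fp e = M.fc e := rfl

/-- mod 2 cycles -/
def Cyc [Fintype E] [DecidableEq B] [DecidableEq W] (M : BMap E B W) (z : E → ZMod 2) : Prop :=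
  (∀ b, ∑ e, (if M.bl e = b then z e else 0) = 0) ∧
    (∀ w, ∑ e, (if M.wh e = w then z e else 0) = 0)

/-- planarity: every mod 2 cycle is a sum of face boundaries -/
def Planar [Fintype E] [DecidableEq B] [DecidableEq W] (M : BMap E B W) : Prop :=
  ∀ z : E → ZMod 2, M.Cyc z →
    ∃ h : E → ZMod 2, (∀ e, h (M.fc e) = h e) ∧ ∀ e, z e = h e + h (M.β.symm e)

/-- connectedness (of the edge set) -/
def Conn (M : BMap E B W) : Prop :=
  ∀ S : Set E, S.Nonempty → (∀ x ∈ S, ∀ y, (M.bl x = M.bl y ∨ M.wh x = M.wh y) → y ∈ S) →
    S = Set.univ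

/-- the number of nonisolated vertices -/
def nv [Fintype E] [DecidableEq B] [DecidableEq W] (M : BMap E B W) : ℕ :=
  (univ.image M.bl).card + (univ.image M.wh).card

/-- every integer labelling of the edges with property `P` comes from potentials (the edges with
property `P` form a forest) -/
def Pot (M : BMap E B W) (P : E → Prop) : Prop :=
  ∀ c : E → ℤ, ∃ (tb : B → ℤ) (tw : W → ℤ), ∀ e, P e → tw (M.wh e) - tb (M.bl e) = c e

/-- positions such that the edges whose black end comes first form a forest and the edges whose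
white end comes first form a forest -/
structure Weak (M : BMap E B W) (pb : B → ℚ) (pw : W → ℚ) : Prop where
  injb : Function.Injective pb
  injw : Function.Injective pw
  ne : ∀ b w, pb b ≠ pw w
  pot1 : M.Pot (fun e => pb (M.bl e) < pw (M.wh e))
  pot2 : M.Pot (fun e => pw (M.wh e) < pb (M.bl e))

/-- the positions are good with respect to the root edge `r`: the black end of `r` is the first
vertex of all, and its neighbours are in increasing order of the rotation, starting from `r` -/
structure Good (M : BMap E B W) (r : E) (pb : B → ℚ) (pw : W → ℚ) : Prop extends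
    Weak M pb pw where
  firstb : ∀ b, b ≠ M.bl r → pb (M.bl r) < pb b
  firstw : ∀ w, pb (M.bl r) < pw w
  rot : ∀ e, M.bl e = M.bl r → M.β e ≠ r → pw (M.wh e) < pw (M.wh (M.β e))

/-- good positions exist -/
def T (M : BMap E B W) (r : E) : Prop := ∃ pb pw, M.Good r pb pw

/-! ### operations -/

/-- delete the edge `d` -/
def del [DecidableEq E] [Finite E] (M : BMap E B W) (d : E) : BMap {x : E // x ≠ d} B W where
  β := delP M.β d
  ω := delP M.ω d
  bl := fun x => M.bl x
  wh := fun x => M.wh x
  hb := fun x y => by rw [delP_sameCycle]; exact M.hb x y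
  hw := fun x y => by rw [delP_sameCycle]; exact M.hw x y

theorem insP_iff {α V : Type} [DecidableEq α] [Finite α] (σ : Perm α) (e : α) (f : α → V)
    (hf : ∀ x y, f x = f y ↔ σ.SameCycle x y) (x y : Option α) :
    (x.elim (f e) f = y.elim (f e) f) ↔ (insP σ e).SameCycle x y := by
  rcases x with _ | x <;> rcases y with _ | y
  · exact ⟨fun _ => Perm.SameCycle.refl _ _, fun _ => rfl⟩
  · simp only [Option.elim]
    rw [insP_sameCycle_none, hf]
  · simp only [Option.elim]
    rw [Perm.sameCycle_comm, insP_sameCycle_none, ← hf]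
    exact eq_comm
  · simp only [Option.elim]
    rw [insP_sameCycle_some, hf]

/-- add a chord `none` from the black corner `(e, β e)` to the white corner `(β g, ω (β g))` -/
def chord [DecidableEq E] [Finite E] (M : BMap E B W) (e g : E) : BMap (Option E) B W where
  β := insP M.β e
  ω := insP M.ω (M.β g)
  bl := fun x => x.elim (M.bl e) M.bl
  wh := fun x => x.elim (M.wh (M.β g)) M.wh
  hb := fun x y => insP_iff M.β e M.bl M.hb x y
  hw := fun x y => insP_iff M.ω (M.β g) M.wh M.hw x y

/-- merge the black vertex `bl e'` into the black vertex `bl e` by exchanging the successors of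
`e`, `e'` -/
def merge [DecidableEq E] [Finite E] [DecidableEq B] (M : BMap E B W) (e e' : E)
    (h : M.bl e ≠ M.bl e') : BMap E B W where
  β := M.β * Equiv.swap e e'
  ω := M.ω
  bl := fun x => if M.bl x = M.bl e' then M.bl e else M.bl x
  wh := M.wh
  hb := fun x y => by
    rw [merge_sameCycle M.β e e' (fun h' => h ((M.hb e e').2 h'))]
    rw [← M.hb, ← M.hb, ← M.hb, ← M.hb, ← M.hb]
    by_cases hx : M.bl x = M.bl e' <;> by_cases hy : M.bl y = M.bl e'
    · rw [if_pos hx, if_pos hy]
      exact ⟨fun _ => Or.inl (hx.trans hy.symm), fun _ => rfl⟩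
    · rw [if_pos hx, if_neg hy]
      constructor
      · intro h1; exact Or.inr (Or.inr ⟨hx, h1.symm⟩)
      · rintro (h1 | ⟨h1, h2⟩ | ⟨h1, h2⟩)
        · exact absurd (h1.symm.trans hx) hy
        · exact absurd h2 hy
        · exact h2.symm
    · rw [if_neg hx, if_pos hy]
      constructor
      · intro h1; exact Or.inr (Or.inl ⟨h1, hy⟩)
      · rintro (h1 | ⟨h1, h2⟩ | ⟨h1, h2⟩)
        · exact absurd (h1.trans hy) hx
        · exact h1
        · exact absurd h1 hx
    · rw [if_neg hx, if_neg hy]
      constructor
      · intro h1; exact Or.inl h1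
      · rintro (h1 | ⟨h1, h2⟩ | ⟨h1, h2⟩)
        · exact h1
        · exact absurd h2 hy
        · exact absurd h1 hx
  hw := M.hw

/-- the map with the colours exchanged (reflected) -/
def dual (M : BMap E B W) : BMap E W B where
  β := M.ω⁻¹
  ω := M.β⁻¹
  bl := M.wh
  wh := M.bl
  hb := fun x y => by rw [Perm.sameCycle_inv]; exact M.hw x y
  hw := fun x y => by rw [Perm.sameCycle_inv]; exact M.hb x y

/-- all edges are at the same black vertex -/
def StarB (M : BMap E B W) : Prop := ∀ e f, M.bl e = M.bl f

/-- all edges are at the same white vertex -/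
def StarW (M : BMap E B W) : Prop := ∀ e f, M.wh e = M.wh f

/-- no chord can be added: black and white vertices of the same face are adjacent -/
def ChordMax (M : BMap E B W) : Prop :=
  ∀ e g, M.fp.SameCycle e g → ∃ x, M.bl x = M.bl e ∧ M.wh x = M.wh (M.β g)

/-- all faces are quadrangles, no leaves -/
structure Quad (M : BMap E B W) : Prop where
  sq : ∀ e, M.fc (M.fc e) = e
  nb : ∀ e, M.β e ≠ e
  nw : ∀ e, M.ω e ≠ e

end BMap

/-- a rotation system of a graph, acting on the darts, whose faces generate the mod 2 cycle space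
(such a rotation system exists if and only if the graph is planar) -/
def IsPlanar {V : Type} [Fintype V] (G : SimpleGraph V) : Prop :=
  ∃ σ : Perm G.Dart, (∀ d d' : G.Dart, d.fst = d'.fst ↔ σ.SameCycle d d') ∧
    ∀ z : G.Dart → ZMod 2, (∀ d, z d.symm = z d) → (∀ v, ∑ᶠ d ∈ {d : G.Dart | d.fst = v}, z d = 0) →
      ∃ h : G.Dart → ZMod 2, (∀ d, h (σ d.symm) = h d) ∧ ∀ d, z d = h d + h d.symm

/-- `G` is pandichotomous in the plane: for every set `S` of short edges there is a geometric
realization -/
def Pandichotomous {V : Type} (G : SimpleGraph V) : Prop :=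
  ∀ S : Set (Sym2 V), ∃ p : V → EuclideanSpace ℝ (Fin 2), Function.Injective p ∧
    ∃ δ : ℝ, 0 < δ ∧ ∀ u v, G.Adj u v → (s(u, v) ∈ S ↔ dist (p u) (p v) ≤ δ)

end PanD
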