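import Pool.Agent.Lib.MP_e6972d_co.Spec

/-!
# Deleting an edge preserves planarity and simplicity
-/

namespace PanD

open Equiv Finset

namespace DelPlanarAux

variable {E B W : Type}

theorem sum_del [Fintype E] [DecidableEq E] (d : E) (F : E → ZMod 2) (hF : F d = 0) :
    ∑ e, F e = ∑ x : {x : E // x ≠ d}, F x := by
  have h := Fintype.sum_subtype_add_sum_subtype (fun x : E => x ≠ d) F
  rw [← h]
  have h2 : ∑ i : {x : E // ¬ x ≠ d}, F i = 0 := by
    apply Finset.sum_eq_zero
    rintro ⟨x, hx⟩ _
    have : x = d := by simpa using hx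
    subst this
    exact hF
  rw [h2, add_zero]

theorem cyc_ext [Fintype E] [DecidableEq E] [DecidableEq B] [DecidableEq W] (M : BMap E B W)
    (d : E) (z : {x : E // x ≠ d} → ZMod 2) (hz : (M.del d).Cyc z) :
    M.Cyc (fun x => if h : x ≠ d then z ⟨x, h⟩ else 0) := by
  constructor
  · intro b
    rw [sum_del d _ (by simp)]
    refine Eq.trans ?_ (hz.1 b)
    refine Finset.sum_congr rfl fun x _ => ?_
    have h1 : (M.del d).bl x = M.bl (x : E) := rfl
    rw [h1]
    have h2 : (fun x : E => if h : x ≠ d then z ⟨x, h⟩ else 0) (x : E) = z x := dif_pos x.2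
    rw [h2]
  · intro w
    rw [sum_del d _ (by simp)]
    refine Eq.trans ?_ (hz.2 w)
    refine Finset.sum_congr rfl fun x _ => ?_
    have h1 : (M.del d).wh x = M.wh (x : E) := rfl
    rw [h1]
    have h2 : (fun x : E => if h : x ≠ d then z ⟨x, h⟩ else 0) (x : E) = z x := dif_pos x.2
    rw [h2]

theorem planar [Fintype E] [DecidableEq E] [DecidableEq B] [DecidableEq W] (M : BMap E B W)
    (d : E) (hM : M.Planar) : (M.del d).Planar := by
  intro z hz
  obtain ⟨h, hf, hzz⟩ := hM _ (cyc_ext M d z hz)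
  have hd : h d = h (M.β.symm d) := by
    have h1 := hzz d
    rw [dif_neg (by simp)] at h1
    have h2 : h d + h (M.β.symm d) = 0 := h1.symm
    exact CharTwo.add_eq_zero.1 h2
  have hω : h (M.ω d) = h d := by
    have h1 := hf (M.β.symm d)
    unfold BMap.fc at h1
    rw [Equiv.apply_symm_apply] at h1
    rw [h1, hd]
  have hω' : ∀ y : {x : E // x ≠ d}, h ((delP M.ω d y : {x : E // x ≠ d}) : E) = h (M.ω y) := by
    intro y
    rw [delP_val]
    split_ifs with h1
    · rw [hω, h1]
    · rfl
  refine ⟨fun x => h x, ?_, ?_⟩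
  · intro x
    have e1 : ((M.del d).fc x : {x : E // x ≠ d}) = delP M.ω d (delP M.β d x) := rfl
    rw [e1]
    show h ((delP M.ω d (delP M.β d x) : {x : E // x ≠ d}) : E) = h x
    rw [hω']
    rw [delP_val]
    split_ifs with h1
    · -- `β x = d`
      have h2 : h (M.ω (M.β d)) = h d := hf d
      have h3 : (x : E) = M.β.symm d := (Equiv.eq_symm_apply M.β).2 h1
      rw [h2, h3, hd]
    · exact hf x
  · intro x
    have h1 := hzz x
    rw [dif_pos x.2] at h1
    have h2 : z x = h x + h (M.β.symm x) := h1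
    rw [h2]
    have key : h (M.β.symm x) = h (((M.del d).β.symm x : {x : E // x ≠ d}) : E) := by
      have e1 : (M.del d).β.symm x = (delP M.β d).symm x := rfl
      rw [e1]
      obtain ⟨y, hy⟩ : ∃ y, y = (delP M.β d).symm x := ⟨_, rfl⟩
      rw [← hy]
      have h3 : delP M.β d y = x := by rw [hy, Equiv.apply_symm_apply]
      have h4 := delP_val M.β d y
      rw [h3] at h4
      split_ifs at h4 with h5
      · have h6 : (y : E) = M.β.symm d := (Equiv.eq_symm_apply M.β).2 h5
        rw [h4, Equiv.symm_apply_apply, h6, hd]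
      · rw [h4, Equiv.symm_apply_apply]
    rw [key]

end DelPlanarAux

theorem DelPlanar : S_DelPlanar := by
  intro E B W _ _ _ _ M d
  refine ⟨DelPlanarAux.planar M d, fun hS x y h1 h2 => ?_⟩
  exact Subtype.ext (hS x y h1 h2)

end PanD
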