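import Pool.Agent.Lib.MP_e6972d_co.Spec

/-!
# Disconn: good positions for disconnected maps
-/

namespace PanD

open Equiv Finset

namespace DisconnAux

variable {E B W : Type}

/-- closed under sharing an end -/
def Cl (M : BMap E B W) (S : Set E) : Prop :=
  ∀ x ∈ S, ∀ y, (M.bl x = M.bl y ∨ M.wh x = M.wh y) → y ∈ S

theorem bl_β (M : BMap E B W) (x : E) : M.bl (M.β x) = M.bl x :=
  ((M.hb x (M.β x)).2 ((Perm.sameCycle_apply_right).2 (Perm.SameCycle.refl _ _))).symm

theorem wh_ω (M : BMap E B W) (x : E) : M.wh (M.ω x) = M.wh x :=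
  ((M.hw x (M.ω x)).2 ((Perm.sameCycle_apply_right).2 (Perm.SameCycle.refl _ _))).symm

theorem Cl.β_iff {M : BMap E B W} {S : Set E} (h : Cl M S) (x : E) : M.β x ∈ S ↔ x ∈ S :=
  ⟨fun hx => h _ hx x (Or.inl (bl_β M x)), fun hx => h _ hx _ (Or.inl (bl_β M x).symm)⟩

theorem Cl.ω_iff {M : BMap E B W} {S : Set E} (h : Cl M S) (x : E) : M.ω x ∈ S ↔ x ∈ S :=
  ⟨fun hx => h _ hx x (Or.inr (wh_ω M x)), fun hx => h _ hx _ (Or.inr (wh_ω M x).symm)⟩

theorem Cl.compl {M : BMap E B W} {S : Set E} (h : Cl M S) : Cl M Sᶜ := by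
  intro x hx y hy hyS
  exact hx (h y hyS x (hy.imp Eq.symm Eq.symm))

/-- the restriction of a map to a closed set of edges -/
def restr (M : BMap E B W) (S : Set E) (h : Cl M S) : BMap {x : E // x ∈ S} B W where
  β := M.β.subtypePerm h.β_iff
  ω := M.ω.subtypePerm h.ω_iff
  bl := fun x => M.bl x
  wh := fun x => M.wh x
  hb := fun x y => by rw [Perm.sameCycle_subtypePerm]; exact M.hb x y
  hw := fun x y => by rw [Perm.sameCycle_subtypePerm]; exact M.hw x y

theorem restr_fc (M : BMap E B W) (S : Set E) (h : Cl M S) (x : {x : E // x ∈ S}) :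
    (((restr M S h).fc x : {x : E // x ∈ S}) : E) = M.fc x := rfl

theorem restr_β_symm (M : BMap E B W) (S : Set E) (h : Cl M S) (x : {x : E // x ∈ S}) :
    (((restr M S h).β.symm x : {x : E // x ∈ S}) : E) = M.β.symm x := by
  apply M.β.injective
  rw [Equiv.apply_symm_apply]
  exact congrArg Subtype.val ((restr M S h).β.apply_symm_apply x)

theorem restr_simple {M : BMap E B W} (S : Set E) (h : Cl M S) (hM : M.Simple) :
    (restr M S h).Simple := fun _ _ h1 h2 => Subtype.ext (hM _ _ h1 h2)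

theorem sum_ext [Fintype E] [DecidableEq E] (S : Set E) [DecidablePred (· ∈ S)]
    (z : {x : E // x ∈ S} → ZMod 2) (p : E → Prop) [DecidablePred p] :
    ∑ e, (if p e then (if h : e ∈ S then z ⟨e, h⟩ else 0) else 0) =
      ∑ e : {x : E // x ∈ S}, if p e then z e else 0 := by
  rw [← Fintype.sum_subtype_add_sum_subtype (fun e => e ∈ S)]
  have h1 : ∑ i : {x : E // ¬ x ∈ S}, (if p i then (if h : (i : E) ∈ S then z ⟨i, h⟩ else 0)
      else 0) = 0 := by
    apply Finset.sum_eq_zero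
    intro i _
    rw [dif_neg i.2]
    split_ifs <;> rfl
  rw [h1, add_zero]
  apply Finset.sum_congr rfl
  intro i _
  rw [dif_pos i.2]

theorem restr_planar [Fintype E] [DecidableEq E] [DecidableEq B] [DecidableEq W]
    {M : BMap E B W} (S : Set E) [DecidablePred (· ∈ S)] (h : Cl M S) (hM : M.Planar) :
    (restr M S h).Planar := by
  intro z hz
  obtain ⟨g, hg1, hg2⟩ := hM (fun e => if h : e ∈ S then z ⟨e, h⟩ else 0) (by
    constructor
    · intro b
      rw [sum_ext S z (fun e => M.bl e = b)]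
      exact hz.1 b
    · intro w
      rw [sum_ext S z (fun e => M.wh e = w)]
      exact hz.2 w)
  refine ⟨fun e => g e, ?_, ?_⟩
  · intro e
    have := hg1 (e : E)
    beta_reduce
    rw [restr_fc]
    exact this
  · intro e
    have := hg2 (e : E)
    rw [dif_pos e.2] at this
    beta_reduce
    rw [restr_β_symm]
    exact this

open Classical in
/-- combination of two functions on the vertices -/
noncomputable def comb {X Y : Type} (A : Set X) (f g : X → Y) (x : X) : Y :=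
  if x ∈ A then f x else g x

theorem comb_pos {X Y : Type} {A : Set X} {f g : X → Y} {x : X} (h : x ∈ A) :
    comb A f g x = f x := if_pos h

theorem comb_neg {X Y : Type} {A : Set X} {f g : X → Y} {x : X} (h : x ∉ A) :
    comb A f g x = g x := if_neg h

/-- the black ends -/
def BS (M : BMap E B W) (S : Set E) : Set B := M.bl '' S

/-- the white ends -/
def WS (M : BMap E B W) (S : Set E) : Set W := M.wh '' S

theorem bl_mem {M : BMap E B W} {S : Set E} {e : E} (he : e ∈ S) : M.bl e ∈ BS M S := ⟨e, he, rfl⟩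

theorem wh_mem {M : BMap E B W} {S : Set E} {e : E} (he : e ∈ S) : M.wh e ∈ WS M S := ⟨e, he, rfl⟩

theorem bl_notMem {M : BMap E B W} {S : Set E} (h : Cl M S) {e : E} (he : e ∉ S) :
    M.bl e ∉ BS M S := by
  rintro ⟨x, hx, hxe⟩
  exact he (h x hx e (Or.inl hxe))

theorem wh_notMem {M : BMap E B W} {S : Set E} (h : Cl M S) {e : E} (he : e ∉ S) :
    M.wh e ∉ WS M S := by
  rintro ⟨x, hx, hxe⟩
  exact he (h x hx e (Or.inr hxe))

theorem pot_comb {M : BMap E B W} {S : Set E} (h : Cl M S) {P : E → Prop}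
    {P₁ : {x : E // x ∈ S} → Prop} {P₂ : {x : E // x ∈ Sᶜ} → Prop}
    (h1 : (restr M S h).Pot P₁) (h2 : (restr M Sᶜ h.compl).Pot P₂)
    (hP1 : ∀ e : {x : E // x ∈ S}, P e → P₁ e) (hP2 : ∀ e : {x : E // x ∈ Sᶜ}, P e → P₂ e) :
    M.Pot P := by
  intro c
  obtain ⟨tb₁, tw₁, ht₁⟩ := h1 (fun e => c e)
  obtain ⟨tb₂, tw₂, ht₂⟩ := h2 (fun e => c e)
  refine ⟨comb (BS M S) tb₁ tb₂, comb (WS M S) tw₁ tw₂, fun e he => ?_⟩
  by_cases heS : e ∈ S
  · rw [comb_pos (wh_mem heS), comb_pos (bl_mem heS)]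
    exact ht₁ ⟨e, heS⟩ (hP1 ⟨e, heS⟩ he)
  · rw [comb_neg (wh_notMem h heS), comb_neg (bl_notMem h heS)]
    exact ht₂ ⟨e, heS⟩ (hP2 ⟨e, heS⟩ he)

theorem exists_bound {X : Type} [Finite X] (f : X → ℚ) : ∃ C : ℚ, ∀ x, |f x| < C := by
  obtain ⟨M, hM⟩ := (Set.finite_range fun x => |f x|).bddAbove
  exact ⟨M + 1, fun x => lt_of_le_of_lt (hM ⟨x, rfl⟩) (lt_add_one M)⟩

theorem weak_comb [Finite B] [Finite W] {M : BMap E B W} {S : Set E} (h : Cl M S)
    (h1 : ∃ pb pw, (restr M S h).Weak pb pw) (h2 : ∃ pb pw, (restr M Sᶜ h.compl).Weak pb pw) :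
    ∃ pb pw, M.Weak pb pw := by
  obtain ⟨pb₁, pw₁, w1⟩ := h1
  obtain ⟨pb₂, pw₂, w2⟩ := h2
  obtain ⟨c1, hc1⟩ := exists_bound pb₁
  obtain ⟨c2, hc2⟩ := exists_bound pw₁
  obtain ⟨c3, hc3⟩ := exists_bound pb₂
  obtain ⟨c4, hc4⟩ := exists_bound pw₂
  obtain ⟨K, hK⟩ : ∃ K : ℚ, K = |c1| + |c2| + |c3| + |c4| := ⟨_, rfl⟩
  have a1 := abs_nonneg c1
  have a2 := abs_nonneg c2
  have a3 := abs_nonneg c3
  have a4 := abs_nonneg c4
  have b1 := le_abs_self c1
  have b2 := le_abs_self c2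
  have b3 := le_abs_self c3
  have b4 := le_abs_self c4
  have k1 : ∀ b b', pb₂ b < pb₁ b' + K := fun b b' => by
    have e1 := abs_lt.1 (hc1 b')
    have e2 := abs_lt.1 (hc3 b)
    linarith [e1.1, e2.2]
  have k2 : ∀ b b', pw₂ b < pw₁ b' + K := fun b b' => by
    have e1 := abs_lt.1 (hc2 b')
    have e2 := abs_lt.1 (hc4 b)
    linarith [e1.1, e2.2]
  have k3 : ∀ b b', pw₂ b < pb₁ b' + K := fun b b' => by
    have e1 := abs_lt.1 (hc1 b')
    have e2 := abs_lt.1 (hc4 b)
    linarith [e1.1, e2.2]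
  have k4 : ∀ b b', pb₂ b < pw₁ b' + K := fun b b' => by
    have e1 := abs_lt.1 (hc2 b')
    have e2 := abs_lt.1 (hc3 b)
    linarith [e1.1, e2.2]
  refine ⟨comb (BS M S) (fun b => pb₁ b + K) pb₂, comb (WS M S) (fun w => pw₁ w + K) pw₂,
    ?_, ?_, ?_, ?_, ?_⟩
  · intro b b' hbb
    by_cases hb : b ∈ BS M S <;> by_cases hb' : b' ∈ BS M S
    · rw [comb_pos hb, comb_pos hb'] at hbb
      exact w1.injb (add_right_cancel hbb)
    · rw [comb_pos hb, comb_neg hb'] at hbb
      exact absurd hbb (k1 _ _).ne'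
    · rw [comb_neg hb, comb_pos hb'] at hbb
      exact absurd hbb (k1 _ _).ne
    · rw [comb_neg hb, comb_neg hb'] at hbb
      exact w2.injb hbb
  · intro b b' hbb
    by_cases hb : b ∈ WS M S <;> by_cases hb' : b' ∈ WS M S
    · rw [comb_pos hb, comb_pos hb'] at hbb
      exact w1.injw (add_right_cancel hbb)
    · rw [comb_pos hb, comb_neg hb'] at hbb
      exact absurd hbb (k2 _ _).ne'
    · rw [comb_neg hb, comb_pos hb'] at hbb
      exact absurd hbb (k2 _ _).ne
    · rw [comb_neg hb, comb_neg hb'] at hbb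
      exact w2.injw hbb
  · intro b w hbb
    by_cases hb : b ∈ BS M S <;> by_cases hb' : w ∈ WS M S
    · rw [comb_pos hb, comb_pos hb'] at hbb
      exact w1.ne b w (add_right_cancel hbb)
    · rw [comb_pos hb, comb_neg hb'] at hbb
      exact absurd hbb (k3 _ _).ne'
    · rw [comb_neg hb, comb_pos hb'] at hbb
      exact absurd hbb (k4 _ _).ne
    · rw [comb_neg hb, comb_neg hb'] at hbb
      exact w2.ne b w hbb
  · refine pot_comb h w1.pot1 w2.pot1 ?_ ?_
    · rintro ⟨e, he⟩ hlt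
      rw [comb_pos (bl_mem he), comb_pos (wh_mem he)] at hlt
      exact lt_of_add_lt_add_right hlt
    · rintro ⟨e, he⟩ hlt
      rw [comb_neg (bl_notMem h he), comb_neg (wh_notMem h he)] at hlt
      exact hlt
  · refine pot_comb h w1.pot2 w2.pot2 ?_ ?_
    · rintro ⟨e, he⟩ hlt
      rw [comb_pos (bl_mem he), comb_pos (wh_mem he)] at hlt
      exact lt_of_add_lt_add_right hlt
    · rintro ⟨e, he⟩ hlt
      rw [comb_neg (bl_notMem h he), comb_neg (wh_notMem h he)] at hlt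
      exact hlt

theorem weak_empty [Finite B] [Finite W] [IsEmpty E] (M : BMap E B W) :
    ∃ pb pw, M.Weak pb pw := by
  obtain ⟨m, ⟨f⟩⟩ := Finite.exists_equiv_fin B
  obtain ⟨k, ⟨g⟩⟩ := Finite.exists_equiv_fin W
  refine ⟨fun b => ((f b : ℕ) : ℚ), fun w => - (((g w : ℕ) : ℚ) + 1), ?_, ?_, ?_, ?_, ?_⟩
  · intro b b' hbb
    have h0 : ((f b : ℕ) : ℚ) = ((f b' : ℕ) : ℚ) := hbb
    have h1 : (f b : ℕ) = (f b' : ℕ) := by exact_mod_cast h0
    exact f.injective (Fin.ext h1)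
  · intro b b' hbb
    have h1 : (g b : ℕ) = (g b' : ℕ) := by
      have : ((g b : ℕ) : ℚ) = ((g b' : ℕ) : ℚ) := by
        have h2 : - (((g b : ℕ) : ℚ) + 1) = - (((g b' : ℕ) : ℚ) + 1) := hbb
        linarith
      exact_mod_cast this
    exact g.injective (Fin.ext h1)
  · intro b w hbb
    have h1 : (0 : ℚ) ≤ ((f b : ℕ) : ℚ) := Nat.cast_nonneg _
    have h2 : (0 : ℚ) ≤ ((g w : ℕ) : ℚ) := Nat.cast_nonneg _
    linarith
  · exact fun c => ⟨0, 0, fun e => isEmptyElim e⟩
  · exact fun c => ⟨0, 0, fun e => isEmptyElim e⟩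

theorem main [Fintype B] [DecidableEq B] [Fintype W] [DecidableEq W] (hMain : S_MainInd) :
    ∀ (n : ℕ) (E : Type) [Fintype E] [DecidableEq E] (M : BMap E B W), Fintype.card E < n →
      M.Simple → M.Planar → ∃ pb pw, M.Weak pb pw := by
  intro n
  induction n with
  | zero => intro E _ _ M h; exact absurd h (Nat.not_lt_zero _)
  | succ n ih =>
    intro E _ _ M hn hs hp
    classical
    rcases isEmpty_or_nonempty E with hE | ⟨⟨r⟩⟩
    · exact weak_empty M
    by_cases hc : M.Conn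
    · obtain ⟨pb, pw, h⟩ := hMain E B W M hs hp hc r
      exact ⟨pb, pw, h.toWeak⟩
    · unfold BMap.Conn at hc
      push Not at hc
      obtain ⟨S, ⟨x, hx⟩, hS, hne⟩ := hc
      have hS' : Cl M S := hS
      obtain ⟨y, hy⟩ := (Set.ne_univ_iff_exists_notMem S).1 hne
      refine weak_comb hS' ?_ ?_
      · refine ih _ _ ?_ (restr_simple S hS' hs) (restr_planar S hS' hp)
        have := Fintype.card_subtype_lt (p := fun x => x ∈ S) hy
        omega
      · refine ih _ _ ?_ (restr_simple Sᶜ hS'.compl hs) (restr_planar Sᶜ hS'.compl hp)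
        have := Fintype.card_subtype_lt (p := fun x => x ∈ Sᶜ) (x := x) (by simpa using hx)
        omega

end DisconnAux

theorem Disconn (hMain : S_MainInd) : S_Disconn := by
  intro E B W _ _ _ _ _ _ M hs hp
  exact DisconnAux.main hMain _ E M (Nat.lt_succ_self _) hs hp

end PanD
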