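import Pool.Agent.Lib.MP_e6972d_co.Defs

/-!
# Euler's formula implies that the faces generate the cycle space
-/

namespace PanD

open Equiv Finset

/-- the face permutation of a rotation system `σ` -/
def facePerm {V : Type} {G : SimpleGraph V} (σ : Perm G.Dart) : Perm G.Dart where
  toFun d := σ d.symm
  invFun d := (σ.symm d).symm
  left_inv d := by simp
  right_inv d := by simp

/-- the number of cycles of a permutation (fixed points are counted) -/
noncomputable def numCycles {α : Type} (σ : Perm α) : ℕ :=
  Nat.card (Quotient (Perm.SameCycle.setoid σ))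

/-- number of connected components with at least one edge -/
noncomputable def numComp {V : Type} (G : SimpleGraph V) : ℕ :=
  {c : G.ConnectedComponent | ∃ v w, G.Adj v w ∧ G.connectedComponentMk v = c}.ncard

/-- Planarity: there is a rotation system (a permutation of the darts whose cycles are the sets of
the darts starting at the same vertex) of genus zero, i.e. with `V + F = E + 2 c`, where `V` is the
number of nonisolated vertices, `E` the number of edges, `F` the number of faces (cycles of
`facePerm`) and `c` the number of components with at least one edge. -/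
def PlanarGraph {V : Type} (G : SimpleGraph V) : Prop :=
  ∃ σ : Perm G.Dart, (∀ d d' : G.Dart, d.fst = d'.fst ↔ σ.SameCycle d d') ∧
    {v | ∃ w, G.Adj v w}.ncard + numCycles (facePerm σ) = G.edgeSet.ncard + 2 * numComp G

namespace EulerAux

abbrev K := ZMod 2

theorem finrank_le_of_const {X C : Type} [Finite X] [Finite C] (q : X → C)
    (Z : Submodule K (X → K)) (h : ∀ f ∈ Z, ∀ x y, q x = q y → f x = f y) :
    Module.finrank K Z ≤ Nat.card C := by
  classical
  haveI := Fintype.ofFinite C
  let L : (X → K) →ₗ[K] (C → K) :=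
    { toFun := fun f c => if h : ∃ x, q x = c then f h.choose else 0
      map_add' := by
        intro f g
        funext c
        by_cases hc : ∃ x, q x = c
        · simp [hc]
        · simp [hc]
      map_smul' := by
        intro a f
        funext c
        by_cases hc : ∃ x, q x = c
        · simp [hc]
        · simp [hc] }
  have hinj : Function.Injective (L ∘ₗ Z.subtype) := by
    rw [← LinearMap.ker_eq_bot, LinearMap.ker_eq_bot']
    rintro ⟨f, hf⟩ h0
    apply Subtype.ext
    funext x
    have h1 := congrFun h0 (q x)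
    have hx : ∃ y, q y = q x := ⟨x, rfl⟩
    have h2 : (L ∘ₗ Z.subtype) ⟨f, hf⟩ (q x) = f hx.choose := by
      show (if h : ∃ y, q y = q x then f h.choose else 0) = _
      rw [dif_pos hx]
    rw [h2] at h1
    have h3 := h f hf _ _ hx.choose_spec
    rw [h3] at h1
    simpa using h1
  have h1 := LinearMap.finrank_le_finrank_of_injective hinj
  rw [Module.finrank_fintype_fun_eq_card] at h1
  rwa [Nat.card_eq_fintype_card]

end EulerAux

open EulerAux in
theorem isPlanar_of_euler {V : Type} [Fintype V] (G : SimpleGraph V) (h : PlanarGraph G) :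
    IsPlanar G := by
  classical
  obtain ⟨σ, hσ, hE⟩ := h
  refine ⟨σ, hσ, ?_⟩
  have hfst : ∀ d, (σ d).fst = d.fst := fun d =>
    (hσ _ _).2 (Perm.sameCycle_apply_left.2 (Perm.SameCycle.refl _ _))
  -- types
  let V' := {v : V // ∃ w, G.Adj v w}
  let F := Quotient (Perm.SameCycle.setoid (facePerm σ))
  let Cc := {c : G.ConnectedComponent // ∃ v w, G.Adj v w ∧ G.connectedComponentMk v = c}
  haveI : Finite F := Quotient.finite _
  haveI : Fintype F := Fintype.ofFinite F
  haveI : Finite G.ConnectedComponent := Quot.finite _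
  haveI : Finite Cc := inferInstance
  have cV : Fintype.card V' = {v | ∃ w, G.Adj v w}.ncard := by
    rw [← Nat.card_eq_fintype_card]
    exact Nat.card_coe_set_eq _
  have cF : Fintype.card F = numCycles (facePerm σ) := by
    rw [← Nat.card_eq_fintype_card]
    rfl
  have cE : Fintype.card G.edgeSet = G.edgeSet.ncard := by
    rw [← Nat.card_eq_fintype_card]
    exact Nat.card_coe_set_eq _
  have cC : Nat.card Cc = numComp G := Nat.card_coe_set_eq _
  -- choice of a dart for every edge
  have hdr : ∀ e : G.edgeSet, ∃ d : G.Dart, d.edge = e.1 := by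
    rintro ⟨e, he⟩
    induction e using Sym2.ind with
    | _ u v =>
      exact ⟨⟨(u, v), he⟩, rfl⟩
  choose dr hdr using hdr
  have hdr2 : ∀ d : G.Dart, dr ⟨d.edge, d.edge_mem⟩ = d ∨ dr ⟨d.edge, d.edge_mem⟩ = d.symm := by
    intro d
    exact (SimpleGraph.dart_edge_eq_iff _ _).1 (hdr ⟨d.edge, d.edge_mem⟩)
  -- the incidence matrix
  let N : Matrix V' G.edgeSet K := fun v e =>
    (if (dr e).fst = v.1 then 1 else 0) + (if (dr e).snd = v.1 then 1 else 0)
  -- kernel of the transpose
  have hker : Module.finrank K (LinearMap.ker N.transpose.mulVecLin) ≤ Nat.card Cc := by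
    refine finrank_le_of_const (fun v : V' => (⟨G.connectedComponentMk v.1, v.1, v.2.choose,
      v.2.choose_spec, rfl⟩ : Cc)) _ ?_
    intro f hf x y hxy
    have hadj : ∀ (u v : V) (hu : ∃ w, G.Adj u w) (hv : ∃ w, G.Adj v w), G.Adj u v →
        f ⟨u, hu⟩ = f ⟨v, hv⟩ := by
      intro u v hu hv huv
      let d : G.Dart := ⟨(u, v), huv⟩
      have h1 := congrFun (LinearMap.mem_ker.1 hf) ⟨d.edge, d.edge_mem⟩
      have h2 : ∀ w : V', N w ⟨d.edge, d.edge_mem⟩ =
          (if w = ⟨u, hu⟩ then 1 else 0) + (if w = ⟨v, hv⟩ then 1 else 0) := by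
        intro w
        have e1 : (w = ⟨u, hu⟩) ↔ (u = w.1) := by
          rw [Subtype.ext_iff]; exact eq_comm
        have e2 : (w = ⟨v, hv⟩) ↔ (v = w.1) := by
          rw [Subtype.ext_iff]; exact eq_comm
        simp only [N, e1, e2]
        rcases hdr2 d with h3 | h3
        · rw [h3]
        · rw [h3, add_comm]
          rfl
      have h3 : (N.transpose.mulVecLin f) ⟨d.edge, d.edge_mem⟩ = f ⟨u, hu⟩ + f ⟨v, hv⟩ := by
        rw [Matrix.mulVecLin_apply, Matrix.mulVec, dotProduct]
        simp only [Matrix.transpose_apply, h2, add_mul, ite_mul, one_mul, zero_mul]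
        rw [Finset.sum_add_distrib, Finset.sum_ite_eq', Finset.sum_ite_eq']
        simp
      rw [h3] at h1
      have h4 : f ⟨u, hu⟩ + f ⟨v, hv⟩ = 0 := h1
      calc f ⟨u, hu⟩ = f ⟨u, hu⟩ + (f ⟨v, hv⟩ + f ⟨v, hv⟩) := by
            rw [CharTwo.add_self_eq_zero, add_zero]
        _ = (f ⟨u, hu⟩ + f ⟨v, hv⟩) + f ⟨v, hv⟩ := by ring
        _ = f ⟨v, hv⟩ := by rw [h4, zero_add]
    have hwalk : ∀ {u v : V} (p : G.Walk u v) (hu : ∃ w, G.Adj u w) (hv : ∃ w, G.Adj v w),
        f ⟨u, hu⟩ = f ⟨v, hv⟩ := by
      intro u v p
      induction p with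
      | nil => intro hu hv; rfl
      | cons h p ih =>
        intro hu hv
        exact (hadj _ _ hu ⟨_, h.symm⟩ h).trans (ih ⟨_, h.symm⟩ hv)
    have hr : G.Reachable x.1 y.1 := by
      have := congrArg Subtype.val hxy
      exact SimpleGraph.ConnectedComponent.exact this
    obtain ⟨p⟩ := hr
    exact hwalk p x.2 y.2
  -- dimension of the cycle space
  have hcyc : Module.finrank K (LinearMap.ker N.mulVecLin) + Fintype.card V' ≤
      Fintype.card G.edgeSet + Nat.card Cc := by
    have h1 := LinearMap.finrank_range_add_finrank_ker N.mulVecLin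
    have h2 := LinearMap.finrank_range_add_finrank_ker N.transpose.mulVecLin
    rw [Module.finrank_fintype_fun_eq_card] at h1 h2
    have h3 : Module.finrank K (LinearMap.range N.transpose.mulVecLin) =
        Module.finrank K (LinearMap.range N.mulVecLin) := Matrix.rank_transpose N
    omega
  -- the boundary map
  let mkF : G.Dart → F := fun d => Quotient.mk _ d
  have hmkF : ∀ d, mkF (σ d.symm) = mkF d := by
    intro d
    apply Quotient.sound
    show (facePerm σ).SameCycle (facePerm σ d) d
    exact Perm.sameCycle_apply_left.2 (Perm.SameCycle.refl _ _)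
  let bd : (F → K) →ₗ[K] (G.edgeSet → K) :=
    { toFun := fun h e => h (mkF (dr e)) + h (mkF (dr e).symm)
      map_add' := by
        intro f g; funext e
        simp only [Pi.add_apply]; ring
      map_smul' := by
        intro a f; funext e
        simp only [Pi.smul_apply, smul_eq_mul, RingHom.id_apply]; ring }
  have hbd : ∀ (h : F → K) (d : G.Dart), bd h ⟨d.edge, d.edge_mem⟩ = h (mkF d) + h (mkF d.symm) := by
    intro h d
    show h (mkF (dr ⟨d.edge, d.edge_mem⟩)) + h (mkF (dr ⟨d.edge, d.edge_mem⟩).symm) = _
    rcases hdr2 d with h3 | h3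
    · rw [h3]
    · rw [h3, SimpleGraph.Dart.symm_symm, add_comm]
  have hkerb : Module.finrank K (LinearMap.ker bd) ≤ Nat.card Cc := by
    let q0 : G.Dart → Cc := fun d => ⟨G.connectedComponentMk d.fst, d.fst, d.snd, d.adj, rfl⟩
    have hq0 : ∀ d, q0 (facePerm σ d) = q0 d := by
      intro d
      apply Subtype.ext
      show G.connectedComponentMk (σ d.symm).fst = G.connectedComponentMk d.fst
      rw [hfst]
      exact SimpleGraph.ConnectedComponent.sound d.adj.symm.reachable
    let q : F → Cc := Quotient.lift q0 (fun d d' hd => by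
      have hd' : (facePerm σ).SameCycle d d' := hd
      exact eq_of_sameCycle hq0 hd')
    refine finrank_le_of_const q _ ?_
    intro f hf
    have hsym : ∀ d : G.Dart, f (mkF d) = f (mkF d.symm) := by
      intro d
      have h1 := congrFun (LinearMap.mem_ker.1 hf) ⟨d.edge, d.edge_mem⟩
      rw [hbd] at h1
      have h4 : f (mkF d) + f (mkF d.symm) = 0 := h1
      calc f (mkF d) = f (mkF d) + (f (mkF d.symm) + f (mkF d.symm)) := by
            rw [CharTwo.add_self_eq_zero, add_zero]
        _ = (f (mkF d) + f (mkF d.symm)) + f (mkF d.symm) := by ring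
        _ = f (mkF d.symm) := by rw [h4, zero_add]
    have hsig : ∀ d : G.Dart, f (mkF (σ d)) = f (mkF d) := by
      intro d
      have h1 := hmkF d.symm
      rw [SimpleGraph.Dart.symm_symm] at h1
      rw [h1]
      exact (hsym d).symm
    have hwalk : ∀ {u v : V} (p : G.Walk u v) (d d' : G.Dart), d.fst = u → d'.fst = v →
        f (mkF d) = f (mkF d') := by
      intro u v p
      induction p with
      | nil =>
        intro d d' h1 h2
        exact eq_of_sameCycle (f := fun d => f (mkF d)) hsig ((hσ d d').1 (h1.trans h2.symm))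
      | @cons u v w h p ih =>
        intro d d' h1 h2
        let e : G.Dart := ⟨(u, v), h⟩
        have h3 : f (mkF d) = f (mkF e) :=
          eq_of_sameCycle (f := fun d => f (mkF d)) hsig ((hσ d e).1 h1)
        rw [h3, hsym e]
        exact ih e.symm d' rfl h2
    intro x y
    induction x using Quotient.inductionOn with
    | _ d =>
      induction y using Quotient.inductionOn with
      | _ d' =>
        intro hxy
        have h1 : G.connectedComponentMk d.fst = G.connectedComponentMk d'.fst :=
          congrArg Subtype.val hxy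
        obtain ⟨p⟩ := SimpleGraph.ConnectedComponent.exact h1
        exact hwalk p d d' rfl rfl
  -- the image of the boundary map
  have hsumdart : ∀ (v : V') (z : G.edgeSet → K),
      N.mulVecLin z v = ∑ d : G.Dart, if d.fst = v.1 then z ⟨d.edge, d.edge_mem⟩ else 0 := by
    intro v z
    rw [Matrix.mulVecLin_apply, Matrix.mulVec, dotProduct]
    have h1 : ∀ d : G.Dart, (if d.fst = v.1 then z ⟨d.edge, d.edge_mem⟩ else 0) =
        ∑ e : G.edgeSet, if e = ⟨d.edge, d.edge_mem⟩ then
          (if d.fst = v.1 then z e else 0) else 0 := by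
      intro d
      rw [Finset.sum_ite_eq']
      simp
    rw [Finset.sum_congr rfl (fun d _ => h1 d), Finset.sum_comm]
    refine Finset.sum_congr rfl fun e _ => ?_
    have h2 : ∀ d : G.Dart, (e = ⟨d.edge, d.edge_mem⟩) ↔ (d = dr e ∨ d = (dr e).symm) := by
      intro d
      rw [Subtype.ext_iff]
      show e.1 = d.edge ↔ _
      rw [← hdr e, eq_comm]
      exact SimpleGraph.dart_edge_eq_iff _ _
    have hne : dr e ≠ (dr e).symm := (SimpleGraph.Dart.symm_ne _).symm
    have h3 : ∑ d : G.Dart, (if e = ⟨d.edge, d.edge_mem⟩ then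
          (if d.fst = v.1 then z e else 0) else 0) =
        ∑ d ∈ {dr e, (dr e).symm}, (if d.fst = v.1 then z e else 0) := by
      rw [← Finset.sum_filter]
      refine Finset.sum_congr ?_ fun _ _ => rfl
      ext d
      rw [Finset.mem_filter, h2 d]
      simp
    rw [h3, Finset.sum_pair hne]
    show ((if (dr e).fst = v.1 then 1 else 0) + (if (dr e).snd = v.1 then 1 else 0)) * z e = _
    have h4 : (dr e).symm.fst = (dr e).snd := rfl
    rw [h4]
    split_ifs <;> ring
  have hle : LinearMap.range bd ≤ LinearMap.ker N.mulVecLin := by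
    rintro _ ⟨h, rfl⟩
    rw [LinearMap.mem_ker]
    funext v
    rw [hsumdart v]
    simp only [hbd]
    have h1 : ∑ d : G.Dart, (if d.fst = v.1 then h (mkF d) + h (mkF d.symm) else 0) =
        ∑ d : G.Dart, (if d.fst = v.1 then h (mkF d) else 0) +
        ∑ d : G.Dart, (if d.fst = v.1 then h (mkF d.symm) else 0) := by
      rw [← Finset.sum_add_distrib]
      refine Finset.sum_congr rfl fun d _ => ?_
      split_ifs <;> simp
    rw [h1]
    have h2 : ∑ d : G.Dart, (if d.fst = v.1 then h (mkF d.symm) else 0) =
        ∑ d : G.Dart, (if d.fst = v.1 then h (mkF d) else 0) := by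
      rw [← Equiv.sum_comp σ (fun d => if d.fst = v.1 then h (mkF d) else 0)]
      refine Finset.sum_congr rfl fun d _ => ?_
      rw [hfst]
      have h3 := hmkF d.symm
      rw [SimpleGraph.Dart.symm_symm] at h3
      rw [h3]
    rw [h2]
    exact CharTwo.add_self_eq_zero _
  have hrange : LinearMap.range bd = LinearMap.ker N.mulVecLin := by
    apply Submodule.eq_of_le_of_finrank_le hle
    have h1 := LinearMap.finrank_range_add_finrank_ker bd
    rw [Module.finrank_fintype_fun_eq_card] at h1
    rw [← cV, ← cF, ← cE, ← cC] at hE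
    omega
  -- conclusion
  intro z hz hz0
  let z' : G.edgeSet → K := fun e => z (dr e)
  have hz' : ∀ d : G.Dart, z' ⟨d.edge, d.edge_mem⟩ = z d := by
    intro d
    show z (dr ⟨d.edge, d.edge_mem⟩) = z d
    rcases hdr2 d with h3 | h3
    · rw [h3]
    · rw [h3]; exact hz d
  have hmem : z' ∈ LinearMap.ker N.mulVecLin := by
    rw [LinearMap.mem_ker]
    funext v
    rw [hsumdart v]
    simp only [hz']
    have h1 := hz0 v.1
    rw [finsum_eq_sum_of_fintype] at h1
    refine Eq.trans ?_ h1
    refine Finset.sum_congr rfl fun d _ => ?_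
    rw [finsum_eq_if]
    rfl
  rw [← hrange] at hmem
  obtain ⟨h, hh⟩ := hmem
  refine ⟨fun d => h (mkF d), fun d => ?_, fun d => ?_⟩
  · show h (mkF (σ d.symm)) = h (mkF d)
    rw [hmkF]
  · rw [← hz' d, ← hh, hbd]

end PanD
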