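import Pool.Agent.Lib.MP_e6972d_co.Spec

/-!
# Every planar bipartite graph is pandichotomous in the plane: assembly
-/

set_option linter.unusedSectionVars false

namespace PanD

open Equiv Finset

theorem Final (hD : S_Disconn) (hR : S_Realise) (hF : S_FromGraph) : S_Final := by
  classical
  intro V _ G hcol hpl
  obtain ⟨C⟩ := hcol
  let col : V → Bool := fun v => decide (C v = 0)
  have hc : ∀ u v, G.Adj u v → col u ≠ col v := by
    intro u v h hne
    have h1 : C u ≠ C v := C.valid h
    have h2 : ∀ a b : Fin 2, a ≠ b → decide (a = 0) ≠ decide (b = 0) := by decide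
    exact h2 _ _ h1 hne
  obtain ⟨E, _, _, M, hS, hP, hE, hA⟩ := hF V G col hc hpl
  obtain ⟨pb, pw, hW⟩ := hD E V V M hS hP
  have hwcol : ∀ b w, G.Adj b w → col b = true → col w = false := by
    intro b w h hb
    have := hc b w h
    rw [hb] at this
    rcases h1 : col w with _ | _
    · rfl
    · exact absurd h1.symm this
  let pos : V → ℚ := fun v => if col v = true then pb v else pw v
  have pos_t : ∀ v, col v = true → pos v = pb v := fun v hv => if_pos hv
  have pos_f : ∀ v, col v = false → pos v = pw v := fun v hv =>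
    if_neg (by rw [hv]; exact Bool.false_ne_true)
  refine hR V G col hc pos ?_ ?_ ?_
  · intro u v huv
    rcases hu : col u with _ | _ <;> rcases hv : col v with _ | _
    · rw [pos_f u hu, pos_f v hv] at huv
      exact hW.injw huv
    · rw [pos_f u hu, pos_t v hv] at huv
      exact absurd huv.symm (hW.ne v u)
    · rw [pos_t u hu, pos_f v hv] at huv
      exact absurd huv (hW.ne u v)
    · rw [pos_t u hu, pos_t v hv] at huv
      exact hW.injb huv
  · intro c
    obtain ⟨tb, tw, ht⟩ := hW.pot1 (fun e => c (M.bl e) (M.wh e))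
    refine ⟨fun v => if col v = true then tb v else tw v, ?_⟩
    intro b w hbw hb hlt
    have hw := hwcol b w hbw hb
    obtain ⟨e, rfl, rfl⟩ := hA b w hbw hb
    rw [pos_t _ hb, pos_f _ hw] at hlt
    have h1 := ht e hlt
    show (if col (M.wh e) = true then tb (M.wh e) else tw (M.wh e)) -
      (if col (M.bl e) = true then tb (M.bl e) else tw (M.bl e)) = _
    rw [if_pos hb, if_neg (by rw [hw]; exact Bool.false_ne_true)]
    exact h1
  · intro c
    obtain ⟨tb, tw, ht⟩ := hW.pot2 (fun e => c (M.bl e) (M.wh e))
    refine ⟨fun v => if col v = true then tb v else tw v, ?_⟩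
    intro b w hbw hb hlt
    have hw := hwcol b w hbw hb
    obtain ⟨e, rfl, rfl⟩ := hA b w hbw hb
    rw [pos_t _ hb, pos_f _ hw] at hlt
    have h1 := ht e hlt
    show (if col (M.wh e) = true then tb (M.wh e) else tw (M.wh e)) -
      (if col (M.bl e) = true then tb (M.bl e) else tw (M.bl e)) = _
    rw [if_pos hb, if_neg (by rw [hw]; exact Bool.false_ne_true)]
    exact h1

end PanD
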