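import Pool.Agent.Lib.MP_e6972d_co.Spec

/-!
# MP_e6972d_co (c): `FoldLift`

Good positions of the folded map give good positions of the map.
-/

namespace PanD

open Equiv Finset

namespace FoldLiftAux

theorem exists_q (s : Finset ℚ) (p : ℚ) : ∃ q, p < q ∧ ∀ x ∈ s, p < x → q < x := by
  induction s using Finset.induction_on with
  | empty => exact ⟨p + 1, by linarith, by simp⟩
  | insert a s ha ih =>
    obtain ⟨q, hq, h⟩ := ih
    by_cases hp : p < a
    · obtain ⟨q', h1, h2⟩ := exists_between (lt_min hq hp)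
      refine ⟨q', h1, ?_⟩
      intro x hx hpx
      rcases Finset.mem_insert.1 hx with rfl | hx
      · exact lt_of_lt_of_le h2 (min_le_right _ _)
      · exact (lt_of_lt_of_le h2 (min_le_left _ _)).trans (h x hx hpx)
    · refine ⟨q, hq, ?_⟩
      intro x hx hpx
      rcases Finset.mem_insert.1 hx with rfl | hx
      · exact absurd hpx hp
      · exact h x hx hpx

end FoldLiftAux

theorem FoldLift : S_FoldLift := by
  intro E B W _ _ _ _ _ _ M hS e r hsq hne hbe hr hber E' M' ι r' hr' hinj hran hbl hwh h1 h2 h3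
    h4 hT
  obtain ⟨pb0, pw0, hg⟩ := hT
  have blβ : ∀ x, M.bl (M.β x) = M.bl x := fun x =>
    (M.hb _ _).2 (Perm.sameCycle_apply_left.2 (Perm.SameCycle.refl _ _))
  have whω : ∀ x, M.wh (M.ω x) = M.wh x := fun x =>
    (M.hw _ _).2 (Perm.sameCycle_apply_left.2 (Perm.SameCycle.refl _ _))
  obtain ⟨e', he'⟩ : ∃ e', e' = M.fc e := ⟨_, rfl⟩
  rw [← he'] at hsq hne hran h1 h2 h3 h4
  simp only [← he'] at hbl
  obtain ⟨f', hf'⟩ : ∃ f', f' = M.β e' := ⟨_, rfl⟩
  rw [← hf'] at hran h3 h4
  have hωf : M.ω f' = e := by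
    rw [hf']; exact hsq
  have hωe : e' = M.ω (M.β e) := he'
  have hwf : M.wh f' = M.wh e := by rw [← hωf]; exact (whω _).symm
  have hwe : M.wh e' = M.wh (M.β e) := by rw [hωe]; exact whω _
  have hbf : M.bl f' = M.bl e' := by rw [hf']; exact blβ _
  have hne' : e' ≠ f' := by
    intro h
    apply hbe
    apply hS
    · exact blβ e
    · rw [← hwe, h, hwf]
  obtain ⟨v, hv⟩ : ∃ v, v = M.bl e' := ⟨_, rfl⟩
  obtain ⟨s, hs⟩ : ∃ s, s = M.bl e := ⟨_, rfl⟩
  rw [← hs, ← hv] at hne
  rw [← hs] at hr
  rw [← hv] at hbf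
  simp only [← hv, ← hs] at hbl
  -- lifting of edges
  have hex : ∀ x, x ≠ e' → x ≠ f' → ∃ y, ι y = x := fun x hx hx' => (hran x).2 ⟨hx, hx'⟩
  have hex' : ∀ x, M.bl x ≠ v → ∃ y, ι y = x := by
    intro x hx
    apply hex
    · rintro rfl; exact hx hv.symm
    · rintro rfl; exact hx hbf
  have hblr : M'.bl r' = s := by
    rw [hbl]; split_ifs with h
    · rfl
    · rw [hr', hr]
  have hbls : ∀ y, M.bl (ι y) = s → M'.bl y = s := by
    intro y hy
    rw [hbl]; split_ifs with h
    · rfl
    · exact hy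
  have hblv : ∀ y, M.bl (ι y) = v → M'.bl y = s := by
    intro y hy
    rw [hbl, if_pos hy]
  have hblo : ∀ y, M.bl (ι y) ≠ v → M'.bl y = M.bl (ι y) := by
    intro y hy
    rw [hbl, if_neg hy]
  have hfw : ∀ w, pb0 s < pw0 w := by
    intro w
    have := hg.firstw w
    rwa [hblr] at this
  have hrot : ∀ y, M'.bl y = s → ι (M'.β y) ≠ r → pw0 (M.wh (ι y)) < pw0 (M.wh (ι (M'.β y))) := by
    intro y hy hy'
    have := hg.rot y (hy.trans hblr.symm) (by
      intro h
      apply hy'
      rw [h, hr'])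
    rwa [hwh, hwh] at this
  have hvr : ∀ x, M.bl x = v → x ≠ r := by
    intro x hx hxr
    apply hne
    rw [← hx, hxr, hr]
  have hve : ∀ x, M.bl x = v → x ≠ e := by
    intro x hx hxr
    apply hne
    rw [← hx, hxr, hs]
  obtain ⟨ye, hye⟩ := hex' e (by rw [← hs]; exact hne)
  have hblye : M'.bl ye = s := hbls ye (by rw [hye]; exact hs.symm)
  -- (A)
  have hA0 : ∀ x, M.bl x = v → x = e' ∨ (M.bl x = v ∧ (x = f' ∨ pw0 (M.wh e) < pw0 (M.wh x))) := by
    intro x hx
    have hsc : M.β.SameCycle e' x := (M.hb _ _).1 (by rw [hx, ← hv])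
    refine SameCycle.mem_closed
      (S := {x | x = e' ∨ (M.bl x = v ∧ (x = f' ∨ pw0 (M.wh e) < pw0 (M.wh x)))}) hsc ?_
      (Or.inl rfl)
    intro z hz
    change M.β z = e' ∨ (M.bl (M.β z) = v ∧ (M.β z = f' ∨ pw0 (M.wh e) < pw0 (M.wh (M.β z))))
    by_cases hze' : z = e'
    · right
      subst hze'
      exact ⟨by rw [blβ, hv], Or.inl hf'.symm⟩
    rcases hz with hz | ⟨hzv, hz⟩
    · exact absurd hz hze'
    by_cases hβz : M.β z = e'
    · exact Or.inl hβz
    right
    refine ⟨by rw [blβ, hzv], Or.inr ?_⟩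
    by_cases hzf : z = f'
    · subst hzf
      have h5 := h3 ye hye hβz
      have h6 := hrot ye hblye (by rw [h5]; exact hvr _ (by rw [blβ, hzv]))
      rw [h5, hye] at h6
      exact h6
    · rcases hz with hz | hz
      · exact absurd hz hzf
      obtain ⟨y, hy⟩ := hex z hze' hzf
      have h5 := h1 y (by rw [hy]; exact hve _ hzv) (by rw [hy]; exact hβz)
      have h6 := hrot y (hblv y (by rw [hy]; exact hzv)) (by
        rw [h5, hy]; exact hvr _ (by rw [blβ, hzv]))
      rw [h5, hy] at h6
      exact hz.trans h6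
  have hAe : pw0 (M.wh e) < pw0 (M.wh (M.β e)) := by
    obtain ⟨l, hl⟩ : ∃ l, M.β l = e' := ⟨M.β.symm e', by simp⟩
    have hlv : M.bl l = v := by rw [← blβ, hl, hv]
    have hle : l ≠ e' := by
      intro h
      apply hne'
      rw [hf', ← h, hl, h]
    by_cases hlf : l = f'
    · have h5 := h4 ye hye (by rw [← hlf]; exact hl)
      have h6 := hrot ye hblye (by rw [h5]; exact hber)
      rwa [h5, hye] at h6
    · obtain ⟨y, hy⟩ := hex l hle hlf
      have h5 := h2 y (by rw [hy]; exact hve _ hlv) (by rw [hy]; exact hl)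
      have h6 := hrot y (hblv y (by rw [hy]; exact hlv)) (by rw [h5]; exact hber)
      rw [h5, hy] at h6
      rcases hA0 l hlv with h7 | ⟨_, h7 | h7⟩
      · exact absurd h7 hle
      · exact absurd h7 hlf
      · exact h7.trans h6
  have hA : ∀ x, M.bl x = v → x ≠ f' → pw0 (M.wh e) < pw0 (M.wh x) := by
    intro x hx hxf
    rcases hA0 x hx with h7 | ⟨_, h7 | h7⟩
    · rw [h7, hwe]; exact hAe
    · exact absurd h7 hxf
    · exact h7
  -- the new position
  obtain ⟨q, hq0, hq⟩ := FoldLiftAux.exists_q (univ.image pb0 ∪ univ.image pw0) (pw0 (M.wh e))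
  have hqb : ∀ b, pw0 (M.wh e) < pb0 b → q < pb0 b := fun b hb =>
    hq _ (by simp) hb
  have hqw : ∀ w, pw0 (M.wh e) < pw0 w → q < pw0 w := fun w hw =>
    hq _ (by simp) hw
  have hqnb : ∀ b, pb0 b ≠ q := by
    intro b h
    have := hqb b (by rw [h]; exact hq0)
    rw [h] at this
    exact lt_irrefl _ this
  have hqnw : ∀ w, pw0 w ≠ q := by
    intro w h
    have := hqw w (by rw [h]; exact hq0)
    rw [h] at this
    exact lt_irrefl _ this
  have hpbv : Function.update pb0 v q v = q := Function.update_self _ _ _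
  have hpbo : ∀ b, b ≠ v → Function.update pb0 v q b = pb0 b := fun b hb =>
    Function.update_of_ne hb _ _
  refine ⟨Function.update pb0 v q, pw0, ⟨⟨?_, hg.injw, ?_, ?_, ?_⟩, ?_, ?_, ?_⟩⟩
  · intro x y hxy
    by_cases hx : x = v <;> by_cases hy : y = v
    · rw [hx, hy]
    · rw [hx, hpbv, hpbo y hy] at hxy
      exact absurd hxy.symm (hqnb _)
    · rw [hy, hpbv, hpbo x hx] at hxy
      exact absurd hxy (hqnb _)
    · rw [hpbo x hx, hpbo y hy] at hxy
      exact hg.injb hxy
  · intro x w
    by_cases hx : x = v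
    · rw [hx, hpbv]
      exact fun h => hqnw _ h.symm
    · rw [hpbo x hx]
      exact hg.ne _ _
  · intro c
    obtain ⟨tb0, tw0, ht⟩ := hg.pot1 (fun y => if M.bl (ι y) = v then
      c (ι y) + c (M.β e) - c e' else c (ι y))
    refine ⟨Function.update tb0 v (tb0 s + c (M.β e) - c e'), tw0, ?_⟩
    intro x hx
    change Function.update pb0 v q (M.bl x) < pw0 (M.wh x) at hx
    by_cases hxv : M.bl x = v
    · rw [hxv, hpbv] at hx
      rw [hxv, Function.update_self]
      have hxf : x ≠ f' := by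
        rintro rfl
        rw [hwf] at hx
        exact absurd (hq0.trans hx) (lt_irrefl _)
      by_cases hxe : x = e'
      · rw [hxe]
        obtain ⟨y, hy⟩ := hex' (M.β e) (by rw [blβ, ← hs]; exact hne)
        have hys : M'.bl y = s := hbls y (by rw [hy, blβ, hs])
        have h5 := ht y (by
          change pb0 (M'.bl y) < pw0 (M'.wh y)
          rw [hys]; exact hfw _)
        simp only [hys, hwh, hy, blβ, ← hs, if_neg hne] at h5
        rw [hwe]
        linarith
      · obtain ⟨y, hy⟩ := hex x hxe hxf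
        have hys : M'.bl y = s := hblv y (by rw [hy]; exact hxv)
        have h5 := ht y (by
          change pb0 (M'.bl y) < pw0 (M'.wh y)
          rw [hys]; exact hfw _)
        simp only [hys, hwh, hy, hxv, if_true] at h5
        linarith
    · rw [hpbo _ hxv] at hx
      rw [Function.update_of_ne hxv]
      obtain ⟨y, hy⟩ := hex' x hxv
      have hys : M'.bl y = M.bl x := by rw [hblo y (by rw [hy]; exact hxv), hy]
      have h5 := ht y (by
        change pb0 (M'.bl y) < pw0 (M'.wh y)
        rw [hys, hwh, hy]; exact hx)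
      simp only [hys, hwh, hy, if_neg hxv] at h5
      exact h5
  · intro c
    obtain ⟨tb0, tw0, ht⟩ := hg.pot2 (fun y => c (ι y))
    refine ⟨Function.update tb0 v (tw0 (M.wh e) - c f'), tw0, ?_⟩
    intro x hx
    change pw0 (M.wh x) < Function.update pb0 v q (M.bl x) at hx
    by_cases hxv : M.bl x = v
    · rw [hxv, hpbv] at hx
      rw [hxv, Function.update_self]
      have hxf : x = f' := by
        by_contra hxf
        exact absurd (hx.trans (hqw _ (hA x hxv hxf))) (lt_irrefl _)
      rw [hxf, hwf]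
      ring
    · rw [hpbo _ hxv] at hx
      rw [Function.update_of_ne hxv]
      obtain ⟨y, hy⟩ := hex' x hxv
      have hys : M'.bl y = M.bl x := by rw [hblo y (by rw [hy]; exact hxv), hy]
      have h5 := ht y (by
        change pw0 (M'.wh y) < pb0 (M'.bl y)
        rw [hys, hwh, hy]; exact hx)
      simp only [hys, hwh, hy] at h5
      exact h5
  · intro b hb
    rw [← hr] at hb ⊢
    rw [hpbo s hne]
    by_cases hbv : b = v
    · rw [hbv, hpbv]
      exact (hfw _).trans hq0
    · rw [hpbo b hbv]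
      have := hg.firstb b (by rw [hblr]; exact hb)
      rwa [hblr] at this
  · intro w
    rw [← hr, hpbo s hne]
    exact hfw w
  · intro x hx hxr
    rw [← hr] at hx
    by_cases hxe : x = e
    · rw [hxe]; exact hAe
    · obtain ⟨y, hy⟩ := hex' x (by rw [hx]; exact hne)
      have h5 := h1 y (by rw [hy]; exact hxe) (by
        rw [hy]
        intro h
        apply hne
        rw [hv, ← h, blβ, hx])
      have h6 := hrot y (hbls y (by rw [hy]; exact hx)) (by rw [h5, hy]; exact hxr)
      rw [h5, hy] at h6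
      exact h6

end PanD
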