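import Pool.Agent.Lib.MP_e6972d_co.Spec

/-!
# MP_e6972d_co: folding a quadrangular face (task FoldRed)
-/

namespace PanD

open Equiv Finset

namespace FoldRedAux

variable {E B W : Type}

theorem bl_beta (M : BMap E B W) (x : E) : M.bl (M.β x) = M.bl x := by
  rw [M.hb]
  exact Perm.sameCycle_apply_left.2 (Perm.SameCycle.refl _ _)

theorem wh_omega (M : BMap E B W) (x : E) : M.wh (M.ω x) = M.wh x := by
  rw [M.hw]
  exact Perm.sameCycle_apply_left.2 (Perm.SameCycle.refl _ _)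

theorem wh_fc (M : BMap E B W) (x : E) : M.wh (M.fc x) = M.wh (M.β x) := wh_omega M _

theorem nv_lt {E' : Type} [Fintype E] [Fintype E'] [DecidableEq B] [DecidableEq W]
    (M : BMap E B W) (M' : BMap E' B W) (x₀ : E)
    (hb : ∀ y, M'.bl y ≠ M.bl x₀ ∧ ∃ x, M.bl x = M'.bl y) (hw : ∀ y, ∃ x, M.wh x = M'.wh y) :
    M'.nv < M.nv := by
  have h1 : (univ.image M'.bl).card < (univ.image M.bl).card := by
    refine lt_of_le_of_lt (Finset.card_le_card (t := (univ.image M.bl).erase (M.bl x₀)) ?_) ?_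
    · intro b hb'
      rw [Finset.mem_image] at hb'
      obtain ⟨y, _, rfl⟩ := hb'
      rw [Finset.mem_erase]
      obtain ⟨h2, x, h3⟩ := hb y
      exact ⟨h2, Finset.mem_image.2 ⟨x, Finset.mem_univ _, h3⟩⟩
    · exact Finset.card_erase_lt_of_mem (Finset.mem_image.2 ⟨x₀, Finset.mem_univ _, rfl⟩)
  have h2 : (univ.image M'.wh).card ≤ (univ.image M.wh).card := by
    refine Finset.card_le_card ?_
    intro w hw'
    rw [Finset.mem_image] at hw'
    obtain ⟨y, _, rfl⟩ := hw'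
    obtain ⟨x, h3⟩ := hw y
    exact Finset.mem_image.2 ⟨x, Finset.mem_univ _, h3⟩
  unfold BMap.nv
  omega

/-- the folded map -/
def fold [DecidableEq E] [Finite E] [DecidableEq B] (M : BMap E B W) (e e' f' : E)
    (h : M.bl e ≠ M.bl e') (hne : e' ≠ f') :
    BMap {y : {x : E // x ≠ f'} // y ≠ ⟨e', hne⟩} B W :=
  ((M.merge e e' h).del f').del ⟨e', hne⟩

section

variable [DecidableEq E] [Finite E] [DecidableEq B] (M : BMap E B W) (e e' f' : E)
    (h : M.bl e ≠ M.bl e') (hne : e' ≠ f')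

theorem fold_bl (y : {y : {x : E // x ≠ f'} // y ≠ ⟨e', hne⟩}) :
    (fold M e e' f' h hne).bl y = if M.bl y.1.1 = M.bl e' then M.bl e else M.bl y.1.1 := rfl

theorem fold_wh (y : {y : {x : E // x ≠ f'} // y ≠ ⟨e', hne⟩}) :
    (fold M e e' f' h hne).wh y = M.wh y.1.1 := rfl

omit [DecidableEq E] [Finite E] in
theorem fold_ne (y : {y : {x : E // x ≠ f'} // y ≠ ⟨e', hne⟩}) : y.1.1 ≠ e' := by
  intro h1
  exact y.2 (Subtype.ext h1)

theorem fold_beta (hf' : f' = M.β e')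
    (y : {y : {x : E // x ≠ f'} // y ≠ ⟨e', hne⟩}) :
    (((fold M e e' f' h hne).β y).1.1 : E) =
      if y.1.1 = e then (if M.β f' = e' then M.β e else M.β f')
      else (if M.β y.1.1 = e' then M.β e else M.β y.1.1) := by
  have hbf : M.bl f' = M.bl e' := by rw [hf']; exact bl_beta M e'
  have hfe : f' ≠ e := fun h1 => h (by rw [← h1]; exact hbf)
  have hee : e ≠ e' := fun h1 => h (by rw [← h1])
  have hbe : M.β e ≠ f' := fun h1 => h (by rw [← bl_beta M e, h1]; exact hbf)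
  have m0 : ∀ x, (M.merge e e' h).β x = M.β (Equiv.swap e e' x) := fun x => rfl
  have m1 : (M.merge e e' h).β e = f' := by
    rw [m0, Equiv.swap_apply_left, hf']
  have m2 : (M.merge e e' h).β e' = M.β e := by
    rw [m0, Equiv.swap_apply_right]
  have m3 : ∀ x, x ≠ e → x ≠ e' → (M.merge e e' h).β x = M.β x := by
    intro x h1 h2
    rw [m0, Equiv.swap_apply_of_ne_of_ne h1 h2]
  -- first deletion
  have d0 : ∀ x : {x : E // x ≠ f'}, ((((M.merge e e' h).del f').β x).1 : E) =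
      if (M.merge e e' h).β x.1 = f' then (M.merge e e' h).β f' else (M.merge e e' h).β x.1 :=
    fun x => delP_val _ _ x
  have m4 : (M.merge e e' h).β f' = M.β f' := m3 _ hfe hne.symm
  have d1 : ((((M.merge e e' h).del f').β ⟨e', hne⟩).1 : E) = M.β e := by
    rw [d0, m2, if_neg hbe]
  have d2 : ∀ hx : e ≠ f', ((((M.merge e e' h).del f').β ⟨e, hx⟩).1 : E) = M.β f' := by
    intro hx
    rw [d0, m1, if_pos rfl, m4]
  have d3 : ∀ x : {x : E // x ≠ f'}, x.1 ≠ e → x.1 ≠ e' →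
      ((((M.merge e e' h).del f').β x).1 : E) = M.β x.1 := by
    intro x h1 h2
    rw [d0, m3 _ h1 h2, if_neg]
    intro h3
    exact h2 (M.β.injective (h3.trans hf'))
  -- second deletion
  have e0 : ((fold M e e' f' h hne).β y).1 =
      if ((M.merge e e' h).del f').β y.1 = ⟨e', hne⟩ then ((M.merge e e' h).del f').β ⟨e', hne⟩
      else ((M.merge e e' h).del f').β y.1 := delP_val _ _ y
  have key : ∀ z : {x : E // x ≠ f'}, z = y.1 →
      (((fold M e e' f' h hne).β y).1.1 : E) =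
      if (((M.merge e e' h).del f').β z).1 = e' then M.β e
      else (((M.merge e e' h).del f').β z).1 := by
    intro z hz
    rw [e0, hz]
    by_cases h1 : ((M.merge e e' h).del f').β y.1 = ⟨e', hne⟩
    · rw [if_pos h1, if_pos (by rw [h1]), d1]
    · rw [if_neg h1, if_neg (fun h2 => h1 (Subtype.ext h2))]
  have hy := fold_ne e' f' hne y
  by_cases h1 : y.1.1 = e
  · rw [if_pos h1]
    have hx : e ≠ f' := hfe.symm
    rw [key ⟨e, hx⟩ (Subtype.ext h1.symm), d2]
  · rw [if_neg h1, key y.1 rfl, d3 y.1 h1 hy]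

end

theorem fold_simple [DecidableEq E] [Finite E] [DecidableEq B] (M : BMap E B W) (hS : M.Simple)
    (e e' f' : E) (h : M.bl e ≠ M.bl e') (hne : e' ≠ f') (hbf : M.bl f' = M.bl e')
    (hwf : M.wh f' = M.wh e) (hwe : M.wh e' = M.wh (M.β e))
    (hc : ∀ x y, M.bl x = M.bl e → M.bl y = M.bl e' → M.wh x = M.wh y →
      M.wh x = M.wh e ∨ M.wh x = M.wh (M.β e)) : (fold M e e' f' h hne).Simple := by
  have aux : ∀ x y : {y : {x : E // x ≠ f'} // y ≠ ⟨e', hne⟩},
      M.bl x.1.1 = M.bl e' → M.bl y.1.1 = M.bl e → M.wh x.1.1 = M.wh y.1.1 → False := by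
    intro x y h1 h2 h3
    rcases hc y.1.1 x.1.1 h2 h1 h3.symm with h4 | h4
    · exact x.1.2 (hS _ _ (h1.trans hbf.symm) (h3.trans (h4.trans hwf.symm)))
    · exact fold_ne e' f' hne x (hS _ _ h1 (h3.trans (h4.trans hwe.symm)))
  intro x y hb hw
  rw [fold_bl, fold_bl] at hb
  rw [fold_wh, fold_wh] at hw
  by_cases hx : M.bl x.1.1 = M.bl e' <;> by_cases hy : M.bl y.1.1 = M.bl e'
  · exact Subtype.ext (Subtype.ext (hS _ _ (hx.trans hy.symm) hw))
  · rw [if_pos hx, if_neg hy] at hb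
    exact (aux x y hx hb.symm hw).elim
  · rw [if_neg hx, if_pos hy] at hb
    exact (aux y x hy hb hw.symm).elim
  · rw [if_neg hx, if_neg hy] at hb
    exact Subtype.ext (Subtype.ext (hS _ _ hb hw))

theorem fold_conn [DecidableEq E] [Finite E] [DecidableEq B] (M : BMap E B W) (hC : M.Conn)
    (e e' f' : E) (h : M.bl e ≠ M.bl e') (hne : e' ≠ f') (hbf : M.bl f' = M.bl e')
    (hwf : M.wh f' = M.wh e) (hwe : M.wh e' = M.wh (M.β e)) :
    (fold M e e' f' h hne).Conn := by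
  have hfe : e ≠ f' := fun h1 => h (by rw [h1]; exact hbf)
  have hee : e ≠ e' := fun h1 => h (by rw [← h1])
  have hbe : M.β e ≠ f' := fun h1 => h (by rw [← bl_beta M e, h1]; exact hbf)
  have hbe' : M.β e ≠ e' := fun h1 => h (by rw [← bl_beta M e, h1])
  -- the retraction
  have hρ : ∀ x : E, ∃ y : {y : {x : E // x ≠ f'} // y ≠ ⟨e', hne⟩},
      (fold M e e' f' h hne).bl y = (if M.bl x = M.bl e' then M.bl e else M.bl x) ∧
      (fold M e e' f' h hne).wh y = M.wh x ∧ (x ≠ f' → x ≠ e' → y.1.1 = x) := by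
    intro x
    by_cases h1 : x = f'
    · refine ⟨⟨⟨e, hfe⟩, fun h2 => hee (congrArg Subtype.val h2)⟩, ?_, ?_, ?_⟩
      · rw [fold_bl, h1, if_neg h, if_pos hbf]
      · rw [fold_wh, h1, hwf]
      · intro h2; exact absurd h1 h2
    · by_cases h2 : x = e'
      · refine ⟨⟨⟨M.β e, hbe⟩, fun h2 => hbe' (congrArg Subtype.val h2)⟩, ?_, ?_, ?_⟩
        · rw [fold_bl, h2, if_pos rfl, bl_beta, if_neg h]
        · rw [fold_wh, h2, hwe]
        · intro _ h3; exact absurd h2 h3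
      · exact ⟨⟨⟨x, h1⟩, fun h3 => h2 (congrArg Subtype.val h3)⟩, rfl, rfl, fun _ _ => rfl⟩
  choose ρ hρ1 hρ2 hρ3 using hρ
  have hid : ∀ y : {y : {x : E // x ≠ f'} // y ≠ ⟨e', hne⟩}, ρ y.1.1 = y := by
    intro y
    exact Subtype.ext (Subtype.ext (hρ3 y.1.1 y.1.2 (fold_ne e' f' hne y)))
  intro S hS hcl
  obtain ⟨y₀, hy₀⟩ := hS
  have hT : {x : E | ρ x ∈ S} = Set.univ := by
    apply hC
    · exact ⟨y₀.1.1, by rw [Set.mem_ofPred_eq, hid]; exact hy₀⟩
    · intro x hx y hxy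
      rw [Set.mem_ofPred_eq] at hx ⊢
      refine hcl _ hx _ ?_
      rcases hxy with h1 | h1
      · left
        rw [hρ1, hρ1, h1]
      · right
        rw [hρ2, hρ2, h1]
  ext y
  constructor
  · intro _; exact Set.mem_univ _
  · intro _
    have : y.1.1 ∈ {x : E | ρ x ∈ S} := by rw [hT]; exact Set.mem_univ _
    rw [Set.mem_ofPred_eq, hid] at this
    exact this

end FoldRedAux

open FoldRedAux in
theorem FoldRed (hDel : S_DelPlanar) (hMerge : S_MergePlanar) : S_FoldRed := by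
  intro E B W _ _ _ _ M hS hP hC e hsq hbl hβ hcom
  have hω : M.ω (M.β (M.fc e)) = e := hsq
  have hbf : M.bl (M.β (M.fc e)) = M.bl (M.fc e) := bl_beta M _
  have hwf : M.wh (M.β (M.fc e)) = M.wh e := by
    rw [← wh_omega M (M.β (M.fc e)), hω]
  have hwe : M.wh (M.fc e) = M.wh (M.β e) := wh_fc M e
  have hne : M.fc e ≠ M.β (M.fc e) := by
    intro h1
    have h2 : M.wh (M.β e) = M.wh e := by
      rw [← hwe]
      rw [← h1] at hwf
      exact hwf
    exact hβ (hS _ _ (bl_beta M e) h2)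
  refine ⟨{y : {x : E // x ≠ M.β (M.fc e)} // y ≠ ⟨M.fc e, hne⟩}, inferInstance, inferInstance,
    fold M e (M.fc e) (M.β (M.fc e)) hbl hne, fun y => y.1.1, ?_, ?_, ?_, ?_, ?_, ?_, ?_, ?_, ?_,
    ?_, ?_, ?_⟩
  · exact fold_simple M hS e _ _ hbl hne hbf hwf hwe hcom
  · have h1 := hMerge E B W M e hbl hsq hP
    have h2 := (hDel E B W (M.merge e (M.fc e) hbl) (M.β (M.fc e))).1 h1
    exact (hDel _ B W ((M.merge e (M.fc e) hbl).del (M.β (M.fc e))) ⟨M.fc e, hne⟩).1 h2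
  · exact fold_conn M hC e _ _ hbl hne hbf hwf hwe
  · apply nv_lt M _ (M.fc e)
    · intro y
      rw [fold_bl]
      by_cases h1 : M.bl y.1.1 = M.bl (M.fc e)
      · rw [if_pos h1]
        exact ⟨hbl, e, rfl⟩
      · rw [if_neg h1]
        exact ⟨h1, y.1.1, rfl⟩
    · intro y
      exact ⟨y.1.1, rfl⟩
  · intro y y' h1
    exact Subtype.ext (Subtype.ext h1)
  · intro x
    constructor
    · rintro ⟨y, rfl⟩
      exact ⟨fold_ne _ _ hne y, y.1.2⟩
    · rintro ⟨h1, h2⟩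
      exact ⟨⟨⟨x, h2⟩, fun h3 => h1 (congrArg Subtype.val h3)⟩, rfl⟩
  · intro y; rfl
  · intro y; rfl
  · intro y h1 h2
    change (((fold M e (M.fc e) (M.β (M.fc e)) hbl hne).β y).1.1 : E) = M.β y.1.1
    rw [fold_beta M e _ _ hbl hne rfl, if_neg h1, if_neg h2]
  · intro y h1 h2
    change (((fold M e (M.fc e) (M.β (M.fc e)) hbl hne).β y).1.1 : E) = M.β e
    rw [fold_beta M e _ _ hbl hne rfl, if_neg h1, if_pos h2]
  · intro y h1 h2
    change (((fold M e (M.fc e) (M.β (M.fc e)) hbl hne).β y).1.1 : E) = _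
    rw [fold_beta M e _ _ hbl hne rfl, if_pos h1, if_neg h2]
  · intro y h1 h2
    change (((fold M e (M.fc e) (M.β (M.fc e)) hbl hne).β y).1.1 : E) = _
    rw [fold_beta M e _ _ hbl hne rfl, if_pos h1, if_pos h2]

end PanD
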