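import Pool.Agent.Lib.MP_e6972d_co.Spec

/-!
# MP_e6972d_co: a bipartite planar graph gives a simple planar map
-/

namespace PanD

open Equiv Finset

namespace FromGraphAux

variable {V : Type} {G : SimpleGraph V} {col : V → Bool}

/-- the reversal of darts as a permutation -/
def rv (G : SimpleGraph V) : Perm G.Dart :=
  Function.Involutive.toPerm (fun d : G.Dart => d.symm) (fun d => d.symm_symm)

theorem rv_apply (d : G.Dart) : rv G d = d.symm := rfl

theorem rv_inv (G : SimpleGraph V) : (rv G)⁻¹ = rv G := by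
  ext1 d
  rw [Perm.inv_eq_iff_eq]
  exact (d.symm_symm).symm

theorem fst_σ {σ : Perm G.Dart} (hσ : ∀ d d' : G.Dart, d.fst = d'.fst ↔ σ.SameCycle d d')
    (d : G.Dart) : (σ d).fst = d.fst :=
  ((hσ d (σ d)).2 (Perm.sameCycle_apply_right.2 (Perm.SameCycle.refl _ _))).symm

/-- the rotation at the second ends -/
def tau (σ : Perm G.Dart) : Perm G.Dart := rv G * σ * (rv G)⁻¹

theorem tau_apply (σ : Perm G.Dart) (d : G.Dart) : tau σ d = (σ d.symm).symm := by
  unfold tau
  rw [rv_inv]
  rfl

theorem snd_tau {σ : Perm G.Dart} (hσ : ∀ d d' : G.Dart, d.fst = d'.fst ↔ σ.SameCycle d d')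
    (d : G.Dart) : (tau σ d).snd = d.snd := by
  rw [tau_apply]
  exact fst_σ hσ d.symm

theorem col_snd (hcol : ∀ u v, G.Adj u v → col u ≠ col v) (d : G.Dart) :
    col d.fst = true ↔ col d.snd = false := by
  have := hcol _ _ d.adj
  cases h1 : col d.fst <;> cases h2 : col d.snd <;> simp_all

theorem hβ {σ : Perm G.Dart} (hσ : ∀ d d' : G.Dart, d.fst = d'.fst ↔ σ.SameCycle d d')
    (d : G.Dart) : col (σ d).fst = true ↔ col d.fst = true := by
  rw [fst_σ hσ]

theorem hω {σ : Perm G.Dart} (hσ : ∀ d d' : G.Dart, d.fst = d'.fst ↔ σ.SameCycle d d')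
    (hcol : ∀ u v, G.Adj u v → col u ≠ col v) (d : G.Dart) :
    col (tau σ d).fst = true ↔ col d.fst = true := by
  rw [col_snd hcol, col_snd hcol, snd_tau hσ]

theorem dart_ext {d d' : G.Dart} (h1 : d.fst = d'.fst) (h2 : d.snd = d'.snd) : d = d' :=
  SimpleGraph.Dart.ext _ _ (Prod.ext h1 h2)

/-- the map of a bipartite graph with a rotation system -/
def mp (σ : Perm G.Dart) (hσ : ∀ d d' : G.Dart, d.fst = d'.fst ↔ σ.SameCycle d d')
    (hcol : ∀ u v, G.Adj u v → col u ≠ col v) : BMap {d : G.Dart // col d.fst = true} V V where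
  β := σ.subtypePerm (fun d => hβ hσ d)
  ω := (tau σ).subtypePerm (fun d => hω hσ hcol d)
  bl := fun e => e.1.fst
  wh := fun e => e.1.snd
  hb := fun e f => by
    rw [Perm.sameCycle_subtypePerm]
    exact hσ _ _
  hw := fun e f => by
    rw [Perm.sameCycle_subtypePerm]
    unfold tau
    rw [Perm.sameCycle_conj, rv_inv]
    exact hσ e.1.symm f.1.symm

/-- the symmetric extension of a function on the edges -/
noncomputable def ext (hcol : ∀ u v, G.Adj u v → col u ≠ col v)
    (z : {d : G.Dart // col d.fst = true} → ZMod 2) (d : G.Dart) : ZMod 2 :=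
  if h : col d.fst = true then z ⟨d, h⟩
  else z ⟨d.symm, by
    have h1 := col_snd hcol d.symm
    change col d.snd = true ↔ col d.fst = false at h1
    show col d.snd = true
    rw [h1]
    exact Bool.not_eq_true _ ▸ h⟩

theorem ext_true (hcol : ∀ u v, G.Adj u v → col u ≠ col v)
    (z : {d : G.Dart // col d.fst = true} → ZMod 2) (e : {d : G.Dart // col d.fst = true}) :
    ext hcol z e.1 = z e := by
  unfold ext
  rw [dif_pos e.2]

theorem ext_symm_true (hcol : ∀ u v, G.Adj u v → col u ≠ col v)
    (z : {d : G.Dart // col d.fst = true} → ZMod 2) (e : {d : G.Dart // col d.fst = true}) :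
    ext hcol z e.1.symm = z e := by
  unfold ext
  have h1 : ¬ col e.1.symm.fst = true := by
    have := (col_snd hcol e.1).1 e.2
    show ¬ col e.1.snd = true
    rw [this]
    exact Bool.false_ne_true
  rw [dif_neg h1]
  congr 1

theorem dart_cases (hcol : ∀ u v, G.Adj u v → col u ≠ col v) (d : G.Dart) :
    (∃ e : {d : G.Dart // col d.fst = true}, d = e.1) ∨
      (∃ e : {d : G.Dart // col d.fst = true}, d = e.1.symm) := by
  by_cases h : col d.fst = true
  · exact Or.inl ⟨⟨d, h⟩, rfl⟩
  · right
    refine ⟨⟨d.symm, ?_⟩, d.symm_symm.symm⟩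
    have h1 := col_snd hcol d.symm
    change col d.snd = true ↔ col d.fst = false at h1
    show col d.snd = true
    rw [h1]
    exact Bool.not_eq_true _ ▸ h

theorem ext_symm (hcol : ∀ u v, G.Adj u v → col u ≠ col v)
    (z : {d : G.Dart // col d.fst = true} → ZMod 2) (d : G.Dart) :
    ext hcol z d.symm = ext hcol z d := by
  rcases dart_cases hcol d with ⟨e, rfl⟩ | ⟨e, rfl⟩
  · rw [ext_true, ext_symm_true]
  · rw [SimpleGraph.Dart.symm_symm, ext_true, ext_symm_true]

theorem sum_ext [Fintype V] [DecidableEq V] [DecidableRel G.Adj]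
    (hcol : ∀ u v, G.Adj u v → col u ≠ col v)
    (z : {d : G.Dart // col d.fst = true} → ZMod 2) (v : V)
    (h1 : ∑ e : {d : G.Dart // col d.fst = true}, (if e.1.fst = v then z e else 0) = 0)
    (h2 : ∑ e : {d : G.Dart // col d.fst = true}, (if e.1.snd = v then z e else 0) = 0) :
    ∑ᶠ d ∈ {d : G.Dart | d.fst = v}, ext hcol z d = 0 := by
  classical
  rw [finsum_mem_eq_toFinset_sum]
  rw [← Finset.sum_filter] at h1 h2
  by_cases hv : col v = true
  · rw [← h1]
    symm
    refine Finset.sum_bij (fun e _ => e.1) ?_ ?_ ?_ ?_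
    · intro e he
      rw [Finset.mem_filter] at he
      rw [Set.mem_toFinset]
      exact he.2
    · intro a _ b _ hab
      exact Subtype.ext hab
    · intro d hd
      rw [Set.mem_toFinset] at hd
      have hd' : d.fst = v := hd
      refine ⟨⟨d, by rw [hd']; exact hv⟩, ?_, rfl⟩
      rw [Finset.mem_filter]
      exact ⟨Finset.mem_univ _, hd'⟩
    · intro e _
      exact (ext_true hcol z e).symm
  · rw [← h2]
    symm
    refine Finset.sum_bij (fun e _ => e.1.symm) ?_ ?_ ?_ ?_
    · intro e he
      rw [Finset.mem_filter] at he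
      rw [Set.mem_toFinset]
      exact he.2
    · intro a _ b _ hab
      have : a.1.symm.symm = b.1.symm.symm := by rw [hab]
      rw [SimpleGraph.Dart.symm_symm, SimpleGraph.Dart.symm_symm] at this
      exact Subtype.ext this
    · intro d hd
      rw [Set.mem_toFinset] at hd
      have hd' : d.fst = v := hd
      rcases dart_cases hcol d with ⟨e, rfl⟩ | ⟨e, rfl⟩
      · exact absurd (hd' ▸ e.2) hv
      · refine ⟨e, ?_, rfl⟩
        rw [Finset.mem_filter]
        exact ⟨Finset.mem_univ _, hd'⟩
    · intro e _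
      exact (ext_symm_true hcol z e).symm

end FromGraphAux

open FromGraphAux in
theorem FromGraph : S_FromGraph := by
  intro V _ _ G _ col hcol hpl
  obtain ⟨σ, hσ, hP⟩ := hpl
  classical
  refine ⟨{d : G.Dart // col d.fst = true}, inferInstance, inferInstance, mp σ hσ hcol,
    ?_, ?_, ?_, ?_⟩
  · intro e f h1 h2
    exact Subtype.ext (dart_ext h1 h2)
  · intro z hz
    obtain ⟨h, hh, hz2⟩ := hP (ext hcol z) (ext_symm hcol z)
      (fun v => sum_ext hcol z v
        (by
          have := hz.1 v
          simp only [mp] at this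
          convert this)
        (by
          have := hz.2 v
          simp only [mp] at this
          convert this))
    refine ⟨fun e => h (σ e.1), ?_, ?_⟩
    · intro e
      have h1 : ((mp σ hσ hcol).fc e).1 = (σ (σ e.1).symm).symm := by
        have : ((mp σ hσ hcol).fc e).1 = tau σ (σ e.1) := rfl
        rw [this, tau_apply]
      show h (σ ((mp σ hσ hcol).fc e).1) = h (σ e.1)
      rw [h1, hh, hh]
    · intro e
      have h1 : h (σ ((mp σ hσ hcol).β.symm e).1) = h e.1 := by
        have : σ ((mp σ hσ hcol).β.symm e).1 = ((mp σ hσ hcol).β ((mp σ hσ hcol).β.symm e)).1 :=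
          rfl
        rw [this, Equiv.apply_symm_apply]
      have h2 : h (σ e.1) = h e.1.symm := by
        have := hh e.1.symm
        rwa [SimpleGraph.Dart.symm_symm] at this
      show z e = h (σ e.1) + h (σ ((mp σ hσ hcol).β.symm e).1)
      rw [h1, h2, ← ext_true hcol z e, hz2 e.1, add_comm]
  · intro e
    exact ⟨e.2, (col_snd hcol e.1).1 e.2, e.1.adj⟩
  · intro b w hbw hb
    exact ⟨⟨⟨(b, w), hbw⟩, hb⟩, rfl, rfl⟩

end PanD
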