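import Pool.Agent.Lib.MP_e6972d_co.Spec

/-!
# MP_e6972d_co: the main induction
-/

namespace PanD

open Equiv Finset

namespace MainIndAux

theorem bl_beta {E B W : Type} (M : BMap E B W) (x : E) : M.bl (M.β x) = M.bl x :=
  (M.hb _ _).2 (Perm.sameCycle_apply_left.2 (Perm.SameCycle.refl _ _))

theorem bl_beta_symm {E B W : Type} (M : BMap E B W) (x : E) : M.bl (M.β.symm x) = M.bl x := by
  have h := bl_beta M (M.β.symm x)
  rw [Equiv.apply_symm_apply] at h
  exact h.symm

theorem card_le {E B W : Type} [Fintype E] [Fintype B] [Fintype W] (M : BMap E B W)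
    (h : M.Simple) : Fintype.card E ≤ Fintype.card B * Fintype.card W := by
  have h1 : Function.Injective (fun e => (M.bl e, M.wh e)) := by
    intro e f hef
    have h2 : (M.bl e, M.wh e) = (M.bl f, M.wh f) := hef
    exact h e f (Prod.mk.inj h2).1 (Prod.mk.inj h2).2
  have h3 := Fintype.card_le_of_injective _ h1
  rwa [Fintype.card_prod] at h3

end MainIndAux

open MainIndAux

theorem MainInd (hCP : S_ChordPlanar) (hCT : S_ChordT) (hFR : S_FoldRed) (hFL : S_FoldLift)
    (hTR : S_TwoRed) (hTL : S_TwoLift) (hSt : S_Stars) (hMQ : S_MaxQuad) (hQS : S_QuadStep) :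
    S_MainInd := by
  intro E B W iE dE iB dB iW dW M
  -- the induction
  have key : ∀ (n k : ℕ) (E : Type) (_ : Fintype E) (_ : DecidableEq E) (M : BMap E B W),
      M.nv = n → Fintype.card B * Fintype.card W - Fintype.card E = k →
      M.Simple → M.Planar → M.Conn → ∀ r, M.T r := by
    intro n
    induction n using Nat.strong_induction_on with
    | _ n ihn =>
      intro k
      induction k using Nat.strong_induction_on with
      | _ k ihk =>
        intro E iE dE M hn hk hS hP hC r
        by_cases hM : M.ChordMax
        · rcases hMQ E B W M hS hP hC hM with h | h | hQ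
          · exact hSt E B W M hS (Or.inl h) r
          · exact hSt E B W M hS (Or.inr h) r
          · rcases hQS E B W M hS hP hQ r with ⟨e, he1, he2, he3, he4⟩ |
              ⟨x, hx1, hx2, hx3, hx4, hx5, hx6, hx7, hx8, hx9⟩
            · obtain ⟨E', iE', dE', M', ι, hS', hP', hC', hnv, hι, hr1, hr2, hr3, hr4, hr5, hr6,
                hr7⟩ := hFR E B W M hS hP hC e (hQ.sq e) he3 (hQ.nb e) he4
              have h1 : ∃ y, ι y = r := by
                rw [hr1]
                constructor
                · intro h
                  rw [h] at he1
                  exact he3 he1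
                · intro h
                  rw [h, bl_beta] at he1
                  exact he3 he1
              obtain ⟨r', hr'⟩ := h1
              have hT' : M'.T r' := ihn M'.nv (by rw [← hn]; exact hnv) _ E' iE' dE' M' rfl rfl
                hS' hP' hC' r'
              exact hFL E B W M hS e r (hQ.sq e) he3 (hQ.nb e) he1 he2 E' M' ι r' hr' hι hr1 hr2
                hr3 hr4 hr5 hr6 hr7 hT'
            · obtain ⟨y₁, hy1, hy2⟩ := hx8
              obtain ⟨E', iE', dE', M', ι, hS', hP', hC', hnv, hι, hr1, hr2, hr3, hr4, hr5⟩ :=
                hTR E B W M hS hP hC x hx1 hx2 (M.β.symm x) y₁ (bl_beta_symm M x) hy1 hy2.symm hx7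
              have h1 : ∃ y, ι y = r := by
                rw [hr1]
                constructor
                · exact fun h => hx4 h.symm
                · intro h
                  rw [h] at hx3
                  exact hx2 hx3.symm
              obtain ⟨r', hr'⟩ := h1
              have hT' : M'.T r' := ihn M'.nv (by rw [← hn]; exact hnv) _ E' iE' dE' M' rfl rfl
                hS' hP' hC' r'
              exact hTL E B W M hS x r hx1 hx2 hx3 hx4 hx5 hx6 ⟨y₁, hy1, hy2⟩ hx9 E' M' ι r' hr'
                hι hr1 hr2 hr3 hr4 hr5 hT'
        · have h1 : ∃ e g, M.fp.SameCycle e g ∧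
              ∀ x, ¬ (M.bl x = M.bl e ∧ M.wh x = M.wh (M.β g)) := by
            by_contra h
            apply hM
            intro e g heg
            by_contra h2
            apply h
            exact ⟨e, g, heg, fun x hx => h2 ⟨x, hx⟩⟩
          obtain ⟨e, g, heg, hno⟩ := h1
          obtain ⟨h2, h3, h4, h5⟩ := hCP E B W M e g heg
          have hS' := h3 hS hno
          have hP' := h2 hP
          have hC' := h4 hC
          refine hCT E B W M e g r ?_
          have hcard := card_le (M.chord e g) hS'
          have hO : Fintype.card (Option E) = Fintype.card E + 1 := Fintype.card_option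
          refine ihk (Fintype.card B * Fintype.card W - Fintype.card (Option E)) ?_ (Option E) inferInstance inferInstance
            (M.chord e g) (by rw [h5, hn]) rfl hS' hP' hC' (some r)
          omega
  intro hS hP hC r
  exact key M.nv _ E iE dE M rfl rfl hS hP hC r

end PanD
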