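import Pool.Agent.Lib.MP_e6972d_co.Spec

/-!
# MP_e6972d_co, module MaxQuad
-/

namespace PanD

open Equiv Finset

namespace MaxQuadAux

variable {E B W : Type}

theorem bl_beta (M : BMap E B W) (e : E) : M.bl (M.β e) = M.bl e :=
  (M.hb _ _).2 (Perm.sameCycle_apply_left.2 (Perm.SameCycle.refl _ _))

theorem wh_omega (M : BMap E B W) (e : E) : M.wh (M.ω e) = M.wh e :=
  (M.hw _ _).2 (Perm.sameCycle_apply_left.2 (Perm.SameCycle.refl _ _))

theorem wh_fc (M : BMap E B W) (e : E) : M.wh (M.fc e) = M.wh (M.β e) := wh_omega M _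

/-- a black leaf gives a white star -/
theorem leaf [Finite E] (M : BMap E B W) (hs : M.Simple) (hc : M.Conn) (hm : M.ChordMax) (e : E)
    (he : M.β e = e) : M.StarW := by
  have hbe : ∀ x, M.bl x = M.bl e → x = e := by
    intro x hx
    have h1 : M.β.SameCycle e x := (M.hb _ _).1 hx.symm
    have h2 := SameCycle.mem_closed (S := {z | z = e}) h1
      (fun z hz => by
        have hz' : z = e := hz
        show M.β z = e
        rw [hz', he]) rfl
    exact h2
  have hface : ∀ f, M.fp.SameCycle e f → M.wh (M.β f) = M.wh e := by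
    intro f hf
    obtain ⟨x, hx1, hx2⟩ := hm e f hf
    rw [← hx2, hbe x hx1]
  have hface2 : ∀ f, M.fp.SameCycle e f → M.wh f = M.wh e := by
    intro f hf
    have h1 : M.fp.SameCycle e (M.fp.symm f) := by
      have h0 : M.fp.SameCycle e (M.fp (M.fp.symm f)) := by rw [Equiv.apply_symm_apply]; exact hf
      exact Perm.sameCycle_apply_right.1 h0
    have h2 := hface _ h1
    have h3 : M.fc (M.fp.symm f) = f := by
      rw [← M.fp_apply]
      exact Equiv.apply_symm_apply _ _
    rw [← h3, wh_fc]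
    exact h2
  have hβ : ∀ f, M.fp.SameCycle e f → M.β f = f := fun f hf =>
    hs _ _ (bl_beta M f) ((hface f hf).trans (hface2 f hf).symm)
  have hω : ∀ f, M.fp.SameCycle e f → M.fp.SameCycle e (M.ω f) := by
    intro f hf
    have h1 : M.ω f = M.fp f := by
      show M.ω f = M.ω (M.β f)
      rw [hβ f hf]
    rw [h1]
    exact Perm.sameCycle_apply_right.2 hf
  have hall : ({f | M.fp.SameCycle e f} : Set E) = Set.univ := by
    apply hc _ ⟨e, Perm.SameCycle.refl _ _⟩
    intro x hx y hxy
    rcases hxy with h | h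
    · exact SameCycle.mem_closed (S := {f | M.fp.SameCycle e f}) ((M.hb _ _).1 h)
        (fun z hz => by
          show M.fp.SameCycle e (M.β z)
          rw [hβ z hz]
          exact hz) hx
    · exact SameCycle.mem_closed (S := {f | M.fp.SameCycle e f}) ((M.hw _ _).1 h)
        (fun z hz => hω z hz) hx
  intro x y
  have hx : M.fp.SameCycle e x := by
    have : x ∈ ({f | M.fp.SameCycle e f} : Set E) := by rw [hall]; trivial
    exact this
  have hy : M.fp.SameCycle e y := by
    have : y ∈ ({f | M.fp.SameCycle e f} : Set E) := by rw [hall]; trivial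
    exact this
  rw [hface2 x hx, hface2 y hy]

theorem dual_fc (M : BMap E B W) (e : E) : M.dual.fc e = M.fp.symm e := rfl

theorem dual_fp (M : BMap E B W) : M.dual.fp = M.fp⁻¹ := by
  ext e
  rfl

theorem dual_max (M : BMap E B W) (hm : M.ChordMax) : M.dual.ChordMax := by
  intro e g h
  rw [dual_fp, Perm.sameCycle_inv] at h
  have hsym : M.fp.SameCycle (M.fp.symm g) (M.fp.symm e) := by
    have h0 : M.fp.SameCycle (M.fp (M.fp.symm g)) (M.fp (M.fp.symm e)) := by
      rw [Equiv.apply_symm_apply, Equiv.apply_symm_apply]; exact h.symm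
    exact Perm.sameCycle_apply_left.1 (Perm.sameCycle_apply_right.1 h0)
  obtain ⟨x, hx1, hx2⟩ := hm (M.fp.symm g) (M.fp.symm e) hsym
  refine ⟨x, ?_, ?_⟩
  · show M.wh x = M.wh e
    rw [hx2, ← wh_fc, ← M.fp_apply, Equiv.apply_symm_apply]
  · show M.bl x = M.bl (M.ω.symm g)
    rw [hx1]
    have h1 : M.fp.symm g = M.β.symm (M.ω.symm g) := rfl
    rw [h1]
    have h2 := bl_beta M (M.β.symm (M.ω.symm g))
    rw [Equiv.apply_symm_apply] at h2
    exact h2.symm

/-- two steps along a face come back to the same black vertex -/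
theorem two [Fintype E] [DecidableEq E] [DecidableEq B] [DecidableEq W] (hCross : S_Cross)
    (M : BMap E B W) (hs : M.Simple) (hp : M.Planar) (hm : M.ChordMax)
    (nb : ∀ e, M.β e ≠ e) (nw : ∀ e, M.ω e ≠ e) (e : E) : M.bl (M.fc (M.fc e)) = M.bl e := by
  have hv : ∀ e, M.bl e ≠ M.bl (M.fc e) := by
    intro e h
    have h1 : M.fc e = M.β e := hs _ _ (by rw [bl_beta]; exact h.symm) (wh_fc M e)
    exact nw (M.β e) h1
  have ha : M.wh (M.β e) ≠ M.wh (M.β (M.fc e)) := by
    intro h
    have h1 : M.β (M.fc e) = M.fc e := hs _ _ (bl_beta M _) (by rw [wh_fc]; exact h.symm)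
    exact nb _ h1
  obtain ⟨x₁, hx1, hx1'⟩ := hm e (M.fc e)
    (by rw [← M.fp_apply]; exact Perm.sameCycle_apply_right.2 (Perm.SameCycle.refl _ _))
  obtain ⟨x₂, hx2, hx2'⟩ := hm (M.fc (M.fc e)) e (by
    rw [← M.fp_apply, ← M.fp_apply]
    exact Perm.sameCycle_apply_left.2 (Perm.sameCycle_apply_left.2 (Perm.SameCycle.refl _ _)))
  exact hCross E B W M hs hp e x₁ x₂ (hv e) ha (hv _) hx1 hx1' hx2 hx2'

end MaxQuadAux

open MaxQuadAux in
theorem MaxQuad (hBasic : S_Basic) (hCross : S_Cross) : S_MaxQuad := by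
  intro E B W _ _ _ _ M hs hp hc hm
  obtain ⟨_, hdp, hds, hdc⟩ := hBasic E B W M
  by_cases h1 : ∃ e, M.β e = e
  · obtain ⟨e, he⟩ := h1
    exact Or.inr (Or.inl (leaf M hs hc hm e he))
  · by_cases h2 : ∃ e, M.ω e = e
    · obtain ⟨e, he⟩ := h2
      left
      have h3 : M.dual.β e = e := by
        show M.ω.symm e = e
        rw [Equiv.symm_apply_eq]
        exact he.symm
      exact leaf M.dual (hds hs) (hdc hc) (dual_max M hm) e h3
    · push Not at h1 h2
      right; right
      refine ⟨fun e => ?_, h1, h2⟩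
      have h3 := two hCross M hs hp hm h1 h2 e
      have h4 := two hCross M.dual (hds hs) (hdp hp) (dual_max M hm)
        (fun e h => h2 e (by
          have h' : M.ω.symm e = e := h
          rw [Equiv.symm_apply_eq] at h'
          exact h'.symm))
        (fun e h => h1 e (by
          have h' : M.β.symm e = e := h
          rw [Equiv.symm_apply_eq] at h'
          exact h'.symm)) (M.fc (M.fc (M.fc e)))
      have h5 : M.dual.fc (M.dual.fc (M.fc (M.fc (M.fc e)))) = M.fc e := by
        rw [dual_fc, dual_fc, ← M.fp_apply (M.fc (M.fc e)), Equiv.symm_apply_apply,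
          ← M.fp_apply (M.fc e), Equiv.symm_apply_apply]
      rw [h5] at h4
      have h6 : M.wh (M.fc e) = M.wh (M.fc (M.fc (M.fc e))) := h4
      rw [wh_fc, wh_fc M (M.fc (M.fc e))] at h6
      have h7 : M.β (M.fc (M.fc e)) = M.β e := hs _ _
        (by rw [bl_beta, bl_beta]; exact h3) h6.symm
      exact M.β.injective h7

end PanD
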