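import Pool.Agent.Lib.MP_e6972d_co.Spec

/-!
# MP_e6972d_co (c): merging the two black vertices of a quadrangular face preserves planarity
-/

set_option autoImplicit false

namespace PanD

open Equiv Finset

namespace MergePlanarAux

theorem two_add (a : ZMod 2) : a + a = 0 := by
  revert a; decide

theorem eq_one {a : ZMod 2} (h : a ≠ 0) : a = 1 := by
  revert a; decide

/-- The sum of two point masses over the points with property `P`. -/
theorem sum_two {E : Type} [Fintype E] [DecidableEq E] (P : E → Prop) [DecidablePred P]
    (e f : E) :
    ∑ x, (if P x then ((if x = e then (1 : ZMod 2) else 0) + (if x = f then 1 else 0)) else 0) =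
      (if P e then 1 else 0) + (if P f then 1 else 0) := by
  have h1 : ∀ x, (if P x then ((if x = e then (1 : ZMod 2) else 0) + (if x = f then 1 else 0))
      else 0) = (if x = e then (if P e then (1 : ZMod 2) else 0) else 0) +
        (if x = f then (if P f then (1 : ZMod 2) else 0) else 0) := by
    intro x
    by_cases hx : P x
    · rw [if_pos hx]
      congr 1
      · by_cases h : x = e
        · subst h; simp [hx]
        · simp [h]
      · by_cases h : x = f
        · subst h; simp [hx]
        · simp [h]
    · rw [if_neg hx]
      by_cases h : x = e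
      · subst h
        by_cases h' : x = f
        · subst h'; simp [hx]
        · simp [hx, h']
      · by_cases h' : x = f
        · subst h'; simp [hx, h]
        · simp [h, h']
  rw [Finset.sum_congr rfl (fun x _ => h1 x), Finset.sum_add_distrib]
  simp

end MergePlanarAux

open MergePlanarAux

theorem MergePlanar : S_MergePlanar := by
  intro E B W _ _ _ _ M e hne hsq hpl z hz
  obtain ⟨hzb, hzw⟩ := hz
  set e' : E := M.fc e with he'
  -- the merged map
  have hfc : ∀ x, (M.merge e e' hne).fc x = M.fc (Equiv.swap e e' x) := fun x => rfl
  have hsy : ∀ x, (M.merge e e' hne).β.symm x = Equiv.swap e e' (M.β.symm x) := by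
    intro x
    rw [Equiv.symm_apply_eq]
    change x = M.β (Equiv.swap e e' (Equiv.swap e e' (M.β.symm x)))
    rw [Equiv.swap_apply_self]
    simp
  have hbl : ∀ x, (M.merge e e' hne).bl x = if M.bl x = M.bl e' then M.bl e else M.bl x :=
    fun x => rfl
  have hwh : ∀ x, (M.merge e e' hne).wh x = M.wh x := fun x => rfl
  -- cycles of `M` are boundaries in the merged map
  have hA : ∀ y : E → ZMod 2, M.Cyc y → ∃ h : E → ZMod 2,
      (∀ x, h ((M.merge e e' hne).fc x) = h x) ∧
      ∀ x, y x = h x + h ((M.merge e e' hne).β.symm x) := by
    intro y hy
    obtain ⟨h, h1, h2⟩ := hpl y hy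
    have hee : h e' = h e := h1 e
    have hsw : ∀ x, h (Equiv.swap e e' x) = h x := by
      intro x
      by_cases hx : x = e
      · rw [hx, Equiv.swap_apply_left, hee]
      · by_cases hx' : x = e'
        · rw [hx', Equiv.swap_apply_right, hee]
        · rw [Equiv.swap_apply_of_ne_of_ne hx hx']
    refine ⟨h, fun x => ?_, fun x => ?_⟩
    · rw [hfc, h1, hsw]
    · rw [hsy, hsw, h2]
  -- sums over the two merged black vertices
  have hsum : (∑ x, (if M.bl x = M.bl e then z x else 0)) +
      (∑ x, (if M.bl x = M.bl e' then z x else 0)) = 0 := by
    rw [← Finset.sum_add_distrib]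
    refine Eq.trans ?_ (hzb (M.bl e))
    apply Finset.sum_congr rfl
    intro x _
    change _ = if (if M.bl x = M.bl e' then M.bl e else M.bl x) = M.bl e then z x else 0
    by_cases hx : M.bl x = M.bl e'
    · have hx' : M.bl x ≠ M.bl e := fun h' => hne (h'.symm.trans hx)
      simp only [hx, if_true]
      rw [if_neg (fun h' => hne h'.symm), zero_add]
    · simp only [hx, if_false]
      rw [add_zero]
  have hoth : ∀ b, b ≠ M.bl e → b ≠ M.bl e' → ∑ x, (if M.bl x = b then z x else 0) = 0 := by
    intro b h1 h2
    refine Eq.trans ?_ (hzb b)
    apply Finset.sum_congr rfl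
    intro x _
    change _ = if (if M.bl x = M.bl e' then M.bl e else M.bl x) = b then z x else 0
    by_cases hx : M.bl x = M.bl e'
    · rw [if_pos hx, if_neg (fun h' => h2 (h'.symm.trans hx)), if_neg (fun h' => h1 h'.symm)]
    · rw [if_neg hx]
  by_cases hδ : (∑ x, (if M.bl x = M.bl e then z x else 0)) = 0
  · -- `z` is a cycle of `M`
    apply hA z
    refine ⟨fun b => ?_, hzw⟩
    by_cases h1 : b = M.bl e
    · rw [h1]; exact hδ
    · by_cases h2 : b = M.bl e'
      · rw [h2]
        rw [hδ, zero_add] at hsum
        exact hsum
      · exact hoth b h1 h2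
  · -- `z + p` is a cycle of `M`
    have hδ1 := eq_one hδ
    have hδ2 : (∑ x, (if M.bl x = M.bl e' then z x else 0)) = 1 := by
      apply eq_one
      intro h0
      rw [h0, add_zero] at hsum
      exact hδ hsum
    set f' : E := M.β e' with hf'
    have hblf : M.bl f' = M.bl e' :=
      (M.hb f' e').2 (Perm.sameCycle_apply_left.2 (Perm.SameCycle.refl _ _))
    have hωf : M.ω f' = e := hsq
    have hwhf : M.wh f' = M.wh e := by
      refine (M.hw f' e).2 ?_
      rw [← hωf]
      exact Perm.sameCycle_apply_right.2 (Perm.SameCycle.refl _ _)
    set p : E → ZMod 2 := fun x => (if x = e then (1 : ZMod 2) else 0) + (if x = f' then 1 else 0)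
      with hp
    have hcyc : M.Cyc (fun x => z x + p x) := by
      constructor
      · intro b
        have h1 : ∀ x, (if M.bl x = b then (fun x => z x + p x) x else 0) =
            (if M.bl x = b then z x else 0) + (if M.bl x = b then p x else 0) := by
          intro x
          by_cases hx : M.bl x = b
          · simp only [if_pos hx]
          · simp only [if_neg hx, add_zero]
        rw [Finset.sum_congr rfl (fun x _ => h1 x), Finset.sum_add_distrib]
        have h2 := sum_two (fun x => M.bl x = b) e f'
        rw [hp]
        rw [h2, hblf]
        by_cases hb1 : b = M.bl e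
        · subst hb1
          rw [hδ1, if_pos rfl, if_neg (fun h' => hne h'.symm), add_zero]
          exact two_add 1
        · by_cases hb2 : b = M.bl e'
          · subst hb2
            rw [hδ2, if_neg hne, if_pos rfl, zero_add]
            exact two_add 1
          · rw [hoth b hb1 hb2, if_neg (fun h' => hb1 h'.symm), if_neg (fun h' => hb2 h'.symm)]
            simp
      · intro w
        have h1 : ∀ x, (if M.wh x = w then (fun x => z x + p x) x else 0) =
            (if M.wh x = w then z x else 0) + (if M.wh x = w then p x else 0) := by
          intro x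
          by_cases hx : M.wh x = w
          · simp only [if_pos hx]
          · simp only [if_neg hx, add_zero]
        rw [Finset.sum_congr rfl (fun x _ => h1 x), Finset.sum_add_distrib]
        have h2 := sum_two (fun x => M.wh x = w) e f'
        have h3 : ∑ x, (if M.wh x = w then z x else 0) = 0 := hzw w
        rw [hp]
        rw [h2, hwhf, h3, zero_add]
        exact two_add _
    obtain ⟨h, h1, h2⟩ := hA _ hcyc
    have hfce : M.fc e' = e := hsq
    refine ⟨fun x => h x + (if x = e then 1 else 0), fun x => ?_, fun x => ?_⟩
    · have h3 : ((M.merge e e' hne).fc x = e) ↔ x = e := by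
        rw [hfc]
        constructor
        · intro h4
          have h5 : M.fc (Equiv.swap e e' x) = M.fc e' := h4.trans hfce.symm
          have h6 : Equiv.swap e e' x = e' := M.β.injective (M.ω.injective h5)
          have h7 : Equiv.swap e e' (Equiv.swap e e' x) = Equiv.swap e e' e' := by rw [h6]
          rw [Equiv.swap_apply_self, Equiv.swap_apply_right] at h7
          exact h7
        · intro h4
          rw [h4, Equiv.swap_apply_left, hfce]
      change h ((M.merge e e' hne).fc x) + (if (M.merge e e' hne).fc x = e then 1 else 0) =
        h x + (if x = e then 1 else 0)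
      rw [h1]
      by_cases h4 : x = e
      · rw [if_pos (h3.2 h4), if_pos h4]
      · rw [if_neg (fun h5 => h4 (h3.1 h5)), if_neg h4]
    · have h3 : ((M.merge e e' hne).β.symm x = e) ↔ x = f' := by
        rw [Equiv.symm_apply_eq]
        have h4 : (M.merge e e' hne).β e = f' := by
          change M.β (Equiv.swap e e' e) = f'
          rw [Equiv.swap_apply_left]
        rw [h4]
      have h5 : z x + p x = h x + h ((M.merge e e' hne).β.symm x) := h2 x
      have h6 : p x = (if x = e then (1 : ZMod 2) else 0) +
          (if (M.merge e e' hne).β.symm x = e then 1 else 0) := by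
        rw [hp]
        change (if x = e then (1 : ZMod 2) else 0) + (if x = f' then 1 else 0) = _
        by_cases h4 : x = f'
        · rw [if_pos h4, if_pos (h3.2 h4)]
        · rw [if_neg h4, if_neg (fun h7 => h4 (h3.1 h7))]
      change z x = (h x + (if x = e then (1 : ZMod 2) else 0)) +
        (h ((M.merge e e' hne).β.symm x) +
          (if (M.merge e e' hne).β.symm x = e then (1 : ZMod 2) else 0))
      have h7 : z x = (z x + p x) + p x := by rw [add_assoc, two_add, add_zero]
      calc z x = (z x + p x) + p x := h7
        _ = (h x + h ((M.merge e e' hne).β.symm x)) + ((if x = e then (1 : ZMod 2) else 0) +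
          (if (M.merge e e' hne).β.symm x = e then 1 else 0)) := by rw [h5, ← h6]
        _ = _ := by ring

end PanD
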