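import Pool.Agent.Lib.MP_e6972d_co.Spec

/-!
# Nest: common neighbours inside a 4-cycle
-/

namespace PanD

open Equiv Finset

namespace NestAux

theorem two0 (a : ZMod 2) : a + a = 0 := CharTwo.add_self_eq_zero a

theorem cyc_ind {E B W : Type} [Fintype E] [DecidableEq E] [DecidableEq B] [DecidableEq W]
    (M : BMap E B W) (a b x y : E) (hab : M.bl a = M.bl b) (hxy : M.bl x = M.bl y)
    (hax : M.wh x = M.wh a) (hby : M.wh y = M.wh b) :
    M.Cyc (fun e => (if e = a then 1 else 0) + (if e = b then 1 else 0) +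
      ((if e = x then 1 else 0) + (if e = y then 1 else 0))) := by
  have key : ∀ (P : E → Prop) [DecidablePred P],
      ∑ e, (if P e then ((if e = a then 1 else 0) + (if e = b then 1 else 0) +
      ((if e = x then 1 else 0) + (if e = y then 1 else 0)) : ZMod 2) else 0) =
      (if P a then 1 else 0) + (if P b then 1 else 0) +
        ((if P x then 1 else 0) + (if P y then 1 else 0)) := by
    intro P _
    have h1 : ∀ c : E, ∑ e, (if P e then (if e = c then (1 : ZMod 2) else 0) else 0) =
        if P c then 1 else 0 := by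
      intro c
      rw [Finset.sum_eq_single c]
      · simp
      · intro e _ he
        simp [he]
      · intro hc
        exact absurd (Finset.mem_univ c) hc
    rw [← h1 a, ← h1 b, ← h1 x, ← h1 y, ← Finset.sum_add_distrib, ← Finset.sum_add_distrib,
      ← Finset.sum_add_distrib]
    refine Finset.sum_congr rfl fun e _ => ?_
    by_cases hP : P e
    · simp only [hP, if_true]
    · simp only [hP, if_false, add_zero]
  refine ⟨fun v => ?_, fun w => ?_⟩
  · rw [key (fun e => M.bl e = v), hab, hxy, two0, two0, add_zero]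
  · rw [key (fun e => M.wh e = w), hax, hby, two0]

variable {E B W : Type}

theorem bl_beta (M : BMap E B W) (e : E) : M.bl (M.β e) = M.bl e :=
  ((M.hb e (M.β e)).2 (Perm.sameCycle_apply_right.2 (Perm.SameCycle.refl _ _))).symm

theorem wh_omega (M : BMap E B W) (e : E) : M.wh (M.ω e) = M.wh e :=
  ((M.hw e (M.ω e)).2 (Perm.sameCycle_apply_right.2 (Perm.SameCycle.refl _ _))).symm

theorem bl_pow (M : BMap E B W) (r : E) (j : ℕ) : M.bl ((M.β ^ j) r) = M.bl r := by
  induction j with
  | zero => simp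
  | succ j ih => rw [pow_succ', Perm.mul_apply, bl_beta, ih]

theorem pow_inj (M : BMap E B W) (r : E) {i j : ℕ} (hi : i < Function.minimalPeriod M.β r)
    (hj : j < Function.minimalPeriod M.β r) (h : (M.β ^ i) r = (M.β ^ j) r) : i = j := by
  refine Function.iterate_injOn_Iio_minimalPeriod (f := M.β) (x := r) hi hj ?_
  simpa only [Perm.iterate_eq_pow] using h

theorem pow_period (M : BMap E B W) (r : E) :
    (M.β ^ (Function.minimalPeriod M.β r)) r = r := by
  have h := Function.iterate_minimalPeriod (f := M.β) (x := r)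
  rwa [Perm.iterate_eq_pow] at h

/-- `h` changes by `z` along `β` -/
theorem h_beta (M : BMap E B W) {z h : E → ZMod 2} (hz : ∀ e, z e = h e + h (M.β.symm e)) (e : E) :
    h (M.β e) = h e + z (M.β e) := by
  rw [hz (M.β e), Equiv.symm_apply_apply, add_comm (h (M.β e)), ← add_assoc, two0, zero_add]

/-- `h` changes by `z` along `ω` -/
theorem h_omega (M : BMap E B W) {z h : E → ZMod 2} (hf : ∀ e, h (M.fc e) = h e)
    (hz : ∀ e, z e = h e + h (M.β.symm e)) (e : E) : h (M.ω e) = h e + z e := by
  have h1 : h (M.ω e) = h (M.β.symm e) := by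
    rw [← hf (M.β.symm e)]
    simp [BMap.fc]
  rw [h1, hz e, ← add_assoc, two0, zero_add]

/-- no cycle edge at a black vertex: `h` is constant there -/
theorem const_bl [Finite E] (M : BMap E B W) {z h : E → ZMod 2}
    (hz : ∀ e, z e = h e + h (M.β.symm e)) {e f : E} (hef : M.bl e = M.bl f)
    (h0 : ∀ d, M.bl d = M.bl e → z d = 0) : h f = h e := by
  have h1 : f ∈ {d : E | M.bl d = M.bl e ∧ h d = h e} := by
    refine SameCycle.mem_closed ((M.hb e f).1 hef) ?_ ⟨rfl, rfl⟩
    rintro d ⟨h2, h3⟩
    have h4 : M.bl (M.β d) = M.bl e := (bl_beta M d).trans h2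
    refine ⟨h4, ?_⟩
    rw [h_beta M hz d, h0 _ h4, add_zero, h3]
  exact h1.2

/-- no cycle edge at a white vertex: `h` is constant there -/
theorem const_wh [Finite E] (M : BMap E B W) {z h : E → ZMod 2} (hf : ∀ e, h (M.fc e) = h e)
    (hz : ∀ e, z e = h e + h (M.β.symm e)) {e f : E} (hef : M.wh e = M.wh f)
    (h0 : ∀ d, M.wh d = M.wh e → z d = 0) : h f = h e := by
  have h1 : f ∈ {d : E | M.wh d = M.wh e ∧ h d = h e} := by
    refine SameCycle.mem_closed ((M.hw e f).1 hef) ?_ ⟨rfl, rfl⟩
    rintro d ⟨h2, h3⟩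
    refine ⟨(wh_omega M d).trans h2, ?_⟩
    rw [h_omega M hf hz d, h0 _ h2, add_zero, h3]
  exact h1.2

end NestAux

open NestAux in
theorem Nest : S_Nest := by
  intro E B W _ _ _ _ M hS hP r x y p q i k t hxy hxr hxp hyq hpq hqm hpi hiq hvx hvr hkm htb htw
  obtain ⟨h, hf, hz⟩ := hP _ (cyc_ind M ((M.β ^ p) r) ((M.β ^ q) r) x y
    ((bl_pow M r p).trans (bl_pow M r q).symm) hxy hxp hyq)
  set z : E → ZMod 2 := fun e => (if e = (M.β ^ p) r then 1 else 0) +
    (if e = (M.β ^ q) r then 1 else 0) + ((if e = x then 1 else 0) + (if e = y then 1 else 0))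
    with hzdef
  have hz' : ∀ e, z e = h e + h (M.β.symm e) := hz
  have hpm : p < Function.minimalPeriod M.β r := hpq.trans hqm
  -- the values of `z`
  have z0 : ∀ e, e ≠ (M.β ^ p) r → e ≠ (M.β ^ q) r → e ≠ x → e ≠ y → z e = 0 := by
    intro e h1 h2 h3 h4
    simp [hzdef, h1, h2, h3, h4]
  have gx : ∀ j, (M.β ^ j) r ≠ x := fun j hj => hxr (by rw [← hj, bl_pow])
  have gy : ∀ j, (M.β ^ j) r ≠ y := fun j hj => hxr (by rw [hxy, ← hj, bl_pow])
  have zg : ∀ j, j < Function.minimalPeriod M.β r → j ≠ p → j ≠ q → z ((M.β ^ j) r) = 0 := by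
    intro j hj h1 h2
    exact z0 _ (fun h3 => h1 (pow_inj M r hj hpm h3)) (fun h3 => h2 (pow_inj M r hj hqm h3))
      (gx j) (gy j)
  have zq : z ((M.β ^ q) r) = 1 := by
    have h1 : (M.β ^ q) r ≠ (M.β ^ p) r := fun h3 => hpq.ne' (pow_inj M r hqm hpm h3)
    simp [hzdef, h1, gx q, gy q]
  have hstep : ∀ j, h ((M.β ^ (j + 1)) r) = h ((M.β ^ j) r) + z ((M.β ^ (j + 1)) r) := by
    intro j
    rw [pow_succ', Perm.mul_apply]
    exact h_beta M hz' _
  -- between `p` and `q`
  have hA : ∀ j, p ≤ j → j < q → h ((M.β ^ j) r) = h ((M.β ^ p) r) := by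
    intro j hj
    induction j, hj using Nat.le_induction with
    | base => intro _; rfl
    | succ j hj ih =>
      intro hjq
      rw [hstep, zg (j + 1) (hjq.trans hqm) (by omega) (by omega), add_zero, ih (by omega)]
  -- from `q` on
  have hB : ∀ j, q ≤ j → j < Function.minimalPeriod M.β r →
      h ((M.β ^ j) r) = h ((M.β ^ p) r) + 1 := by
    intro j hj
    induction j, hj using Nat.le_induction with
    | base =>
      intro _
      obtain ⟨q', rfl⟩ : ∃ q', q = q' + 1 := ⟨q - 1, by omega⟩
      rw [hstep, zq, hA q' (by omega) (by omega)]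
    | succ j hj ih =>
      intro hjq
      rw [hstep, zg (j + 1) hjq (by omega) (by omega), add_zero, ih (by omega)]
  -- before `p`
  have hC : ∀ j, j < p → h ((M.β ^ j) r) = h ((M.β ^ p) r) + 1 := by
    intro j
    induction j with
    | zero =>
      intro h0
      obtain ⟨m', hm'⟩ : ∃ m', Function.minimalPeriod M.β r = m' + 1 :=
        ⟨Function.minimalPeriod M.β r - 1, by omega⟩
      have h1 : (M.β ^ 0) r = (M.β ^ (m' + 1)) r := by
        rw [← hm', pow_period, pow_zero, Perm.one_apply]
      have h2 : z ((M.β ^ (m' + 1)) r) = 0 := by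
        rw [← h1]
        exact zg 0 (by omega) (by omega) (by omega)
      rw [h1, hstep, h2, add_zero]
      exact hB m' (by omega) (by omega)
    | succ j ih =>
      intro hj
      rw [hstep, zg (j + 1) (by omega) (by omega) (by omega), add_zero, ih (by omega)]
  -- at `v_i`
  have hv : h t = h ((M.β ^ p) r) := by
    rw [← hA i hpi hiq, ← hf ((M.β ^ i) r)]
    refine const_bl M hz' htb.symm ?_
    intro d hd
    refine z0 d ?_ ?_ ?_ ?_
    · rintro rfl
      exact hvr (by rw [← hd, bl_pow])
    · rintro rfl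
      exact hvr (by rw [← hd, bl_pow])
    · rintro rfl
      exact hvx hd.symm
    · rintro rfl
      exact hvx (by rw [← hd, hxy])
  by_contra hcon
  have hk : k < p ∨ q < k := by omega
  have hgk : h ((M.β ^ k) r) = h ((M.β ^ p) r) + 1 := by
    rcases hk with hk | hk
    · exact hC k hk
    · exact hB k hk.le hkm
  have hw : ∀ j, j < Function.minimalPeriod M.β r → k ≠ j →
      M.wh ((M.β ^ j) r) ≠ M.wh ((M.β ^ k) r) := by
    intro j hj hkj h1
    have h2 := hS _ _ ((bl_pow M r j).trans (bl_pow M r k).symm) h1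
    exact hkj (pow_inj M r hj hkm h2).symm
  have ht : h t = h ((M.β ^ k) r) := by
    refine const_wh M hf hz' htw.symm ?_
    intro d hd
    refine z0 d ?_ ?_ ?_ ?_
    · rintro rfl
      exact hw p hpm (by omega) hd
    · rintro rfl
      exact hw q hqm (by omega) hd
    · rintro rfl
      exact hw p hpm (by omega) (by rw [← hxp, hd])
    · rintro rfl
      exact hw q hqm (by omega) (by rw [← hyq, hd])
  rw [hv, hgk] at ht
  have h1 : (0 : ZMod 2) = 1 := by
    have := congrArg (fun a => a - h ((M.β ^ p) r)) ht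
    simpa using this
  exact absurd h1 (by decide)

end PanD
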