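import Pool.Agent.Lib.MP_e6972d_co.Spec

/-!
# MP_e6972d_co (c), module QuadStep
-/

namespace PanD

open Equiv Finset

namespace QuadStepAux

section
variable {E B W : Type} [Fintype E] [DecidableEq E] [DecidableEq B] [DecidableEq W]
  (M : BMap E B W)

theorem bl_β (e : E) : M.bl (M.β e) = M.bl e :=
  (M.hb _ _).2 (Perm.sameCycle_apply_left.2 (Perm.SameCycle.refl _ _))

theorem wh_ω (e : E) : M.wh (M.ω e) = M.wh e :=
  (M.hw _ _).2 (Perm.sameCycle_apply_left.2 (Perm.SameCycle.refl _ _))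

theorem wh_fc (e : E) : M.wh (M.fc e) = M.wh (M.β e) := wh_ω M (M.β e)

theorem bl_pow (r : E) (i : ℕ) : M.bl ((M.β ^ i) r) = M.bl r := by
  induction i with
  | zero => simp
  | succ i ih => rw [pow_succ', Perm.mul_apply, bl_β, ih]

theorem β_pow (r : E) (i : ℕ) : M.β ((M.β ^ i) r) = (M.β ^ (i + 1)) r := by
  rw [pow_succ', Perm.mul_apply]

variable {M}

/-- the edge `ω (β (π e)) = e` -/
theorem ω_β_fc (hQ : M.Quad) (e : E) : M.ω (M.β (M.fc e)) = e := hQ.sq e

theorem wh_β_fc (hQ : M.Quad) (e : E) : M.wh (M.β (M.fc e)) = M.wh e := by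
  rw [← wh_ω, ω_β_fc hQ]

theorem bl_fc_ne (hS : M.Simple) (hQ : M.Quad) (e : E) : M.bl (M.fc e) ≠ M.bl e := by
  intro h
  have h1 : M.fc e = M.β e := hS _ _ (by rw [h, bl_β]) (wh_fc M e)
  exact hQ.nw (M.β e) h1

theorem period_pos (β : Perm E) (r : E) : 0 < Function.minimalPeriod β r := by
  refine Function.IsPeriodicPt.minimalPeriod_pos (n := orderOf β) (orderOf_pos β) ?_
  show β^[orderOf β] r = r
  rw [Perm.iterate_eq_pow, pow_orderOf_eq_one, Perm.one_apply]

theorem pow_inj (β : Perm E) (r : E) {j k : ℕ} (hj : j < Function.minimalPeriod β r)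
    (hk : k < Function.minimalPeriod β r) (h : (β ^ j) r = (β ^ k) r) : j = k := by
  have := Function.iterate_injOn_Iio_minimalPeriod (f := β) (x := r)
  refine this (Set.mem_Iio.2 hj) (Set.mem_Iio.2 hk) ?_
  show β^[j] r = β^[k] r
  rw [Perm.iterate_eq_pow, Perm.iterate_eq_pow]
  exact h

theorem exists_pow (r y : E) (h : M.bl y = M.bl r) :
    ∃ k < Function.minimalPeriod M.β r, (M.β ^ k) r = y := by
  have h1 : M.β.SameCycle r y := (M.hb r y).1 h.symm
  obtain ⟨n, hn⟩ := h1.exists_nat_pow_eq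
  refine ⟨n % Function.minimalPeriod M.β r, Nat.mod_lt _ (period_pos M.β r), ?_⟩
  have h2 := Function.iterate_mod_minimalPeriod_eq (f := M.β) (x := r) (n := n)
  rw [Perm.iterate_eq_pow, Perm.iterate_eq_pow] at h2
  exact h2.trans hn

end

end QuadStepAux

open QuadStepAux in
theorem QuadStep (hNest : S_Nest) : S_QuadStep := by
  intro E B W _ _ _ _ M hS hP hQ r
  by_cases hfold : ∃ e : E, M.bl e = M.bl r ∧ M.β e ≠ r ∧ M.bl e ≠ M.bl (M.fc e) ∧
      ∀ x y, M.bl x = M.bl e → M.bl y = M.bl (M.fc e) → M.wh x = M.wh y →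
        M.wh x = M.wh e ∨ M.wh x = M.wh (M.β e)
  · exact Or.inl hfold
  right
  set m := Function.minimalPeriod M.β r with hm
  have hm0 : 0 < m := period_pos M.β r
  have hpow0 : (M.β ^ 0) r = r := by simp
  have hne : ∀ i, 0 < i → i < m → (M.β ^ i) r ≠ r := by
    intro i h0 h1 h2
    have := pow_inj M.β r h1 hm0 (h2.trans hpow0.symm)
    omega
  have hm2 : 2 ≤ m := by
    by_contra hlt
    have h1 : m = 1 := by omega
    have h2 := Function.iterate_minimalPeriod (f := M.β) (x := r)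
    rw [← hm, h1] at h2
    exact hQ.nb r h2
  have hwne : ∀ j k, j < m → k < m → M.wh ((M.β ^ j) r) = M.wh ((M.β ^ k) r) → j = k := by
    intro j k hj hk h
    exact pow_inj M.β r hj hk (hS _ _ (by rw [bl_pow, bl_pow]) h)
  have hvs : ∀ i, M.bl (M.fc ((M.β ^ i) r)) ≠ M.bl r := by
    intro i h
    exact bl_fc_ne hS hQ ((M.β ^ i) r) (by rw [h, bl_pow])
  -- the edges from `v_i` to `u_(i+1)` and `u_i`
  have hu1 : ∀ i, M.wh (M.fc ((M.β ^ i) r)) = M.wh ((M.β ^ (i + 1)) r) := by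
    intro i
    rw [wh_fc, β_pow]
  have hu0 : ∀ i, M.wh (M.β (M.fc ((M.β ^ i) r))) = M.wh ((M.β ^ i) r) := fun i =>
    wh_β_fc hQ _
  -- (*)
  have hstar : ∀ i, i + 1 < m → ∃ k < m, ∃ t, M.bl t = M.bl (M.fc ((M.β ^ i) r)) ∧
      M.wh t = M.wh ((M.β ^ k) r) ∧ k ≠ i ∧ k ≠ i + 1 := by
    intro i hi
    by_contra hcon
    apply hfold
    refine ⟨(M.β ^ i) r, bl_pow M r i, ?_, ?_, ?_⟩
    · rw [β_pow]
      exact hne (i + 1) (Nat.succ_pos i) hi
    · rw [bl_pow]
      exact (hvs i).symm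
    · intro x y hx hy hxy
      by_contra hcon2
      rw [not_or] at hcon2
      apply hcon
      obtain ⟨k, hk, rfl⟩ := exists_pow (M := M) r x (by rw [hx, bl_pow])
      refine ⟨k, hk, y, hy, hxy.symm, ?_, ?_⟩
      · rintro rfl
        exact hcon2.1 rfl
      · rintro rfl
        apply hcon2.2
        rw [β_pow]
  -- the minimal pair
  have hex : ∃ d p, 2 ≤ d ∧ p + d < m ∧ ∃ x y, M.bl x = M.bl y ∧ M.bl x ≠ M.bl r ∧
      M.wh x = M.wh ((M.β ^ p) r) ∧ M.wh y = M.wh ((M.β ^ (p + d)) r) := by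
    obtain ⟨k, hk, t, ht1, ht2, h0, h1⟩ := hstar 0 (by omega)
    refine ⟨k, 0, by omega, by omega, M.β (M.fc ((M.β ^ 0) r)), t, ?_, ?_, ?_, ?_⟩
    · rw [bl_β, ht1]
    · rw [bl_β]
      exact hvs 0
    · exact hu0 0
    · rw [ht2, zero_add]
  classical
  let d := Nat.find hex
  obtain ⟨p, hd2, hpm, x, y, hxy, hxs, hxp, hyq⟩ := Nat.find_spec hex
  have hmin : ∀ p' q', p' + 2 ≤ q' → q' < m → (∃ x y, M.bl x = M.bl y ∧ M.bl x ≠ M.bl r ∧
      M.wh x = M.wh ((M.β ^ p') r) ∧ M.wh y = M.wh ((M.β ^ q') r)) → d ≤ q' - p' := by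
    intro p' q' h1 h2 h3
    refine Nat.find_min' hex ⟨p', by omega, by omega, ?_⟩
    rw [show p' + (q' - p') = q' by omega]
    exact h3
  have hd : Nat.find hex = d := rfl
  rw [hd] at hd2 hpm hyq
  clear_value d
  -- the claim
  have hclaim : M.bl (M.fc ((M.β ^ p) r)) = M.bl (M.fc ((M.β ^ (p + 1)) r)) := by
    by_cases hall : ∀ i, p ≤ i → i < p + d → M.bl (M.fc ((M.β ^ i) r)) = M.bl x
    · rw [hall p le_rfl (by omega), hall (p + 1) (by omega) (by omega)]
    · push Not at hall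
      obtain ⟨i, hi1, hi2, hi3⟩ := hall
      obtain ⟨k, hk, t, ht1, ht2, hk1, hk2⟩ := hstar i (by omega)
      have hnest := hNest E B W M hS hP r x y p (p + d) i k t hxy hxs hxp hyq (by omega) hpm hi1
        hi2 hi3 (hvs i) hk ht1 ht2
      by_contra hne'
      rcases lt_or_gt_of_ne hk1 with hlt | hgt
      · -- `k < i`
        have e1 := hmin k (i + 1) (by omega) (by omega)
          ⟨t, M.fc ((M.β ^ i) r), ht1, by rw [ht1]; exact hvs i, ht2, hu1 i⟩
        have e2 : i = k + 1 := by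
          by_contra h
          have := hmin k i (by omega) (by omega)
            ⟨t, M.β (M.fc ((M.β ^ i) r)), by rw [ht1, bl_β], by rw [ht1]; exact hvs i, ht2, hu0 i⟩
          omega
        have e3 : k = p := by omega
        subst e3
        subst e2
        obtain ⟨k', hk', t', ht1', ht2', hk1', hk2'⟩ := hstar k (by omega)
        have := hNest E B W M hS hP r t (M.β (M.fc ((M.β ^ (k + 1)) r))) k (k + 1) k k' t'
          (by rw [ht1, bl_β]) (by rw [ht1]; exact hvs _) ht2 (hu0 (k + 1)) (by omega) (by omega)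
          le_rfl (by omega) (by rw [ht1]; exact hne') (hvs k) hk' ht1' ht2'
        omega
      · -- `i + 1 < k`
        have hgt2 : i + 2 ≤ k := by omega
        have e1 := hmin i k hgt2 hk
          ⟨M.β (M.fc ((M.β ^ i) r)), t, by rw [ht1, bl_β], by rw [bl_β]; exact hvs i, hu0 i, ht2⟩
        have e2 : k = i + 2 := by
          by_contra h
          have := hmin (i + 1) k (by omega) hk
            ⟨M.fc ((M.β ^ i) r), t, ht1.symm, hvs i, hu1 i, ht2⟩
          omega
        have e3 : i = p := by omega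
        subst e3
        subst e2
        obtain ⟨k', hk', t', ht1', ht2', hk1', hk2'⟩ := hstar (i + 1) (by omega)
        have := hNest E B W M hS hP r (M.fc ((M.β ^ i) r)) t (i + 1) (i + 2) (i + 1) k' t'
          ht1.symm (hvs i) (hu1 i) ht2 (by omega) (by omega)
          le_rfl (by omega) (fun h => hne' h.symm) (hvs (i + 1)) hk' ht1' ht2'
        omega
  -- conclusion
  have hωx : M.ω ((M.β ^ (p + 1)) r) = M.fc ((M.β ^ p) r) := by
    show _ = M.ω (M.β ((M.β ^ p) r))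
    rw [β_pow]
  have heq : M.ω ((M.β ^ (p + 1)) r) = M.β (M.fc ((M.β ^ (p + 1)) r)) := by
    apply hS
    · rw [hωx, bl_β, hclaim]
    · rw [wh_ω, hu0]
  have hsymm : M.β.symm ((M.β ^ (p + 1)) r) = (M.β ^ p) r := by
    rw [Equiv.symm_apply_eq, β_pow]
  refine ⟨(M.β ^ (p + 1)) r, ?_, ?_, bl_pow M r _, hne _ (Nat.succ_pos p) (by omega), ?_, ?_, ?_,
    ?_, ?_⟩
  · rw [heq]
    exact ω_β_fc hQ _
  · rw [hωx, bl_pow]
    exact hvs p
  · rw [β_pow]
    exact hne _ (by omega) (by omega)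
  · rw [β_pow, β_pow]
    intro h
    have h1 : (M.β ^ (p + 1)) ((M.β ^ 2) r) = (M.β ^ (p + 1)) r := by
      rw [← Perm.mul_apply, ← pow_add]
      exact h
    exact hne 2 (by omega) (by omega) ((M.β ^ (p + 1)).injective h1)
  · rw [hsymm]
    intro h
    have := hwne p (p + 1) (by omega) (by omega) h
    omega
  · exact ⟨M.β (M.fc ((M.β ^ p) r)), by rw [bl_β, hωx], by rw [hsymm, hu0]⟩
  · exact ⟨M.fc ((M.β ^ (p + 1)) r), by rw [hωx, hclaim], by rw [hu1, β_pow]⟩

end PanD
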