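import Pool.Agent.Lib.MP_e6972d_co.Spec

/-!
# Realise: two forests give a short/long realization in the plane
-/

namespace PanD

open Equiv Finset

namespace RealiseAux

theorem exists_low {α : Type} [Finite α] (f : α → ℝ) (hf : ∀ a, 0 < f a) :
    ∃ d : ℝ, 0 < d ∧ ∀ a, d ≤ f a := by
  rcases isEmpty_or_nonempty α with h | h
  · exact ⟨1, one_pos, fun a => (h.false a).elim⟩
  · obtain ⟨a0, h0⟩ := Finite.exists_min f
    exact ⟨f a0, hf a0, h0⟩

theorem exists_up {α : Type} [Finite α] (f : α → ℝ) :
    ∃ K : ℝ, 0 ≤ K ∧ ∀ a, f a ≤ K := by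
  rcases isEmpty_or_nonempty α with h | h
  · exact ⟨0, le_refl _, fun a => (h.false a).elim⟩
  · obtain ⟨a0, h0⟩ := Finite.exists_max f
    exact ⟨max (f a0) 0, le_max_right _ _, fun a => (h0 a).trans (le_max_left _ _)⟩

/-- the perturbation step -/
theorem perturb {V : Type} [Fintype V] [DecidableEq V] (G : SimpleGraph V) (col : V → Bool)
    (hcol : ∀ u v, G.Adj u v → col u ≠ col v) (S : Set (Sym2 V)) (x y : V → ℝ)
    (hy : ∀ u v, col u = col v → y u = y v → u = v)
    (hD : ∀ b w, G.Adj b w → col b = true →
      (s(b, w) ∈ S ∧ 2 * (x w - x b) + (y w - y b) ^ 2 < 0) ∨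
      (s(b, w) ∉ S ∧ 0 < 2 * (x w - x b) + (y w - y b) ^ 2)) :
    ∃ p : V → EuclideanSpace ℝ (Fin 2), Function.Injective p ∧
      ∃ δ : ℝ, 0 < δ ∧ ∀ u v, G.Adj u v → (s(u, v) ∈ S ↔ dist (p u) (p v) ≤ δ) := by
  classical
  obtain ⟨K, hK0, hK⟩ := exists_up (fun q : V × V => |x q.1 - x q.2|)
  obtain ⟨d, hd0, hd⟩ := exists_low (fun q : V × V =>
    if 2 * (x q.2 - x q.1) + (y q.2 - y q.1) ^ 2 = 0 then 1 else
      |2 * (x q.2 - x q.1) + (y q.2 - y q.1) ^ 2|) (by
    intro q
    split_ifs with h
    · exact one_pos
    · exact abs_pos.2 h)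
  -- epsilon
  obtain ⟨ε, hε0, hε1, hε2⟩ : ∃ ε : ℝ, 0 < ε ∧ ε * K < 1 ∧ ε * K ^ 2 < d := by
    refine ⟨min (1 / (K + 1)) (d / (K ^ 2 + 1)), ?_, ?_, ?_⟩
    · apply lt_min
      · positivity
      · positivity
    · have h1 : min (1 / (K + 1)) (d / (K ^ 2 + 1)) ≤ 1 / (K + 1) := min_le_left _ _
      calc min (1 / (K + 1)) (d / (K ^ 2 + 1)) * K ≤ 1 / (K + 1) * K :=
            mul_le_mul_of_nonneg_right h1 hK0
        _ < 1 := by
            rw [one_div, inv_mul_lt_iff₀ (by positivity)]
            linarith
    · have h1 : min (1 / (K + 1)) (d / (K ^ 2 + 1)) ≤ d / (K ^ 2 + 1) := min_le_right _ _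
      calc min (1 / (K + 1)) (d / (K ^ 2 + 1)) * K ^ 2 ≤ d / (K ^ 2 + 1) * K ^ 2 :=
            mul_le_mul_of_nonneg_right h1 (by positivity)
        _ < d := by
            rw [div_mul_eq_mul_div, div_lt_iff₀ (by positivity)]
            nlinarith
  have hKx : ∀ u v, (x u - x v) ^ 2 ≤ K ^ 2 := by
    intro u v
    have h1 : |x u - x v| ≤ K := hK (u, v)
    rw [← sq_abs]
    exact pow_le_pow_left₀ (abs_nonneg _) h1 2
  set p : V → EuclideanSpace ℝ (Fin 2) := fun v =>
    !₂[(if col v = true then (0 : ℝ) else 1) + ε * x v, Real.sqrt ε * y v] with hp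
  have hs : 0 < Real.sqrt ε := Real.sqrt_pos.2 hε0
  have hss : Real.sqrt ε ^ 2 = ε := Real.sq_sqrt hε0.le
  refine ⟨p, ?_, 1, one_pos, ?_⟩
  · intro u v huv
    have h0 : (if col u = true then (0 : ℝ) else 1) + ε * x u =
        (if col v = true then (0 : ℝ) else 1) + ε * x v := by
      have := congrArg (fun q : EuclideanSpace ℝ (Fin 2) => q 0) huv
      simpa [hp] using this
    have h1 : Real.sqrt ε * y u = Real.sqrt ε * y v := by
      have := congrArg (fun q : EuclideanSpace ℝ (Fin 2) => q 1) huv
      simpa [hp, hs.ne'] using this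
    have h2 : y u = y v := mul_left_cancel₀ hs.ne' h1
    by_cases hc : col u = col v
    · exact hy u v hc h2
    · exfalso
      have h3 : |x u - x v| ≤ K := hK (u, v)
      have h4 : |ε * (x u - x v)| < 1 := by
        rw [abs_mul, abs_of_pos hε0]
        exact lt_of_le_of_lt (mul_le_mul_of_nonneg_left h3 hε0.le) hε1
      rw [abs_lt] at h4
      rcases Bool.eq_false_or_eq_true (col u) with hu | hu <;>
        rcases Bool.eq_false_or_eq_true (col v) with hv | hv
      · exact hc (hu.trans hv.symm)
      · rw [hu, hv] at h0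
        simp only [if_true, Bool.false_eq_true, if_false] at h0
        linarith [h4.1, h4.2]
      · rw [hu, hv] at h0
        simp only [if_true, Bool.false_eq_true, if_false] at h0
        linarith [h4.1, h4.2]
      · exact hc (hu.trans hv.symm)
  · have key : ∀ b w, G.Adj b w → col b = true → (s(b, w) ∈ S ↔ dist (p b) (p w) ≤ 1) := by
      intro b w hbw hb
      have hw : col w = false := by
        rcases Bool.eq_false_or_eq_true (col w) with h | h
        · exact absurd (hb.trans h.symm) (hcol b w hbw)
        · exact h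
      have hdist : dist (p b) (p w) = Real.sqrt (1 + ε * ((2 * (x w - x b) + (y w - y b) ^ 2) +
          ε * (x w - x b) ^ 2)) := by
        rw [EuclideanSpace.dist_eq, Fin.sum_univ_two]
        congr 1
        simp only [hp, hb, hw, Real.dist_eq, sq_abs]
        simp only [if_true, Bool.false_eq_true, if_false]
        simp only [Matrix.cons_val_zero, Matrix.cons_val_one]
        linear_combination (y b - y w) ^ 2 * hss
      have hdd := hd (b, w)
      have hX := hKx w b
      have hX2 : ε * (x w - x b) ^ 2 < d :=
        lt_of_le_of_lt (mul_le_mul_of_nonneg_left hX hε0.le) hε2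
      have hX3 : 0 ≤ ε * (x w - x b) ^ 2 := by positivity
      rcases hD b w hbw hb with ⟨h1, h2⟩ | ⟨h1, h2⟩
      · refine ⟨fun _ => ?_, fun _ => h1⟩
        rw [hdist]
        rw [Real.sqrt_le_one]
        dsimp only at hdd
        rw [if_neg h2.ne, abs_of_neg h2] at hdd
        have : ε * ((2 * (x w - x b) + (y w - y b) ^ 2) + ε * (x w - x b) ^ 2) ≤ 0 := by
          apply mul_nonpos_of_nonneg_of_nonpos hε0.le
          linarith
        linarith
      · refine ⟨fun h => absurd h h1, fun h => ?_⟩
        exfalso
        rw [hdist] at h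
        rw [Real.sqrt_le_one] at h
        have : 0 < ε * ((2 * (x w - x b) + (y w - y b) ^ 2) + ε * (x w - x b) ^ 2) := by
          apply mul_pos hε0
          linarith
        linarith
    intro u v huv
    rcases Bool.eq_false_or_eq_true (col u) with hu | hu
    · exact key u v huv hu
    · have hv : col v = true := by
        rcases Bool.eq_false_or_eq_true (col v) with h | h
        · exact h
        · exact absurd (hu.trans h.symm) (hcol u v huv)
      rw [Sym2.eq_swap, dist_comm]
      exact key v u huv.symm hv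

end RealiseAux

open RealiseAux in
theorem Realise : S_Realise := by
  intro V _ _ G col hcol pos hinj hpot1 hpot2 S
  classical
  obtain ⟨t, ht⟩ := hpot1 (fun b w => if s(b, w) ∈ S then 0 else 1)
  obtain ⟨a, ha⟩ := hpot2 (fun b w => if s(b, w) ∈ S then -1 else 1)
  -- ranks
  set ρ : V → ℕ := fun v => (univ.filter (fun u => pos u < pos v)).card with hρ
  have hρlt : ∀ u v, pos u < pos v → ρ u < ρ v := by
    intro u v huv
    apply Finset.card_lt_card
    rw [Finset.ssubset_iff_of_subset]
    · exact ⟨u, by simp [huv], by simp⟩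
    · intro z hz
      simp only [mem_filter, mem_univ, true_and] at hz ⊢
      exact hz.trans huv
  have hρinj : ∀ u v, ρ u = ρ v → u = v := by
    intro u v huv
    rcases lt_trichotomy (pos u) (pos v) with h | h | h
    · exact absurd huv (hρlt u v h).ne
    · exact hinj h
    · exact absurd huv (hρlt v u h).ne'
  obtain ⟨K, hK0, hK⟩ := exists_up (fun q : V × V => |(a q.1 : ℝ) - a q.2|)
  set T : ℝ := K + 3 with hT
  have hT3 : 3 ≤ T := by linarith
  have hT0 : 0 < T := by linarith
  have haT : ∀ u v, |(a u : ℝ) - a v| < 2 * T := by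
    intro u v
    have := hK (u, v)
    dsimp only at this
    linarith
  set sg : V → ℝ := fun v => if Even (t v) then 1 else -1 with hsg
  have hsg2 : ∀ v, sg v = 1 ∨ sg v = -1 := by
    intro v
    simp only [hsg]
    split_ifs
    · exact Or.inl rfl
    · exact Or.inr rfl
  set P : V → ℝ := fun v => if col v = true then (T ^ ρ v)⁻¹ else T ^ ρ v with hP
  have hPpos : ∀ v, 0 < P v := by
    intro v
    simp only [hP]
    split_ifs <;> positivity
  set y : V → ℝ := fun v => sg v * P v with hy
  have hyabs : ∀ v, |y v| = P v := by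
    intro v
    simp only [hy, abs_mul]
    rcases hsg2 v with h | h <;> rw [h] <;> simp [abs_of_pos (hPpos v)]
  have hTpow : ∀ m n : ℕ, T ^ m = T ^ n → m = n := by
    intro m n hmn
    exact pow_right_injective₀ hT0 (by linarith) hmn
  apply perturb G col hcol S
    (fun v => if col v = true then ((a v : ℝ) + y v ^ 2) / 2 else ((a v : ℝ) - y v ^ 2) / 2) y
  · intro u v huv h
    have h1 : P u = P v := by rw [← hyabs u, ← hyabs v, h]
    simp only [hP, huv] at h1
    split_ifs at h1
    · exact hρinj u v (hTpow _ _ (inv_injective h1))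
    · exact hρinj u v (hTpow _ _ h1)
  · intro b w hbw hb
    have hw : col w = false := by
      rcases Bool.eq_false_or_eq_true (col w) with h | h
      · exact absurd (hb.trans h.symm) (hcol b w hbw)
      · exact h
    have hDD : 2 * ((if col w = true then ((a w : ℝ) + y w ^ 2) / 2 else ((a w : ℝ) - y w ^ 2) / 2) -
        (if col b = true then ((a b : ℝ) + y b ^ 2) / 2 else ((a b : ℝ) - y b ^ 2) / 2)) +
        (y w - y b) ^ 2 = (a w : ℝ) - a b - 2 * (sg w * sg b * (P w * P b)) := by
      rw [hb, hw]
      simp only [if_true, Bool.false_eq_true, if_false, hy]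
      ring
    have hPb : P b = (T ^ ρ b)⁻¹ := by simp only [hP, hb, if_true]
    have hPw : P w = T ^ ρ w := by simp only [hP, hw, Bool.false_eq_true, if_false]
    have hne : pos b ≠ pos w := fun h => hbw.ne (hinj h)
    have haT' := haT w b
    rw [abs_lt] at haT'
    rw [hDD]
    rcases lt_or_gt_of_ne hne with hlt | hlt
    · -- black first
      have hQ : T ≤ P w * P b := by
        rw [hPb, hPw, ← div_eq_mul_inv, le_div_iff₀ (by positivity)]
        calc T * T ^ ρ b = T ^ (ρ b + 1) := by ring
          _ ≤ T ^ ρ w := pow_le_pow_right₀ (by linarith) (hρlt b w hlt)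
      have ht' := ht b w hbw hb hlt
      by_cases hS : s(b, w) ∈ S
      · left
        refine ⟨hS, ?_⟩
        rw [if_pos hS] at ht'
        have htt : t w = t b := by omega
        have hss : sg w * sg b = 1 := by
          have : sg w = sg b := by simp only [hsg, htt]
          rw [this]
          rcases hsg2 b with h | h <;> rw [h] <;> norm_num
        rw [hss]
        linarith [haT'.1, haT'.2]
      · right
        refine ⟨hS, ?_⟩
        rw [if_neg hS] at ht'
        have htt : t w = t b + 1 := by omega
        have hss : sg w * sg b = -1 := by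
          simp only [hsg, htt]
          by_cases he : Even (t b)
          · have : ¬ Even (t b + 1) := by rw [Int.even_add_one]; exact fun h => h he
            rw [if_neg this, if_pos he]; norm_num
          · have : Even (t b + 1) := by rw [Int.even_add_one]; exact he
            rw [if_pos this, if_neg he]; norm_num
        rw [hss]
        linarith [haT'.1, haT'.2]
    · -- white first
      have hQ : P w * P b ≤ 1 / 3 := by
        rw [hPb, hPw, ← div_eq_mul_inv, div_le_iff₀ (by positivity)]
        have h1 : T ^ (ρ w + 1) ≤ T ^ ρ b := pow_le_pow_right₀ (by linarith) (hρlt w b hlt)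
        have h2 : T ^ (ρ w + 1) = T ^ ρ w * T := by ring
        have h3 : 0 < T ^ ρ w := by positivity
        nlinarith
      have hQ0 : 0 < P w * P b := mul_pos (hPpos w) (hPpos b)
      have hss : sg w * sg b = 1 ∨ sg w * sg b = -1 := by
        rcases hsg2 w with h | h <;> rcases hsg2 b with h' | h' <;> rw [h, h'] <;> norm_num
      have ha' := ha b w hbw hb hlt
      by_cases hS : s(b, w) ∈ S
      · left
        refine ⟨hS, ?_⟩
        rw [if_pos hS] at ha'
        have haa : (a w : ℝ) - a b = -1 := by exact_mod_cast ha'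
        rw [haa]
        rcases hss with h | h <;> rw [h] <;> linarith
      · right
        refine ⟨hS, ?_⟩
        rw [if_neg hS] at ha'
        have haa : (a w : ℝ) - a b = 1 := by exact_mod_cast ha'
        rw [haa]
        rcases hss with h | h <;> rw [h] <;> linarith

end PanD
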