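import Pool.Agent.Lib.MP_e6972d_co.Defs

/-!
# MP_e6972d_co (c): every planar bipartite graph is pandichotomous in the plane

Every `def S_Foo : Prop` below is one Lean task: write `Pool/Agent/Lib/MP_e6972d_co/Foo.lean`
containing `theorem Foo (hypotheses : S_...) : S_Foo` in the namespace `PanD`; the allowed
hypotheses are listed in the docstring (other `S_...`).  `Core.lean` contains the lemmas on
permutations (`delP`, `insP`, `sameCycle_iff_closed`, `SameCycle.mem_closed`, `eq_of_sameCycle`,
`merge_sameCycle`), `Defs.lean` the definitions.  We write `s ~ w` for adjacency, `π = fc`.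

In a `BMap`, edge `e` has the black end `bl e` and the white end `wh e`; the face of `e` (its
`π`-cycle) contains the black corner between `e` and `β e` and, in this order,
`bl e -(β e)- wh (β e) -(π e)- bl (π e) -(β (π e))- wh (β (π e)) - ...`, because
`π e = ω (β e)` and `β e` have the same white end and `π e`, `β (π e)` the same black end.
-/

namespace PanD

open Equiv Finset

/-- **Basic.**
(1) `π = fc` is injective, and `π (β.symm (ω.symm x)) = x`.
(2) boundaries are cycles: if `h` is constant on faces then `x ↦ h x + h (β⁻¹ x)` is a cycle.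
PROOF. Sum over the edges at a black vertex `b`: `Σ h x + Σ h (β⁻¹ x)`; the second sum is the first
one, reindexed by `β` (which preserves `bl`); so the sum is `2 Σ h x = 0`.  At a white vertex: use
`h (β⁻¹ x) = h (ω x)` (because `ω x = π (β⁻¹ x)`) and reindex by `ω`.
(3) the dual map: `dual` has the face permutation `π⁻¹`, is planar, simple, connected iff `M` is.
PROOF. `(ω⁻¹, β⁻¹)`: `π' = β⁻¹ ω⁻¹ = π⁻¹`; if `z x = h x + h (β⁻¹ x)` with `h` constant on faces then
`h (β⁻¹ x) = h (ω x) = h (β'⁻¹ x)`. -/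
def S_Basic : Prop :=
  ∀ (E B W : Type) [Fintype E] [DecidableEq E] [DecidableEq B] [DecidableEq W] (M : BMap E B W),
    (∀ h : E → ZMod 2, (∀ e, h (M.fc e) = h e) → M.Cyc (fun x => h x + h (M.β.symm x))) ∧
    (M.Planar → M.dual.Planar) ∧ (M.Simple → M.dual.Simple) ∧ (M.Conn → M.dual.Conn)

/-- **DelPlanar.**  Deleting an edge preserves planarity and simplicity.
PROOF. Let `z` be a cycle of `M.del d`; extended by `0` it is a cycle of `M`, so there is `h` on `E`
with `h ∘ π = h` and `z x = h x + h (β⁻¹ x)`; from `z d = 0` we get `h d = h (β⁻¹ d)` (in `ZMod 2`).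
The restriction `h'` of `h` works for `M.del d`.  Put `β' = delP β d`, `ω' = delP ω d` (`delP_val`).
`h (ω d) = h (π (β⁻¹ d)) = h (β⁻¹ d) = h d`.  `π' x = ω' (β' x)`: if `β x ≠ d` and `ω (β x) ≠ d`
it is `π x`; if `β x ≠ d`, `ω (β x) = d` it is `ω d` and `h (ω d) = h d = h (π x) = h x`; if
`β x = d` then `β' x = β d` and `x = β⁻¹ d`, `h x = h d`; if `ω (β d) ≠ d` then
`π' x = ω (β d) = π d`, fine; if `ω (β d) = d` then `π' x = ω d` and `h (ω d) = h d = h x`.
`β'⁻¹ x = β⁻¹ x` unless `β⁻¹ x = d`, when it is `β⁻¹ d` and `h (β⁻¹ d) = h d = h (β⁻¹ x)`. -/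
def S_DelPlanar : Prop :=
  ∀ (E B W : Type) [Fintype E] [DecidableEq E] [DecidableEq B] [DecidableEq W] (M : BMap E B W)
    (d : E), (M.Planar → (M.del d).Planar) ∧ (M.Simple → (M.del d).Simple)

/-- **ChordPlanar.**  Allowed hypothesis: `S_Basic`.
Adding a chord inside a face preserves planarity, simplicity (if its ends are not adjacent),
connectedness.
PROOF of planarity. `β' = insP β e`, `ω' = insP ω (β g)`, `π' = ω' ∘ β'`.  Suppose first that
`e ≠ g`: `π' (some e) = some (π g)`, `π' (some g) = none`, `π' none = some (π e)`, and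
`π' (some x) = some (π x)` for the other `x`; if `e = g`: `π' (some e) = some (π e)`,
`π' none = none`.  Let `z` be a cycle of the new map.
If `z none = 0`, its restriction is a cycle of `M`, get `h`; put `h' (some x) = h x`,
`h' none = h e`.  It is constant along `π'` because `h e = h g` (same face, `eq_of_sameCycle`), and
`z x = h' x + h' (β'⁻¹ x)` (`β'⁻¹ none = some e`, `β'⁻¹ (some (β e)) = none`).
If `z none = 1`: let `k ≥ 1` be the minimal period of `π` at `e` (`Function.minimalPeriod`), and
`g = π^j e` with `j < k`; let `S = {some (π^i e) : j < i ≤ k}` (it contains `some e` (`i = k`), not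
`none`).  `S` is closed under `π'`: `some e ↦ some (π g) = some (π^(j+1) e)`; for `j < i < k` the
edge `x = π^i e` is neither `e` nor `g`, so `some x ↦ some (π^(i+1) e)`.  A closed set of a
permutation of a finite set is invariant, so the indicator `h₀` of `S` is constant along `π'`, and
by `S_Basic` `z₀ x = h₀ x + h₀ (β'⁻¹ x)` is a cycle; `z₀ none = h₀ none + h₀ (some e) = 1`.  Apply the
first case to `z + z₀` (cycles are closed under addition). -/
def S_ChordPlanar : Prop :=
  ∀ (E B W : Type) [Fintype E] [DecidableEq E] [DecidableEq B] [DecidableEq W] (M : BMap E B W)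
    (e g : E), M.fp.SameCycle e g →
    (M.Planar → (M.chord e g).Planar) ∧
    (M.Simple → (∀ x, ¬ (M.bl x = M.bl e ∧ M.wh x = M.wh (M.β g))) → (M.chord e g).Simple) ∧
    (M.Conn → (M.chord e g).Conn) ∧ (M.chord e g).nv = M.nv

/-- **ChordT.**  Good positions for the map with a chord are good for the map.
PROOF. The same positions.  `rot`: if `β x ≠ r` and `x ≠ e`, then `β' (some x) = some (β x)`.  If
`x = e`: `β' (some e) = none`, `β' none = some (β e)`, so
`pw (wh e) < pw (wh none) < pw (wh (β e))`.  `pot1`, `pot2`: extend `c` by `0` to `none`. -/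
def S_ChordT : Prop :=
  ∀ (E B W : Type) [Fintype E] [DecidableEq E] [DecidableEq B] [DecidableEq W] (M : BMap E B W)
    (e g r : E), (M.chord e g).T (some r) → M.T r

/-- **MergePlanar.**  `e, β e, e' = π e, f' = β e'` is a quadrangular face (`π e' = e`), with
different black ends; merging its two black vertices preserves planarity.
PROOF. `β₁ = β ∘ swap e e'`, `ω₁ = ω`, so `π₁ = π ∘ swap e e'` fixes `e` and `e'` and agrees with `π`
elsewhere.  Let `z` be a cycle of the merged map and `δ` the sum of `z` over the edges with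
`bl x = bl e`; since the sum over all edges with `bl x ∈ {bl e, bl e'}` is `0`, `δ` is also the sum
over the edges with `bl x = bl e'`.  If `δ = 0` then `z` is a cycle of `M`: take its `h`; it is
constant along `π₁`, and `h (β₁⁻¹ x) = h (swap e e' (β⁻¹ x)) = h (β⁻¹ x)` since
`h e = h (π e) = h e'`.  If `δ = 1`: let `p` be the indicator of `{e, f'}`, `f' = β e'`
(`f' ≠ e`: different black ends).  `z + p` is a cycle of `M` (`e`, `f'` have the same white end:
`ω f' = π e' = e`), with `δ = 0`, so it is of the form `h x + h (β₁⁻¹ x)`; and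
`p x = h₁ x + h₁ (β₁⁻¹ x)` with `h₁` the indicator of `e` (`β₁ e = β e' = f'`), which is constant along
`π₁`. -/
def S_MergePlanar : Prop :=
  ∀ (E B W : Type) [Fintype E] [DecidableEq E] [DecidableEq B] [DecidableEq W] (M : BMap E B W)
    (e : E) (h : M.bl e ≠ M.bl (M.fc e)), M.fc (M.fc e) = e → M.Planar →
      (M.merge e (M.fc e) h).Planar

/-- **FoldRed.**  Allowed hypotheses: `S_DelPlanar, S_MergePlanar`.
Folding a quadrangular face `e, β e, e' = π e, f' = β e'` with black vertices `s = bl e`,
`v = bl e'`, white vertices `b = wh e = wh f'`, `a = wh (β e) = wh e'`: `s` and `v` are merged and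
`f'`, `e'` deleted; here `b` and `a` are the only common neighbours of `s` and `v`.
`M' = ((M.merge e e' h).del f').del e'`, `E' = {y : {x // x ≠ f'} // y ≠ ⟨e', _⟩}`
(`e' ≠ f'` because `ω f' = e` and `β e' = f'`: if `e' = f'` then `wh e' = wh e`, i.e. `a = b` and
`β e = e` by simplicity, then `π e = ω e`, ..., impossible: see the hypothesis `M.β e ≠ e`, from which
`a ≠ b`).  `ι : E' → E` is the inclusion.
PROOF. Planar: `S_MergePlanar` and `S_DelPlanar` twice.  Simple: let `x, y` be edges of `M'` with the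
same ends; if `bl x = bl y` in `M`, done; otherwise e.g. `bl x = s`, `bl y = v`, so `wh x = wh y` is a
common neighbour, `= b` or `a`, and `y = f'` or `y = e'` by simplicity of `M`: excluded.
Conn: let `ρ : E → E'` be `f' ↦ e`, `e' ↦ β e`, and the identity elsewhere (`e`, `β e` are at `s ≠ v`,
so different from `f'`, `e'`); `x` and `ρ x` have the same ends in the merged map.  If `S` is
nonempty and closed in `M'` then `ρ⁻¹ S` is nonempty and closed in `M`, so it is everything.
`nv`: the new set of black ends is contained in the old one and does not contain `v`.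
The last properties: `β₁ e = f'` and `β₁ e' = β e` for `β₁ = β ∘ swap e e'`; deletion of `f'` and `e'`
short-cuts them (`delP_val`). -/
def S_FoldRed : Prop :=
  ∀ (E B W : Type) [Fintype E] [DecidableEq E] [DecidableEq B] [DecidableEq W] (M : BMap E B W),
    M.Simple → M.Planar → M.Conn → ∀ e : E, M.fc (M.fc e) = e → M.bl e ≠ M.bl (M.fc e) →
    M.β e ≠ e →
    (∀ x y, M.bl x = M.bl e → M.bl y = M.bl (M.fc e) → M.wh x = M.wh y →
      M.wh x = M.wh e ∨ M.wh x = M.wh (M.β e)) →
    ∃ (E' : Type) (_ : Fintype E') (_ : DecidableEq E') (M' : BMap E' B W) (ι : E' → E),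
      M'.Simple ∧ M'.Planar ∧ M'.Conn ∧ M'.nv < M.nv ∧
      Function.Injective ι ∧
      (∀ x, (∃ y, ι y = x) ↔ x ≠ M.fc e ∧ x ≠ M.β (M.fc e)) ∧
      (∀ y, M'.bl y = if M.bl (ι y) = M.bl (M.fc e) then M.bl e else M.bl (ι y)) ∧
      (∀ y, M'.wh y = M.wh (ι y)) ∧
      (∀ y, ι y ≠ e → M.β (ι y) ≠ M.fc e → ι (M'.β y) = M.β (ι y)) ∧
      (∀ y, ι y ≠ e → M.β (ι y) = M.fc e → ι (M'.β y) = M.β e) ∧
      (∀ y, ι y = e → M.β (M.β (M.fc e)) ≠ M.fc e → ι (M'.β y) = M.β (M.β (M.fc e))) ∧
      (∀ y, ι y = e → M.β (M.β (M.fc e)) = M.fc e → ι (M'.β y) = M.β e)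

/-- **FoldLift.**  Good positions of the folded map give good positions of `M`.
Notation as in `S_FoldRed`: `s = bl e = bl r`, `e' = π e`, `f' = β e'`, `v = bl e'`,
`b = wh e = wh f'` (because `ω f' = π e' = e`), `a = wh (β e) = wh e'`.
PROOF. Let `pb°, pw°` be good for `M'`.  `s` is first.  Let `q` be greater than `pw° b` and smaller
than all the positions (of all vertices, black or white) greater than `pw° b`, and not a position;
`pb = update pb° v q`, `pw = pw°`.  Injectivity etc. are clear.  `firstb`, `firstw`: clear, as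
`q > pw° b > pb° s`.
(A) The edges of `v` are `e', f' = β e', β² e', ..., β^(n-1) e'` (`n` the period); call
`x_i = β^i f'`, `i ≥ 1`, `x_i ≠ e'` for `1 ≤ i < n - 1`... the block.  By induction along the block
`pw b < pw (wh x_i)`, from `rot` of `M'` (all these edges are at `s` in `M'`, their `β'`-successors are
never the root since `r` is at `s` in `M` and `β e ≠ r`): `β' e = x_1` or `β e`;
`β' x_i = x_(i+1)`, or `β e` if `x_(i+1) = e'`.  So also `pw b < pw a`.  Formally: let `S` be the set
of the edges `x` of `M` with `x = e'` or [`x` at `v` and (`x = f'` or `pw b < pw (wh x)`)] and show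
that `S` is closed under `β`; in the end every edge `x ≠ f'` at `v` satisfies
`pw b < pw (wh x)`, including `e'` (with `a`): the last edge before `e'`, or `e` itself, has
`β'`-successor `β e`, whose white end is `a`.
(B) `rot` of `M`: for `x` at `s`, `β x ≠ r`: if `x ≠ e`, `β' x = β x` (`β x ≠ e'` since `β x` is at
`s`).  If `x = e`: `pw b < pw a` by (A).
(C) The edges with the black end first in `M`: those not at `v` have the same status as in `M'`; at
`v`: all except `f'` (as `q` is right after `b` and `pw (wh x) > pw b`); `f'` has the white end first.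
In `M'` the edges of `v` are at `s`, so they all have the black end first (`firstw`).
`pot1`: given `c`, apply `pot1` of `M'` to `c°`, `c° x = c x` for `x` not at `v`, `c° x = c x +
c (β e) - c e'` for `x` at `v`; get `tb°, tw°`; put `tw = tw°`, `tb v = tb° s + c (β e) - c e'`, and
`tb = tb°` elsewhere.  For `x ≠ f', e'` at `v`: `tw (wh x) - tb v = c° x - c (β e) + c e' = c x`; for
`e'`: `tw a - tb v = (tw a - tb° s) - c (β e) + c e' = c e'` since `β e` has the black end first.
`pot2`: `tb v := tw b - c f'`; the other edges with the white end first are not at `v`. -/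
def S_FoldLift : Prop :=
  ∀ (E B W : Type) [Fintype E] [DecidableEq E] [Fintype B] [DecidableEq B] [Fintype W]
    [DecidableEq W] (M : BMap E B W),
    M.Simple → ∀ e r : E, M.fc (M.fc e) = e → M.bl e ≠ M.bl (M.fc e) →
    M.β e ≠ e → M.bl e = M.bl r → M.β e ≠ r →
    ∀ (E' : Type) (M' : BMap E' B W) (ι : E' → E) (r' : E'), ι r' = r →
      Function.Injective ι →
      (∀ x, (∃ y, ι y = x) ↔ x ≠ M.fc e ∧ x ≠ M.β (M.fc e)) →
      (∀ y, M'.bl y = if M.bl (ι y) = M.bl (M.fc e) then M.bl e else M.bl (ι y)) →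
      (∀ y, M'.wh y = M.wh (ι y)) →
      (∀ y, ι y ≠ e → M.β (ι y) ≠ M.fc e → ι (M'.β y) = M.β (ι y)) →
      (∀ y, ι y ≠ e → M.β (ι y) = M.fc e → ι (M'.β y) = M.β e) →
      (∀ y, ι y = e → M.β (M.β (M.fc e)) ≠ M.fc e → ι (M'.β y) = M.β (M.β (M.fc e))) →
      (∀ y, ι y = e → M.β (M.β (M.fc e)) = M.fc e → ι (M'.β y) = M.β e) →
      M'.T r' → M.T r

/-- **TwoRed.**  Allowed hypothesis: `S_DelPlanar`.
Deleting both edges of a white vertex `u` of degree 2, `x` at `s`, `y = ω x` at `v ≠ s`, `ω y = x`,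
where `s` and `v` have a common neighbour `c ≠ u`: `x₁` at `s`, `y₁` at `v`, `wh x₁ = wh y₁ = c`.
`M' = (M.del x).del y`, `ι` the inclusion.
PROOF. Planar, Simple: `S_DelPlanar` twice.  Conn: `ρ x = x₁`, `ρ y = y₁`, the identity elsewhere; if
`S` is nonempty and closed in `M'` then `ρ⁻¹ S` is closed in `M`: edges with the same black end are
mapped to edges with the same black end, edges with the same white end `≠ u` are mapped to
themselves, and `ρ x`, `ρ y` have the same white end.  `nv`: the new set of white ends is contained in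
the old one and does not contain `u` (the edges at `u` form the `ω`-cycle `{x, y}`).
`β'`: `delP_val` twice. -/
def S_TwoRed : Prop :=
  ∀ (E B W : Type) [Fintype E] [DecidableEq E] [DecidableEq B] [DecidableEq W] (M : BMap E B W),
    M.Simple → M.Planar → M.Conn → ∀ x : E, M.ω (M.ω x) = x → M.bl (M.ω x) ≠ M.bl x →
    ∀ x₁ y₁ : E, M.bl x₁ = M.bl x → M.bl y₁ = M.bl (M.ω x) → M.wh x₁ = M.wh y₁ →
    M.wh x₁ ≠ M.wh x →
    ∃ (E' : Type) (_ : Fintype E') (_ : DecidableEq E') (M' : BMap E' B W) (ι : E' → E),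
      M'.Simple ∧ M'.Planar ∧ M'.Conn ∧ M'.nv < M.nv ∧
      Function.Injective ι ∧ (∀ z, (∃ y, ι y = z) ↔ z ≠ x ∧ z ≠ M.ω x) ∧
      (∀ y, M'.bl y = M.bl (ι y)) ∧ (∀ y, M'.wh y = M.wh (ι y)) ∧
      (∀ y, M.bl (ι y) = M.bl x → M.β (ι y) ≠ x → ι (M'.β y) = M.β (ι y)) ∧
      (∀ y, M.bl (ι y) = M.bl x → M.β (ι y) = x → ι (M'.β y) = M.β x)

/-- **TwoLift.**  Good positions of the reduced map of `S_TwoRed` give good positions of `M`, in the
following situation: `s = bl x = bl r`, `x ≠ r`, `β x ≠ r`, `u = wh x`, `y = ω x` at `v ≠ s`,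
`g = β⁻¹ x`, `v` is adjacent to `wh g` (edge `y₁`) and to `wh (β x)` (edge `y₂`), `g ≠ β x`.
PROOF. Let `pb°, pw°` be good for `M'`; `s` is first; by `rot` of `M'`, `pw (wh g) < pw (wh (β x))`
(`β' g = β x ≠ r`).  Claim `pw (wh g) < pb v`: otherwise `pb s < pb v < pw (wh g) < pw (wh (β x))` and
the four edges `g, β x` (at `s`), `y₁, y₂` (at `v`) all have the black end first; for `c` the
indicator of `y₁` (these are 4 different edges of `M'`; `y₁, y₂ ≠ y` since `wh g`, `wh (β x) ≠ u` by
simplicity) `pot1` gives `tw (wh g) - tb s = 0`, `tw (wh (β x)) - tb s = 0`,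
`tw (wh (β x)) - tb v = 0`, `tw (wh g) - tb v = 1`, a contradiction.
Put `u` right after `wh g` (greater, smaller than every larger position, not a position):
`pw = update pw° u q`.  `x` has the black end first (`q > pw (wh g) > pb s`), `y` has the white end
first (`pb v > pw (wh g)`, so `pb v > q`).  All the other edges are not at `u` and have the same
status in `M'`.  `pot1`: `tw u := tb s + c x`; `pot2`: `tw u := tb v + c y`.  `rot`: for `z` at `s`,
`β z ≠ r`: if `z = g`: `pw (wh g) < q = pw (wh x)`; if `z = x`: `q < pw (wh (β x))`; otherwise as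
in `M'`. -/
def S_TwoLift : Prop :=
  ∀ (E B W : Type) [Fintype E] [DecidableEq E] [Fintype B] [DecidableEq B] [Fintype W]
    [DecidableEq W] (M : BMap E B W),
    M.Simple → ∀ x r : E, M.ω (M.ω x) = x → M.bl (M.ω x) ≠ M.bl x → M.bl x = M.bl r →
    x ≠ r → M.β x ≠ r → M.β (M.β x) ≠ x →
    (∃ y₁, M.bl y₁ = M.bl (M.ω x) ∧ M.wh y₁ = M.wh (M.β.symm x)) →
    (∃ y₂, M.bl y₂ = M.bl (M.ω x) ∧ M.wh y₂ = M.wh (M.β x)) →
    ∀ (E' : Type) (M' : BMap E' B W) (ι : E' → E) (r' : E'), ι r' = r →
      Function.Injective ι → (∀ z, (∃ y, ι y = z) ↔ z ≠ x ∧ z ≠ M.ω x) →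
      (∀ y, M'.bl y = M.bl (ι y)) → (∀ y, M'.wh y = M.wh (ι y)) →
      (∀ y, M.bl (ι y) = M.bl x → M.β (ι y) ≠ x → ι (M'.β y) = M.β (ι y)) →
      (∀ y, M.bl (ι y) = M.bl x → M.β (ι y) = x → ι (M'.β y) = M.β x) →
      M'.T r' → M.T r

/-- **Stars.**  Good positions of a star.
PROOF. (B) all edges are at `s = bl r`.  Enumerate them as `β^i r`, `i < n` (`n` the minimal period
of `β` at `r`).  `pb s = 0`, `pw (wh (β^i r)) = i + 1`, the other white vertices get distinct
integers greater than `n`, the other black vertices distinct numbers in `ℕ + 1/2`.  `pot1`: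
`tb = 0`, `tw (wh e) = c e` (well defined: simple).  `pot2`: no such edge.  `rot`: if
`β (β^i r) ≠ r` then `i + 1 < n`.
(W) all edges are at `u = wh r`: `pb s = 0`, `pw u = 1`, the other white vertices get distinct
integers `≥ 2`, the other black ones distinct numbers in `ℕ + 3/2`.  Only `r` has the black end first
(an edge at `s` is `r` by simplicity): `pot1`: `tb = 0`, `tw = c r`.  `pot2`: `tw = 0`,
`tb (bl e) = - c e` (well defined, simple).  `rot`: `bl e = bl r` forces `e = r`, `β r = r`. -/
def S_Stars : Prop :=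
  ∀ (E B W : Type) [Fintype E] [DecidableEq E] [Fintype B] [DecidableEq B] [Fintype W]
    [DecidableEq W] (M : BMap E B W), M.Simple → (M.StarB ∨ M.StarW) → ∀ r, M.T r

/-- **Cross.**  `e₀ = e`, `e₁ = π e`, `e₂ = π² e`, `v_i = bl e_i`, `a₀ = wh (β e₀) = wh e₁`,
`a₁ = wh (β e₁) = wh e₂`.  If `v₀ ~ a₁` (edge `x₁`) and `v₂ ~ a₀` (edge `x₂`), `v₀ ≠ v₁`, `a₀ ≠ a₁`,
`v₁ ≠ v₂`, then `v₂ = v₀`.
PROOF. Suppose `v₂ ≠ v₀`.  The edges `β e₀ = v₀a₀`, `e₁ = v₁a₀`, `β e₁ = v₁a₁`, `x₁ = v₀a₁` are
different and form a 4-cycle; its indicator `z` is a cycle, so `z x = h x + h (β⁻¹ x)`, `h ∘ π = h`.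
Note also `z x = h x + h (ω x)` (as `h (β⁻¹ x) = h (ω x)`).
At `a₀` exactly the edges `β e₀` and `e₁ = ω (β e₀)` are in the cycle.  `h e₁ = h (π e₀) = h e`.
Going around `a₀` from `e₁`: `h (ω e₁) = h e₁ + 1`, and `h (ω y) = h y` for the edges `y` at `a₀`
different from `e₁`, `β e₀`; so `h y = h e + 1` for every edge `y ≠ e₁` at `a₀` (closed set argument:
the set of `y` at `a₀` with `y = e₁` or `h y = h e + 1` is closed under `ω`: `e₁ ↦ ω e₁` has value
`h e + 1`; `y ≠ e₁, β e₀` keeps the value; `β e₀ ↦ e₁`).  `x₂` is at `a₀`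
and at `v₂ ≠ v₁`, so `x₂ ≠ e₁` and `h x₂ = h e + 1`.  At `v₂ ∉ {v₀, v₁}` no edge is in the cycle, so
`h` is constant along `β` there: `h x₂ = h e₂ = h (π² e) = h e`.  Contradiction. -/
def S_Cross : Prop :=
  ∀ (E B W : Type) [Fintype E] [DecidableEq E] [DecidableEq B] [DecidableEq W] (M : BMap E B W),
    M.Simple → M.Planar → ∀ e x₁ x₂ : E,
    M.bl e ≠ M.bl (M.fc e) → M.wh (M.β e) ≠ M.wh (M.β (M.fc e)) →
    M.bl (M.fc e) ≠ M.bl (M.fc (M.fc e)) →
    M.bl x₁ = M.bl e → M.wh x₁ = M.wh (M.β (M.fc e)) →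
    M.bl x₂ = M.bl (M.fc (M.fc e)) → M.wh x₂ = M.wh (M.β e) →
    M.bl (M.fc (M.fc e)) = M.bl e

/-- **MaxQuad.**  Allowed hypotheses: `S_Basic, S_Cross`.
PROOF. (i) Suppose `β e = e` for some `e`; `a = wh e`.  Every edge `f` in the face of `e` satisfies
`wh (β f) = a`: by `ChordMax` there is `x` with `bl x = bl e`, `wh x = wh (β f)`, and `bl x = bl e`
forces `x = e` (the `β`-cycle of `e` is `{e}`).  So every `f` in the face has `wh f = a` too
(`f = π f'` with `f'` in the face and `wh (π f') = wh (β f')`), so `β f = f` by simplicity, and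
`ω f = ω (β f) = π f` is in the face.  The face of `e` is closed under `β` and `ω`, hence (being
finite, `SameCycle.mem_closed`) under sharing an end; by `Conn` it is everything: all `wh f = a`, StarW.
(ii) `ω e = e`: apply (i) to the dual map (its `ChordMax` is the same condition: the black and the
white vertices of each face are pairwise adjacent; note
`π⁻¹`-cycle of `e`, black corner `e' = β' e = ω⁻¹ e`...; or repeat the argument), StarB.
(iii) No fixed points of `β` and `ω`.  For every `e`: with the notation of `S_Cross`,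
`v₀ ≠ v₁`: otherwise `β e₀` and `e₁` have the same ends, so `ω (β e₀) = e₁ = β e₀`.  `a₀ ≠ a₁`:
otherwise `e₁`, `β e₁` have the same ends.  `v₁ ≠ v₂` similarly.  `ChordMax` gives `x₁`
(from `(e₀, e₁)`: `bl e₀`, `wh (β e₁)`) and `x₂` (from `(e₂, e₀)`).  So `v₂ = v₀`.  Applying
`S_Cross` to the dual map at a suitable edge (or repeating the argument for the walk
`a₀, v₁, a₁, v₂, a₂`): `a₂ = a₀`, where `a₂ = wh (β e₂)`: in the dual map, `bl' = wh`,
`β' = ω⁻¹`, `π' = π⁻¹`; take `e' = e₃ = π e₂`: `bl' e' = wh e₃ = a₂`, `π' e' = e₂`, `bl' e₂ = a₁`,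
`π'² e' = e₁`, `bl' e₁ = a₀`; `wh' (β' e₃) = bl (ω⁻¹ e₃) = bl (β e₂) = v₂`,
`wh' (β' e₂) = bl (β e₁) = v₁`.  Hence `β e₂` and `β e₀` have the same ends (`v₂ = v₀`, `a₂ = a₀`), so
`e₂ = e₀`. -/
def S_MaxQuad : Prop :=
  ∀ (E B W : Type) [Fintype E] [DecidableEq E] [DecidableEq B] [DecidableEq W] (M : BMap E B W),
    M.Simple → M.Planar → M.Conn → M.ChordMax → M.StarB ∨ M.StarW ∨ M.Quad

/-- **Nest.**  `g_i = β^i r`, `i < m` (`m` the minimal period of `β` at `r`), `u_i = wh g_i`; edges
`x`, `y` at `v ≠ s = bl r` with `wh x = u_p`, `wh y = u_q`, `p < q < m`; `p ≤ i < q`, and the black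
vertex `v_i = bl (π g_i)` is `≠ v, s`.  Then all the common neighbours of `v_i` and `s` are among
`u_p, ..., u_q`.
PROOF. The 4-cycle `g_p, x, y, g_q` (different edges): its indicator `z` is a cycle, so
`z t = h t + h (β⁻¹ t)` with `h ∘ π = h`.  Put `H = h g_p`.  At `s` only `g_p` and `g_q` are in the
cycle: `h g_j = H` for `p ≤ j < q`, and `h g_j = H + 1` for the other `j < m` (walk from `q` to
`m`, `g_m = g_0`, to `p - 1`).  At `v_i` no edge is in the cycle, so `h` is constant on the edges at
`v_i`, with the value `h (π g_i) = h g_i = H`.  Let `t` be an edge at `v_i` with `wh t = u_k`,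
`k < m`.  If `k ∉ [p, q]`, then `u_k ≠ u_p, u_q` (simplicity), no edge at `u_k` is in the cycle, so
`h` is constant on the edges at `u_k` (`h t = h (ω t)`, as `h (β⁻¹ t) = h (ω t)`); so
`h t = h g_k = H + 1`, contradicting `h t = H`. -/
def S_Nest : Prop :=
  ∀ (E B W : Type) [Fintype E] [DecidableEq E] [DecidableEq B] [DecidableEq W] (M : BMap E B W),
    M.Simple → M.Planar → ∀ (r x y : E) (p q i k : ℕ) (t : E),
    M.bl x = M.bl y → M.bl x ≠ M.bl r → M.wh x = M.wh ((M.β ^ p) r) →
    M.wh y = M.wh ((M.β ^ q) r) → p < q → q < Function.minimalPeriod M.β r → p ≤ i → i < q →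
    M.bl (M.fc ((M.β ^ i) r)) ≠ M.bl x → M.bl (M.fc ((M.β ^ i) r)) ≠ M.bl r →
    k < Function.minimalPeriod M.β r → M.bl t = M.bl (M.fc ((M.β ^ i) r)) →
    M.wh t = M.wh ((M.β ^ k) r) → p ≤ k ∧ k ≤ q

/-- **QuadStep.**  Allowed hypothesis: `S_Nest`.
A root edge `r` of a quadrangulation: there is either a foldable face at `bl r` (not between
`β⁻¹ r` and `r`) or a white vertex of degree 2, adjacent to `bl r`, not `wh r` and not the last one.
PROOF. Notation of `S_Nest`; `s = bl r`; `v_i = bl (π g_i)`; `m ≥ 2`.  In a quadrangulation without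
leaves `v_i ≠ s` (otherwise `β g_i`, `π g_i = ω (β g_i)` have the same ends, `ω` would have a fixed
point); `v_i` is adjacent to `u_(i+1)` by the edge `π g_i = ω g_(i+1)`, and to `u_i` by the
edge `β (π g_i)`, as `ω (β (π g_i)) = π² g_i = g_i`.
Suppose there is no foldable face, i.e. (*) for every `i` with `i + 1 < m`, `v_i` has a common
neighbour `u_k` with `s`, `k < m`, `k ∉ {i, i+1}`.  Choose `p < q < m`, `q ≥ p + 2`, and `v ≠ s`
adjacent to `u_p`, `u_q` with `q - p` minimal (exists, by (*) for `i = 0`).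
Case 1: some `p ≤ i < q` has `v_i ≠ v`.  By `S_Nest` the common neighbours of `v_i` and `s` are among
`u_p .. u_q`; by (*) there is `k ∈ [p, q]`, `k ≠ i, i+1`, `u_k ~ v_i`.  If `k < i`: `v_i` is adjacent
to `u_k`, `u_i`, `u_(i+1)`, so minimality for `(k, i+1)` gives `i + 1 - k ≥ q - p`, so `k = p`,
`i + 1 = q`; and minimality for `(k, i)` (if `i ≥ k + 2`, then `i - k < q - p`, contradiction)
gives `i = k + 1`: so `q = p + 2`, `i = p + 1`, `v_(p+1)` is adjacent to `u_p, u_(p+1), u_(p+2)`.  If
`k > i + 1`, symmetrically `i = p`, `k = q = p + 2`, and `v_p` is adjacent to `u_p, u_(p+1), u_(p+2)`.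
In both cases let `v'` be this vertex (`v_(p+1)` or `v_p`), and let `j` be the other index in
`{p, p+1}`.  If `v_j ≠ v'`: `S_Nest` for `v'` and `(p', q') = (j, j + 1)` shows that the common
neighbours of `v_j` and `s` are among `u_j, u_(j+1)`, contradicting (*).  So `v_p = v_(p+1)`.
Case 2: `v_i = v` for all `p ≤ i < q`; then `v_p = v_(p+1)` too.
Now let `x = g_(p+1)`, `p + 2 ≤ q < m`: `ω x = π g_p` is the edge from `u_(p+1)` to `v_p`, and
`β (π x)` is the edge from `v_(p+1)` to `u_(p+1)`, so they are equal and `ω (ω x) =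
ω (β (π x)) = π² x = x`.  And `bl (ω x) = v_p` is adjacent to `u_p` (edge `β (π g_p)`) and to
`u_(p+2)` (edge `π g_(p+1)`).  `x ≠ r`, `β x = g_(p+2) ≠ r`, and `β (β x) ≠ x` because `m ≥ 3`. -/
def S_QuadStep : Prop :=
  ∀ (E B W : Type) [Fintype E] [DecidableEq E] [DecidableEq B] [DecidableEq W] (M : BMap E B W),
    M.Simple → M.Planar → M.Quad → ∀ r : E,
    (∃ e : E, M.bl e = M.bl r ∧ M.β e ≠ r ∧ M.bl e ≠ M.bl (M.fc e) ∧
      ∀ x y, M.bl x = M.bl e → M.bl y = M.bl (M.fc e) → M.wh x = M.wh y →
        M.wh x = M.wh e ∨ M.wh x = M.wh (M.β e)) ∨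
    (∃ x : E, M.ω (M.ω x) = x ∧ M.bl (M.ω x) ≠ M.bl x ∧ M.bl x = M.bl r ∧ x ≠ r ∧ M.β x ≠ r ∧
      M.β (M.β x) ≠ x ∧ M.wh (M.β.symm x) ≠ M.wh x ∧
      (∃ y₁, M.bl y₁ = M.bl (M.ω x) ∧ M.wh y₁ = M.wh (M.β.symm x)) ∧
      (∃ y₂, M.bl y₂ = M.bl (M.ω x) ∧ M.wh y₂ = M.wh (M.β x)))

/-- **MainInd.**  Allowed hypotheses: `S_ChordPlanar, S_ChordT, S_FoldRed, S_FoldLift, S_TwoRed,
S_TwoLift, S_Stars, S_MaxQuad, S_QuadStep`.
PROOF. `B`, `W` fixed.  Induction on `(M.nv, card B * card W - card E)` lexicographically (`E`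
varies; for a simple map `card E ≤ card B * card W`).  If `M` is not `ChordMax`, there are `e`, `g` in
the same face with `bl e` and `wh (β g)` not adjacent; `M.chord e g` is simple, planar, connected,
with the same `nv` and one more edge; so it has good positions for `some r`, and `S_ChordT`.  If `M` is
`ChordMax`: `S_MaxQuad`.  Stars: `S_Stars`.  `Quad`: `S_QuadStep`; in the first case `S_FoldRed` and
`S_FoldLift` (`r` is in the range of `ι` since it is at `bl e ≠ bl (π e)`); in the second case
`S_TwoRed` (with `x₁ = β⁻¹ x`, `y₁`) and `S_TwoLift` (`r ≠ x`, and `r ≠ ω x` as their black ends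
differ). -/
def S_MainInd : Prop :=
  ∀ (E B W : Type) [Fintype E] [DecidableEq E] [Fintype B] [DecidableEq B] [Fintype W]
    [DecidableEq W] (M : BMap E B W), M.Simple → M.Planar → M.Conn → ∀ r, M.T r

/-- **Disconn.**  Allowed hypothesis: `S_MainInd`.  The same (without root) for disconnected maps.
PROOF. Strong induction on `card E`.  `E` empty: any positions which are distinct.  If `M` is
connected: `S_MainInd` with any `r`.  Otherwise there is a nonempty `S ≠ univ` closed under sharing an
end, and its complement is closed too.  The restriction `M|S : BMap S B W` (`Perm.subtypePerm`; the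
cycle condition via `sameCycle_iff_closed` or the powers) is simple and planar (extend a cycle by `0`,
restrict `h`), with fewer edges.  So there are weak positions `(pb₁, pw₁)` for `M|S` and
`(pb₂, pw₂)` for `M|Sᶜ`.  Let `K` be larger than all the differences of positions; put
`pb b = pb₁ b + K` if `b` is an end of an edge of `S`, `pb b = pb₂ b` otherwise; the same for `pw`.
The potentials are combined in the same way. -/
def S_Disconn : Prop :=
  ∀ (E B W : Type) [Fintype E] [DecidableEq E] [Fintype B] [DecidableEq B] [Fintype W]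
    [DecidableEq W] (M : BMap E B W), M.Simple → M.Planar → ∃ pb pw, M.Weak pb pw

/-- **Realise.**  A bipartite graph whose vertices are ordered such that both the edges with the
black (`col = true`) end first and the edges with the white end first form forests is
pandichotomous.
PROOF. Let `c b w = 0` if `s(b,w) ∈ S` (short), `1` if not (long).  `hpot1` gives `t : V → ℤ` with
`t w - t b = c b w` for the edges with the black end first; `sg v = (-1)^(t v)`.  `hpot2`, applied to
`2 c - 1`, gives `a : V → ℤ` with `a w - a b = 2 c b w - 1 = ±1` for the edges with the white end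
first.  Let `ρ v ∈ ℕ` be the rank of `pos v` (order preserving injection `V → ℕ`, e.g. the number of
smaller vertices).  For a real `T > 1`, larger than all `|a w - a b| + 2`, put
`y b = sg b * T^(-ρ b)` for black `b`, `y w = sg w * T^(ρ w)` for white `w`.
For an edge `bw` put `D = a w - a b - 2 y_w y_b` (real).  If `b` is first: `|y_w y_b| = T^(ρ w - ρ b) ≥
T` and its sign is `sg w sg b = (-1)^c` (the parity of `t w + t b` is that of `t w - t b = c`), so
`- 2 y_w y_b` is negative for short (`c = 0`), positive for long edges, and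
`|2 y_w y_b| ≥ 2 T > |a w - a b|`, so `D` has the same sign.  If `w` is first: `|2 y_w y_b| ≤ 2 / T < 1
= |a w - a b|`, so `D` has the sign of `a w - a b = 2 c - 1`: negative for short.  (`T ≥ 3`.)
Let `x w = (a w - y w ^2) / 2` for white, `x b = (a b + y b ^ 2) / 2` for black vertices.  For
`ε > 0` let `p b = (ε x b, √ε y b)`, `p w = (1 + ε x w, √ε y w)`.  Then
`dist² = (1 + ε (x w - x b))² + ε (y w - y b)²
 = 1 + ε (2 x w - 2 x b + y w² + y b² - 2 y w y b) + ε² (x w - x b)² = 1 + ε D + ε² (x w - x b)²`.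
For `ε > 0` small (`ε (x w - x b)² < |D|` for all edges, and `ε |x w - x b| < 1` for all pairs), the
sign of `dist² - 1` is that of `D`: short edges have `dist < 1`, long edges `dist > 1`; `δ = 1`.
The points are distinct: black and black, white and white: `|y|` are different (`T > 1`, different
ranks); black and white: the first coordinates differ since `ε |x w - x b| < 1`. -/
def S_Realise : Prop :=
  ∀ (V : Type) [Fintype V] [DecidableEq V] (G : SimpleGraph V) (col : V → Bool)
    (_ : ∀ u v, G.Adj u v → col u ≠ col v) (pos : V → ℚ) (_ : Function.Injective pos)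
    (_ : ∀ c : V → V → ℤ, ∃ t : V → ℤ, ∀ b w, G.Adj b w → col b = true → pos b < pos w →
      t w - t b = c b w)
    (_ : ∀ c : V → V → ℤ, ∃ t : V → ℤ, ∀ b w, G.Adj b w → col b = true → pos w < pos b →
      t w - t b = c b w), Pandichotomous G

/-- **FromGraph.**  A bipartite planar graph gives a simple planar map.
`E = {d : G.Dart // col d.fst = true}`, `bl d = d.fst`, `wh d = d.snd`, `β d = σ d`,
`ω d = (σ d.symm).symm`.
PROOF. `σ` preserves `fst`, so it preserves `E`; `ω` too (`(σ d.symm).symm.snd = (σ d.symm).fst =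
d.symm.fst = d.snd`, and its `fst` is adjacent to it, so it is `true`).  The cycle conditions: powers
of `β` are powers of `σ`, powers of `ω` are `symm ∘ σ^k ∘ symm`.  `Simple`: a dart is determined by
its ends.  `Planar`: a cycle `z` of the map gives the symmetric function `z̃ d = z d` if
`col d.fst`, `z̃ d = z d.symm` otherwise; its vertex sums vanish; so `z̃ d = h d + h d.symm` with
`h (σ d.symm) = h d`.  Put `h' e = h (β e)`.  `h' (π e) = h (σ (π e))`, `π e = (σ (σ e).symm).symm`,
so `h (σ (π e)) = h ((π e).symm)` [apply `h (σ d.symm) = h d` with `d = (π e).symm`]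
`= h (σ (σ e).symm) = h (σ e) = h' e`.  And `h e = h' (β⁻¹ e)`, `h e.symm = h (σ e) = h' e` [apply
`h (σ d.symm) = h d` with `d = e.symm`].  So `z e = h' e + h' (β⁻¹ e)`. -/
def S_FromGraph : Prop :=
  ∀ (V : Type) [Fintype V] [DecidableEq V] (G : SimpleGraph V) [DecidableRel G.Adj]
    (col : V → Bool), (∀ u v, G.Adj u v → col u ≠ col v) → IsPlanar G →
    ∃ (E : Type) (_ : Fintype E) (_ : DecidableEq E) (M : BMap E V V), M.Simple ∧ M.Planar ∧
      (∀ e, col (M.bl e) = true ∧ col (M.wh e) = false ∧ G.Adj (M.bl e) (M.wh e)) ∧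
      (∀ b w, G.Adj b w → col b = true → ∃ e, M.bl e = b ∧ M.wh e = w)

/-- **Final.**  Allowed hypotheses: `S_Disconn, S_Realise, S_FromGraph`.
PROOF. `Colorable 2` gives `col`; `S_FromGraph`, `S_Disconn` (with `B = W = V`):
`pos v = if col v then pb v else pw v`; injective by `injb`, `injw`, `ne`.  `S_Realise`: its potentials
come from `pot1`, `pot2` for `c' e = c (bl e) (wh e)`: `t v = if col v then tb v else tw v`. -/
def S_Final : Prop :=
  ∀ (V : Type) [Fintype V] (G : SimpleGraph V), G.Colorable 2 → IsPlanar G → Pandichotomous G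

end PanD
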