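import Pool.Agent.Lib.MP_e6972d_co.Spec

/-!
# Good positions of a star (`S_Stars`)
-/

set_option autoImplicit false

namespace PanD

open Equiv Finset

namespace StarsAux

variable {E B W : Type}

/-- positions in the natural numbers are enough -/
theorem T_of_nat (M : BMap E B W) (r : E) (pb : B → ℕ) (pw : W → ℕ)
    (h1 : Function.Injective pb) (h2 : Function.Injective pw) (h3 : ∀ b w, pb b ≠ pw w)
    (h4 : M.Pot (fun e => pb (M.bl e) < pw (M.wh e)))
    (h5 : M.Pot (fun e => pw (M.wh e) < pb (M.bl e)))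
    (h6 : ∀ b, b ≠ M.bl r → pb (M.bl r) < pb b) (h7 : ∀ w, pb (M.bl r) < pw w)
    (h8 : ∀ e, M.bl e = M.bl r → M.β e ≠ r → pw (M.wh e) < pw (M.wh (M.β e))) : M.T r := by
  refine ⟨fun b => (pb b : ℚ), fun w => (pw w : ℚ), ⟨?_, ?_, ?_, ?_, ?_⟩, ?_, ?_, ?_⟩
  · intro a b hab
    have hab' : (pb a : ℚ) = (pb b : ℚ) := hab
    exact h1 (by exact_mod_cast hab')
  · intro a b hab
    have hab' : (pw a : ℚ) = (pw b : ℚ) := hab
    exact h2 (by exact_mod_cast hab')
  · intro b w hbw
    apply h3 b w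
    exact_mod_cast hbw
  · intro c
    obtain ⟨tb, tw, h⟩ := h4 c
    exact ⟨tb, tw, fun e he => h e (by exact_mod_cast he)⟩
  · intro c
    obtain ⟨tb, tw, h⟩ := h5 c
    exact ⟨tb, tw, fun e he => h e (by exact_mod_cast he)⟩
  · intro b hb
    exact_mod_cast h6 b hb
  · intro w
    exact_mod_cast h7 w
  · intro e he her
    exact_mod_cast h8 e he her

/-- an injection into the natural numbers -/
theorem exists_inj (X : Type) [Fintype X] : ∃ f : X → ℕ, Function.Injective f :=
  ⟨fun x => (Fintype.equivFin X x : ℕ), fun _ _ h =>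
    (Fintype.equivFin X).injective (Fin.ext h)⟩

/-- numbering of the edges along the cycle of `r` -/
theorem exists_index [Fintype E] (M : BMap E B W) (r : E) (hS : M.StarB) :
    ∃ k : E → ℕ, Function.Injective k ∧ ∀ e, M.β e ≠ r → k e < k (M.β e) := by
  classical
  have hex : ∀ e, ∃ n : ℕ, (M.β ^ n) r = e := fun e =>
    ((M.hb r e).1 (hS r e)).exists_nat_pow_eq
  have hk : ∀ e, (M.β ^ (Nat.find (hex e))) r = e := fun e => Nat.find_spec (hex e)
  refine ⟨fun e => Nat.find (hex e), ?_, ?_⟩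
  · intro a b hab
    have h1 := hk a
    have h2 := hk b
    have hab' : Nat.find (hex a) = Nat.find (hex b) := hab
    rw [← h1, hab', h2]
  · intro e he
    change Nat.find (hex e) < Nat.find (hex (M.β e))
    have h1 := hk (M.β e)
    rcases Nat.eq_zero_or_pos (Nat.find (hex (M.β e))) with h0 | h0
    · exfalso
      rw [h0] at h1
      exact he (by simpa using h1.symm)
    · obtain ⟨m, hm⟩ := Nat.exists_eq_succ_of_ne_zero h0.ne'
      rw [hm] at h1 ⊢
      rw [pow_succ', Perm.mul_apply] at h1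
      have h2 : (M.β ^ m) r = e := M.β.injective h1
      exact Nat.lt_succ_of_le (Nat.find_min' (hex e) h2)

theorem bl_β (M : BMap E B W) (e : E) : M.bl (M.β e) = M.bl e :=
  (M.hb _ _).2 (Perm.sameCycle_apply_left.2 (Perm.SameCycle.refl _ _))

/-- labels chosen on one side -/
theorem exists_label {X Y : Type} (f : E → Y) (hf : Function.Injective f) (c : E → X) (x₀ : X) :
    ∃ t : Y → X, (∀ e, t (f e) = c e) ∧ ∀ y, (¬ ∃ e, f e = y) → t y = x₀ := by
  classical
  refine ⟨fun y => if h : ∃ e, f e = y then c h.choose else x₀, ?_, ?_⟩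
  · intro e
    have h : ∃ e', f e' = f e := ⟨e, rfl⟩
    have h1 : h.choose = e := hf h.choose_spec
    change (if h : ∃ e', f e' = f e then c h.choose else x₀) = c e
    rw [dif_pos h, h1]
  · intro y hy
    exact dif_neg hy

theorem caseB [Fintype E] [Fintype B] [DecidableEq B] [Fintype W] (M : BMap E B W)
    (hM : M.Simple) (hS : M.StarB) (r : E) : M.T r := by
  classical
  obtain ⟨k, hk, hk'⟩ := exists_index M r hS
  obtain ⟨ib, hib⟩ := exists_inj B
  obtain ⟨iw, hiw⟩ := exists_inj W
  have hwh : Function.Injective M.wh := fun a b hab => hM a b (hS a b) hab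
  let pb : B → ℕ := fun b => if b = M.bl r then 0 else 4 * ib b + 3
  let pw : W → ℕ := fun w => if h : ∃ e, M.wh e = w then 4 * k h.choose + 1 else 4 * iw w + 2
  have hpb0 : pb (M.bl r) = 0 := if_pos rfl
  have hpb : ∀ b, b ≠ M.bl r → pb b = 4 * ib b + 3 := fun b hb => if_neg hb
  have hpw : ∀ e, pw (M.wh e) = 4 * k e + 1 := by
    intro e
    have h : ∃ e', M.wh e' = M.wh e := ⟨e, rfl⟩
    have h1 : h.choose = e := hwh h.choose_spec
    change (if h : ∃ e', M.wh e' = M.wh e then 4 * k h.choose + 1 else 4 * iw (M.wh e) + 2) = _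
    rw [dif_pos h, h1]
  have hpw' : ∀ w, (¬ ∃ e, M.wh e = w) → pw w = 4 * iw w + 2 := fun w hw => dif_neg hw
  refine T_of_nat M r pb pw ?_ ?_ ?_ ?_ ?_ ?_ ?_ ?_
  · intro a b hab
    by_cases ha : a = M.bl r <;> by_cases hb : b = M.bl r
    · rw [ha, hb]
    · rw [ha, hpb0, hpb b hb] at hab
      omega
    · rw [hb, hpb0, hpb a ha] at hab
      omega
    · rw [hpb a ha, hpb b hb] at hab
      exact hib (by omega)
  · intro a b hab
    by_cases ha : ∃ e, M.wh e = a <;> by_cases hb : ∃ e, M.wh e = b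
    · obtain ⟨e, rfl⟩ := ha
      obtain ⟨f, rfl⟩ := hb
      rw [hpw, hpw] at hab
      rw [hk (by omega : k e = k f)]
    · obtain ⟨e, rfl⟩ := ha
      rw [hpw, hpw' b hb] at hab
      omega
    · obtain ⟨f, rfl⟩ := hb
      rw [hpw, hpw' a ha] at hab
      omega
    · rw [hpw' a ha, hpw' b hb] at hab
      exact hiw (by omega)
  · intro b w hbw
    by_cases hb : b = M.bl r <;> by_cases hw : ∃ e, M.wh e = w
    · obtain ⟨e, rfl⟩ := hw
      rw [hb, hpb0, hpw] at hbw
      omega
    · rw [hb, hpb0, hpw' w hw] at hbw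
      omega
    · obtain ⟨e, rfl⟩ := hw
      rw [hpb b hb, hpw] at hbw
      omega
    · rw [hpb b hb, hpw' w hw] at hbw
      omega
  · intro c
    obtain ⟨t, ht, _⟩ := exists_label M.wh hwh c (0 : ℤ)
    exact ⟨fun _ => 0, t, fun e _ => by rw [ht]; ring⟩
  · intro c
    refine ⟨fun _ => 0, fun _ => 0, fun e he => ?_⟩
    exfalso
    have he' : pw (M.wh e) < pb (M.bl e) := he
    rw [hS e r, hpb0] at he'
    omega
  · intro b hb
    rw [hpb0, hpb b hb]
    omega
  · intro w
    rw [hpb0]
    by_cases hw : ∃ e, M.wh e = w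
    · obtain ⟨e, rfl⟩ := hw
      rw [hpw]
      omega
    · rw [hpw' w hw]
      omega
  · intro e _ her
    rw [hpw, hpw]
    have := hk' e her
    omega

theorem caseW [Fintype B] [DecidableEq B] [Fintype W] [DecidableEq W] (M : BMap E B W)
    (hM : M.Simple) (hS : M.StarW) (r : E) : M.T r := by
  classical
  obtain ⟨ib, hib⟩ := exists_inj B
  obtain ⟨iw, hiw⟩ := exists_inj W
  have hbl : Function.Injective M.bl := fun a b hab => hM a b hab (hS a b)
  let pb : B → ℕ := fun b => if b = M.bl r then 0 else 4 * ib b + 3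
  let pw : W → ℕ := fun w => if w = M.wh r then 1 else 4 * iw w + 2
  have hpb0 : pb (M.bl r) = 0 := if_pos rfl
  have hpb : ∀ b, b ≠ M.bl r → pb b = 4 * ib b + 3 := fun b hb => if_neg hb
  have hpw0 : pw (M.wh r) = 1 := if_pos rfl
  have hpw : ∀ w, w ≠ M.wh r → pw w = 4 * iw w + 2 := fun w hw => if_neg hw
  refine T_of_nat M r pb pw ?_ ?_ ?_ ?_ ?_ ?_ ?_ ?_
  · intro a b hab
    by_cases ha : a = M.bl r <;> by_cases hb : b = M.bl r
    · rw [ha, hb]
    · rw [ha, hpb0, hpb b hb] at hab
      omega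
    · rw [hb, hpb0, hpb a ha] at hab
      omega
    · rw [hpb a ha, hpb b hb] at hab
      exact hib (by omega)
  · intro a b hab
    by_cases ha : a = M.wh r <;> by_cases hb : b = M.wh r
    · rw [ha, hb]
    · rw [ha, hpw0, hpw b hb] at hab
      omega
    · rw [hb, hpw0, hpw a ha] at hab
      omega
    · rw [hpw a ha, hpw b hb] at hab
      exact hiw (by omega)
  · intro b w hbw
    by_cases hb : b = M.bl r <;> by_cases hw : w = M.wh r
    · rw [hb, hw, hpb0, hpw0] at hbw
      omega
    · rw [hb, hpb0, hpw w hw] at hbw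
      omega
    · rw [hw, hpb b hb, hpw0] at hbw
      omega
    · rw [hpb b hb, hpw w hw] at hbw
      omega
  · intro c
    refine ⟨fun _ => 0, fun _ => c r, fun e he => ?_⟩
    have h1 : M.bl e = M.bl r := by
      by_contra hne
      have he' : pb (M.bl e) < pw (M.wh e) := he
      rw [hS e r, hpw0, hpb _ hne] at he'
      omega
    rw [hbl h1]
    ring
  · intro c
    obtain ⟨t, ht, _⟩ := exists_label M.bl hbl (fun e => - c e) (0 : ℤ)
    exact ⟨t, fun _ => 0, fun e _ => by rw [ht]; ring⟩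
  · intro b hb
    rw [hpb0, hpb b hb]
    omega
  · intro w
    rw [hpb0]
    by_cases hw : w = M.wh r
    · rw [hw, hpw0]
      omega
    · rw [hpw w hw]
      omega
  · intro e he her
    exfalso
    apply her
    have h1 : e = r := hbl he
    rw [h1]
    exact hbl (bl_β M r)

end StarsAux

/-- Good positions of a star. -/
theorem Stars : S_Stars := by
  intro E B W _ _ _ _ _ _ M hM hS r
  rcases hS with h | h
  · exact StarsAux.caseB M hM h r
  · exact StarsAux.caseW M hM h r

end PanD
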