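import Pool.Agent.Lib.MP_e6972d_co.Spec

/-!
# TwoLift: good positions after deleting a white vertex of degree 2

The deleted white vertex `u` is placed right after the white end of `g = β⁻¹ x`.
-/

namespace PanD

open Equiv Finset

namespace TwoLiftAux

/-- a rational number right after `a`, with respect to a finite set -/
theorem exists_next (F : Finset ℚ) (a : ℚ) : ∃ q, a < q ∧ ∀ p ∈ F, a < p → q < p := by
  classical
  induction F using Finset.induction_on with
  | empty => exact ⟨a + 1, by linarith, fun p hp => absurd hp (Finset.notMem_empty p)⟩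
  | insert p F _ ih =>
    obtain ⟨q, h1, h2⟩ := ih
    by_cases h3 : a < p
    · refine ⟨min q ((a + p) / 2), lt_min h1 (by linarith), ?_⟩
      intro p' hp' hap'
      rcases Finset.mem_insert.1 hp' with rfl | hp'
      · exact (min_le_right _ _).trans_lt (by linarith)
      · exact (min_le_left _ _).trans_lt (h2 p' hp' hap')
    · refine ⟨q, h1, ?_⟩
      intro p' hp' hap'
      rcases Finset.mem_insert.1 hp' with rfl | hp'
      · exact absurd hap' h3
      · exact h2 p' hp' hap'

variable {E B W : Type}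

theorem bl_beta (M : BMap E B W) (e : E) : M.bl (M.β e) = M.bl e :=
  (M.hb _ _).2 (Perm.sameCycle_apply_left.2 (Perm.SameCycle.refl _ _))

theorem bl_beta_symm (M : BMap E B W) (e : E) : M.bl (M.β.symm e) = M.bl e := by
  have h := bl_beta M (M.β.symm e)
  rw [Equiv.apply_symm_apply] at h
  exact h.symm

theorem wh_omega (M : BMap E B W) (e : E) : M.wh (M.ω e) = M.wh e :=
  (M.hw _ _).2 (Perm.sameCycle_apply_left.2 (Perm.SameCycle.refl _ _))

/-- the edges at a white vertex of degree 2 -/
theorem at_u [Finite E] (M : BMap E B W) {x : E} (hx : M.ω (M.ω x) = x) {e : E}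
    (he : M.wh e = M.wh x) : e = x ∨ e = M.ω x := by
  have h1 : M.ω.SameCycle x e := (M.hw _ _).1 he.symm
  refine SameCycle.mem_closed (S := {z | z = x ∨ z = M.ω x}) h1 ?_ (Or.inl rfl)
  rintro z (rfl | rfl)
  · exact Or.inr rfl
  · exact Or.inl hx

end TwoLiftAux

open TwoLiftAux

theorem TwoLift : S_TwoLift := by
  classical
  intro E B W _ _ _ _ _ _ M hS x r hωω hvs hxr hne_xr hβxr hββ hy₁ hy₂ E' M' ι r' hr' hι hran hbl
    hwh hβ1 hβ2 hT
  obtain ⟨y₁, hy₁b, hy₁w⟩ := hy₁
  obtain ⟨y₂, hy₂b, hy₂w⟩ := hy₂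
  obtain ⟨pb, pw, hG⟩ := hT
  have hr'b : M'.bl r' = M.bl r := by rw [hbl, hr']
  -- the edge `g`
  obtain ⟨g, hg⟩ : ∃ g, g = M.β.symm x := ⟨_, rfl⟩
  have hβg : M.β g = x := by rw [hg, Equiv.apply_symm_apply]
  have hgb : M.bl g = M.bl x := by rw [hg]; exact bl_beta_symm M x
  have hβxx : M.β x ≠ x := fun h => hββ (by rw [h, h])
  have hgx : g ≠ x := by
    intro h
    apply hβxx
    rw [h] at hβg
    exact hβg
  have hgβx : g ≠ M.β x := by
    intro h
    apply hββ
    rw [← h]
    exact hβg
  have hβxb : M.bl (M.β x) = M.bl x := bl_beta M x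
  have hwg : M.wh g ≠ M.wh x := fun h => hgx (hS _ _ hgb h)
  have hwβ : M.wh (M.β x) ≠ M.wh x := fun h => hβxx (hS _ _ hβxb h)
  have hwgβ : M.wh g ≠ M.wh (M.β x) := fun h => hgβx (hS _ _ (hgb.trans hβxb.symm) h)
  have hωw : M.wh (M.ω x) = M.wh x := wh_omega M x
  rw [← hg] at hy₁w
  -- edges of `M'`
  have hsurj : ∀ z, z ≠ x → z ≠ M.ω x → ∃ y, ι y = z := fun z h1 h2 => (hran z).2 ⟨h1, h2⟩
  have hat : ∀ z, M.bl z = M.bl x → z ≠ x → ∃ y, ι y = z := by
    intro z h1 h2
    refine hsurj z h2 ?_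
    rintro rfl
    exact hvs h1
  have hnw : ∀ z, M.wh z ≠ M.wh x → ∃ y, ι y = z := by
    intro z h1
    refine hsurj z ?_ ?_
    · rintro rfl
      exact h1 rfl
    · rintro rfl
      exact h1 hωw
  obtain ⟨g', hg'⟩ := hat g hgb hgx
  obtain ⟨k', hk'⟩ := hat (M.β x) hβxb hβxx
  obtain ⟨y₁', hy₁'⟩ := hnw y₁ (by rw [hy₁w]; exact hwg)
  obtain ⟨y₂', hy₂'⟩ := hnw y₂ (by rw [hy₂w]; exact hwβ)
  -- the rotation at `g`
  have hιβg : ι (M'.β g') = M.β x := hβ2 g' (by rw [hg']; exact hgb) (by rw [hg']; exact hβg)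
  have hrotg : pw (M.wh g) < pw (M.wh (M.β x)) := by
    have h1 := hG.rot g' (by rw [hr'b, hbl, hg', hgb, hxr]) (by
      intro h
      apply hβxr
      rw [← hιβg, h, hr'])
    rw [hwh, hwh, hg', hιβg] at h1
    exact h1
  have hfw : ∀ w, pb (M.bl x) < pw w := by
    intro w
    have h1 := hG.firstw w
    rw [hr'b, ← hxr] at h1
    exact h1
  -- the claim
  have hclaim : pw (M.wh g) < pb (M.bl (M.ω x)) := by
    rcases lt_trichotomy (pw (M.wh g)) (pb (M.bl (M.ω x))) with h | h | h
    · exact h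
    · exact absurd h.symm (hG.ne _ _)
    · exfalso
      obtain ⟨tb, tw, ht0⟩ := hG.pot1 (fun e => if e = y₁' then 1 else 0)
      have ht : ∀ e, pb (M'.bl e) < pw (M'.wh e) →
          tw (M'.wh e) - tb (M'.bl e) = if e = y₁' then 1 else 0 := ht0
      have e1 := ht g' (by rw [hbl, hwh, hg', hgb]; exact hfw _)
      have e2 := ht k' (by rw [hbl, hwh, hk', hβxb]; exact hfw _)
      have e3 := ht y₂' (by rw [hbl, hwh, hy₂', hy₂b, hy₂w]; exact h.trans hrotg)
      have e4 := ht y₁' (by rw [hbl, hwh, hy₁', hy₁b, hy₁w]; exact h)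
      have n1 : g' ≠ y₁' := by
        rintro rfl
        apply hvs
        rw [← hy₁b, ← hy₁', hg', hgb]
      have n2 : k' ≠ y₁' := by
        rintro rfl
        apply hvs
        rw [← hy₁b, ← hy₁', hk', hβxb]
      have n3 : y₂' ≠ y₁' := by
        rintro rfl
        apply hwgβ
        rw [← hy₁w, ← hy₂w, ← hy₁', hy₂']
      rw [if_neg n1, hbl, hwh, hg', hgb] at e1
      rw [if_neg n2, hbl, hwh, hk', hβxb] at e2
      rw [if_neg n3, hbl, hwh, hy₂', hy₂b, hy₂w] at e3
      rw [if_pos rfl, hbl, hwh, hy₁', hy₁b, hy₁w] at e4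
      omega
  -- the new position
  obtain ⟨q, hq1, hq2⟩ := exists_next (univ.image pb ∪ univ.image pw) (pw (M.wh g))
  have hqb : ∀ b, pw (M.wh g) < pb b → q < pb b := fun b h =>
    hq2 _ (Finset.mem_union_left _ (Finset.mem_image_of_mem _ (Finset.mem_univ _))) h
  have hqw : ∀ w, pw (M.wh g) < pw w → q < pw w := fun w h =>
    hq2 _ (Finset.mem_union_right _ (Finset.mem_image_of_mem _ (Finset.mem_univ _))) h
  have hqneb : ∀ b, pb b ≠ q := by
    intro b h
    have h1 := hqb b (by rw [h]; exact hq1)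
    rw [h] at h1
    exact lt_irrefl _ h1
  have hqnew : ∀ w, pw w ≠ q := by
    intro w h
    have h1 := hqw w (by rw [h]; exact hq1)
    rw [h] at h1
    exact lt_irrefl _ h1
  have hup : ∀ w, w ≠ M.wh x → Function.update pw (M.wh x) q w = pw w := fun w h =>
    Function.update_of_ne h _ _
  have huu : Function.update pw (M.wh x) q (M.wh x) = q := Function.update_self _ _ _
  have hsq : pb (M.bl x) < q := (hfw _).trans hq1
  have hqv : q < pb (M.bl (M.ω x)) := hqb _ hclaim
  refine ⟨pb, Function.update pw (M.wh x) q, ?_⟩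
  refine ⟨⟨hG.injb, ?_, ?_, ?_, ?_⟩, ?_, ?_, ?_⟩
  · intro w w' h
    by_cases h1 : w = M.wh x
    · by_cases h2 : w' = M.wh x
      · rw [h1, h2]
      · rw [h1, huu, hup w' h2] at h
        exact absurd h.symm (hqnew w')
    · by_cases h2 : w' = M.wh x
      · rw [h2, huu, hup w h1] at h
        exact absurd h (hqnew w)
      · rw [hup w h1, hup w' h2] at h
        exact hG.injw h
  · intro b w
    by_cases h1 : w = M.wh x
    · rw [h1, huu]
      exact hqneb b
    · rw [hup w h1]
      exact hG.ne b w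
  · intro c
    obtain ⟨tb, tw, ht0⟩ := hG.pot1 (fun e => c (ι e))
    have ht : ∀ e, pb (M'.bl e) < pw (M'.wh e) → tw (M'.wh e) - tb (M'.bl e) = c (ι e) := ht0
    refine ⟨tb, Function.update tw (M.wh x) (tb (M.bl x) + c x), ?_⟩
    intro e he
    change pb (M.bl e) < Function.update pw (M.wh x) q (M.wh e) at he
    by_cases h1 : M.wh e = M.wh x
    · rcases at_u M hωω h1 with rfl | rfl
      · rw [Function.update_self]
        ring
      · rw [h1, huu] at he
        exact absurd (he.trans hqv) (lt_irrefl _)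
    · obtain ⟨e', he'⟩ := hnw e h1
      rw [hup _ h1] at he
      rw [Function.update_of_ne h1]
      have h2 := ht e' (by rw [hbl, hwh, he']; exact he)
      rw [hbl, hwh, he'] at h2
      exact h2
  · intro c
    obtain ⟨tb, tw, ht0⟩ := hG.pot2 (fun e => c (ι e))
    have ht : ∀ e, pw (M'.wh e) < pb (M'.bl e) → tw (M'.wh e) - tb (M'.bl e) = c (ι e) := ht0
    refine ⟨tb, Function.update tw (M.wh x) (tb (M.bl (M.ω x)) + c (M.ω x)), ?_⟩
    intro e he
    change Function.update pw (M.wh x) q (M.wh e) < pb (M.bl e) at he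
    by_cases h1 : M.wh e = M.wh x
    · rcases at_u M hωω h1 with rfl | rfl
      · rw [huu] at he
        exact absurd (he.trans hsq) (lt_irrefl _)
      · rw [hωw, Function.update_self]
        ring
    · obtain ⟨e', he'⟩ := hnw e h1
      rw [hup _ h1] at he
      rw [Function.update_of_ne h1]
      have h2 := ht e' (by rw [hbl, hwh, he']; exact he)
      rw [hbl, hwh, he'] at h2
      exact h2
  · intro b hb
    have h1 := hG.firstb b (by rw [hr'b]; exact hb)
    rw [hr'b] at h1
    exact h1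
  · intro w
    rw [← hxr]
    by_cases h1 : w = M.wh x
    · rw [h1, huu]
      exact hsq
    · rw [hup w h1]
      exact hfw w
  · intro e heb heβ
    rw [← hxr] at heb
    by_cases h1 : e = g
    · rw [h1, hβg, huu, hup _ hwg]
      exact hq1
    · by_cases h2 : e = x
      · rw [h2, huu, hup _ hwβ]
        exact hqw _ hrotg
      · have h3 : M.wh e ≠ M.wh x := fun h => h2 (hS _ _ heb h)
        have h4 : M.β e ≠ x := by
          intro h
          apply h1
          rw [hg, ← h, Equiv.symm_apply_apply]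
        have h5 : M.wh (M.β e) ≠ M.wh x := fun h =>
          h4 (hS _ _ ((bl_beta M e).trans heb) h)
        obtain ⟨e', he'⟩ := hat e heb h2
        have h6 : ι (M'.β e') = M.β e := by
          have := hβ1 e' (by rw [he']; exact heb) (by rw [he']; exact h4)
          rw [this, he']
        have h7 := hG.rot e' (by rw [hr'b, hbl, he', heb, hxr]) (by
          intro h
          apply heβ
          rw [← h6, h, hr'])
        rw [hwh, hwh, he', h6] at h7
        rw [hup _ h3, hup _ h5]
        exact h7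

end PanD
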