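import Pool.Agent.Lib.MP_e6972d_co.Spec

/-!
# Deleting both edges of a white vertex of degree 2
-/

set_option autoImplicit false

namespace PanD

open Equiv Finset

namespace TwoRedAux

variable {E B W : Type}

theorem bl_β (M : BMap E B W) (e : E) : M.bl (M.β e) = M.bl e :=
  (M.hb _ _).2 (Perm.sameCycle_apply_left.2 (Perm.SameCycle.refl _ _))

theorem wh_ω (M : BMap E B W) (e : E) : M.wh (M.ω e) = M.wh e :=
  (M.hw _ _).2 (Perm.sameCycle_apply_left.2 (Perm.SameCycle.refl _ _))

/-- the edges at a white vertex of degree 2 -/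
theorem at_u [Finite E] (M : BMap E B W) {x : E} (hx : M.ω (M.ω x) = x) {e : E}
    (h : M.wh e = M.wh x) : e = x ∨ e = M.ω x := by
  have h1 : M.ω.SameCycle x e := (M.hw x e).1 h.symm
  have h2 : e ∈ ({x, M.ω x} : Set E) := by
    refine SameCycle.mem_closed h1 ?_ (Or.inl rfl)
    rintro z (rfl | hz)
    · exact Or.inr rfl
    · have hz' : z = M.ω x := hz
      rw [hz', hx]
      exact Or.inl rfl
  exact h2

end TwoRedAux

open TwoRedAux in
theorem TwoRed (hDel : S_DelPlanar) : S_TwoRed := by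
  intro E B W _ _ _ _ M hS hP hC x hx hbl x₁ y₁ hx1 hy1 h1 h2
  have hyx : M.ω x ≠ x := by
    intro h
    exact hbl (by rw [h])
  have hwy : M.wh (M.ω x) = M.wh x := wh_ω M x
  have a1 : x₁ ≠ x := by
    rintro rfl
    exact h2 rfl
  have a2 : x₁ ≠ M.ω x := by
    rintro rfl
    exact h2 hwy
  have a3 : y₁ ≠ x := by
    rintro rfl
    exact h2 h1
  have a4 : y₁ ≠ M.ω x := by
    rintro rfl
    exact h2 (h1.trans hwy)
  obtain ⟨p1, p2⟩ := hDel E B W M x
  obtain ⟨q1, q2⟩ := hDel {e : E // e ≠ x} B W (M.del x) ⟨M.ω x, hyx⟩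
  let mk : ∀ e : E, e ≠ x → e ≠ M.ω x →
      {z : {e : E // e ≠ x} // z ≠ (⟨M.ω x, hyx⟩ : {e : E // e ≠ x})} :=
    fun e he he' => ⟨⟨e, he⟩, fun h => he' (congrArg Subtype.val h)⟩
  have hι : ∀ z : {z : {e : E // e ≠ x} // z ≠ (⟨M.ω x, hyx⟩ : {e : E // e ≠ x})},
      z.1.1 ≠ x ∧ z.1.1 ≠ M.ω x := fun z => ⟨z.1.2, fun h => z.2 (Subtype.ext h)⟩
  refine ⟨{z : {e : E // e ≠ x} // z ≠ (⟨M.ω x, hyx⟩ : {e : E // e ≠ x})}, inferInstance,
    inferInstance, (M.del x).del ⟨M.ω x, hyx⟩, fun z => z.1.1, q2 (p2 hS), q1 (p1 hP), ?_, ?_, ?_,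
    ?_, fun _ => rfl, fun _ => rfl, ?_, ?_⟩
  · -- connectedness
    intro S hS0 hScl
    let ρ : E → {z : {e : E // e ≠ x} // z ≠ (⟨M.ω x, hyx⟩ : {e : E // e ≠ x})} := fun e =>
      if he : e = x then mk x₁ a1 a2 else if he' : e = M.ω x then mk y₁ a3 a4 else mk e he he'
    have ρx : ρ x = mk x₁ a1 a2 := by simp [ρ]
    have ρy : ρ (M.ω x) = mk y₁ a3 a4 := by simp [ρ, hyx]
    have ρo : ∀ e (he : e ≠ x) (he' : e ≠ M.ω x), ρ e = mk e he he' := by
      intro e he he'
      simp [ρ, he, he']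
    have ρι : ∀ z, ρ z.1.1 = z := fun z => by
      rw [ρo z.1.1 (hι z).1 (hι z).2]
    have hblρ : ∀ e, M.bl (ρ e).1.1 = M.bl e := by
      intro e
      by_cases he : e = x
      · rw [he, ρx]
        exact hx1
      by_cases he' : e = M.ω x
      · rw [he', ρy]
        exact hy1
      · rw [ρo e he he']
    have hT := hC {e | ρ e ∈ S} (by
      obtain ⟨z, hz⟩ := hS0
      refine ⟨z.1.1, ?_⟩
      show ρ z.1.1 ∈ S
      rw [ρι z]
      exact hz) (by
      intro e he f hef
      have he' : ρ e ∈ S := he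
      show ρ f ∈ S
      refine hScl _ he' _ ?_
      rcases hef with hef | hef
      · left
        show M.bl (ρ e).1.1 = M.bl (ρ f).1.1
        rw [hblρ, hblρ, hef]
      · right
        show M.wh (ρ e).1.1 = M.wh (ρ f).1.1
        by_cases hu : M.wh e = M.wh x
        · have hu' : M.wh f = M.wh x := hef.symm.trans hu
          have c1 : ∀ e, M.wh e = M.wh x → M.wh (ρ e).1.1 = M.wh x₁ := by
            intro e he
            rcases at_u M hx he with h3 | h3
            · rw [h3, ρx]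
            · rw [h3, ρy]
              exact h1.symm
          rw [c1 e hu, c1 f hu']
        · have c1 : ∀ e, M.wh e ≠ M.wh x → M.wh (ρ e).1.1 = M.wh e := by
            intro e he
            have d1 : e ≠ x := by
              rintro rfl
              exact he rfl
            have d2 : e ≠ M.ω x := by
              rintro rfl
              exact he hwy
            rw [ρo e d1 d2]
          rw [c1 e hu, c1 f (fun h => hu (hef.trans h)), hef])
    refine Set.eq_univ_of_forall fun z => ?_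
    have h3 : z.1.1 ∈ ({e | ρ e ∈ S} : Set E) := by
      rw [hT]
      exact Set.mem_univ _
    have h4 : ρ z.1.1 ∈ S := h3
    rw [ρι z] at h4
    exact h4
  · -- the number of vertices
    unfold BMap.nv
    have h3 : (univ.image ((M.del x).del ⟨M.ω x, hyx⟩).bl).card ≤ (univ.image M.bl).card := by
      refine Finset.card_le_card ?_
      intro b hb
      obtain ⟨z, -, rfl⟩ := Finset.mem_image.mp hb
      exact Finset.mem_image.mpr ⟨z.1.1, Finset.mem_univ _, rfl⟩
    have h4 : (univ.image ((M.del x).del ⟨M.ω x, hyx⟩).wh).card < (univ.image M.wh).card := by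
      refine Finset.card_lt_card ?_
      rw [Finset.ssubset_iff_of_subset]
      · refine ⟨M.wh x, Finset.mem_image_of_mem _ (Finset.mem_univ _), fun h5 => ?_⟩
        obtain ⟨z, -, hz⟩ := Finset.mem_image.mp h5
        have hz' : M.wh z.1.1 = M.wh x := hz
        rcases at_u M hx hz' with h6 | h6
        · exact (hι z).1 h6
        · exact (hι z).2 h6
      · intro b hb
        obtain ⟨z, -, rfl⟩ := Finset.mem_image.mp hb
        exact Finset.mem_image.mpr ⟨z.1.1, Finset.mem_univ _, rfl⟩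
    omega
  · intro z z' h
    exact Subtype.ext (Subtype.ext h)
  · intro e
    constructor
    · rintro ⟨z, rfl⟩
      exact hι z
    · rintro ⟨he, he'⟩
      exact ⟨mk e he he', rfl⟩
  · intro z hz hβ
    have h3 : ((delP M.β x z.1 : {e : E // e ≠ x}) : E) = M.β z.1.1 := delP_of_ne _ _ _ hβ
    have h4 : delP M.β x z.1 ≠ (⟨M.ω x, hyx⟩ : {e : E // e ≠ x}) := by
      intro h5
      have h6 : M.β z.1.1 = M.ω x := by
        rw [← h3, h5]
      apply hbl
      rw [← h6, bl_β]
      exact hz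
    have h5 := delP_of_ne (delP M.β x) (⟨M.ω x, hyx⟩ : {e : E // e ≠ x}) z h4
    show ((delP (delP M.β x) (⟨M.ω x, hyx⟩ : {e : E // e ≠ x}) z).1 : E) = M.β z.1.1
    rw [h5, h3]
  · intro z hz hβ
    have h3 : ((delP M.β x z.1 : {e : E // e ≠ x}) : E) = M.β x := delP_of_eq _ _ _ hβ
    have h4 : delP M.β x z.1 ≠ (⟨M.ω x, hyx⟩ : {e : E // e ≠ x}) := by
      intro h5
      have h6 : M.β x = M.ω x := by
        rw [← h3, h5]
      apply hbl
      rw [← h6, bl_β]
    have h5 := delP_of_ne (delP M.β x) (⟨M.ω x, hyx⟩ : {e : E // e ≠ x}) z h4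
    show ((delP (delP M.β x) (⟨M.ω x, hyx⟩ : {e : E // e ≠ x}) z).1 : E) = M.β x
    rw [h5, h3]

end PanD
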